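import Pool.Agent.Helper85K9.AH.Tup
import Pool.Agent.Y921.MT.Rb
import Pool.Agent.Y220.MT.Sim
import Pool.Agent.Y431.MT.Intt
import Pool.Agent.Y815.MT.DimA
import Pool.Agent.Y658.MT.Op

/-!
# Fibres and an arbitrary Hodge structure
-/

set_option autoImplicit false

open Matrix

namespace Pool.Agent.Helper85K9.AH

open Pool.Agent.Y113.MT (cq)

variable {n k N : ℕ} {A : Matrix (Fin n) (Fin n) ℚ}

/-- the operator `Φ` is not independent of the operator `ΦW` -/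
def Bad (A : Matrix (Fin n) (Fin n) ℚ) {N : ℕ} (Φ : Matrix (Fin n) (Fin n) ℂ) (ΦW : Matrix (Fin N) (Fin N) ℂ) : Prop :=
  ∃ 𝔫 : Submodule ℚ (Matrix (Fin n) (Fin n) ℚ × Matrix (Fin N) (Fin N) ℚ),
  (∀ X ∈ 𝔫, ∀ Y ∈ 𝔫, (X.1 * Y.1 - Y.1 * X.1, X.2 * Y.2 - Y.2 * X.2) ∈ 𝔫) ∧
  (Φ, ΦW) ∈ Submodule.span ℂ ((fun X : Matrix (Fin n) (Fin n) ℚ × Matrix (Fin N) (Fin N) ℚ => (cq X.1, cq X.2)) ''
    (𝔫 : Set _)) ∧ ∃ X : Matrix (Fin n) (Fin n) ℚ, X * A + A * Xᵀ = 0 ∧ (X, 0) ∉ 𝔫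

/-- products with an arbitrary factor, Lie form -/
def LieW (A : Matrix (Fin n) (Fin n) ℚ) (Φ : Fin k → Matrix (Fin n) (Fin n) ℂ) (ΦW : Matrix (Fin N) (Fin N) ℂ) : Prop :=
  ∀ 𝔪 : Submodule ℚ ((Fin k → Matrix (Fin n) (Fin n) ℚ) × Matrix (Fin N) (Fin N) ℚ),
  (∀ X ∈ 𝔪, ∀ Y ∈ 𝔪, ((fun i => X.1 i * Y.1 i - Y.1 i * X.1 i), X.2 * Y.2 - Y.2 * X.2) ∈ 𝔪) →
  (Φ, ΦW) ∈ Submodule.span ℂ ((fun X : (Fin k → Matrix (Fin n) (Fin n) ℚ) × Matrix (Fin N) (Fin N) ℚ =>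
    (fun i => cq (X.1 i), cq X.2)) '' (𝔪 : Set _)) →
  ∀ X : Fin k → Matrix (Fin n) (Fin n) ℚ, (∀ i, X i * A + A * (X i)ᵀ = 0) → (X, 0) ∈ 𝔪

/-- the projection to the product of the fibres -/
lemma proj_all {Φ : Fin k → Matrix (Fin n) (Fin n) ℂ} (hl : Lie A Φ) (ΦW : Matrix (Fin N) (Fin N) ℂ)
    (𝔪 : Submodule ℚ ((Fin k → Matrix (Fin n) (Fin n) ℚ) × Matrix (Fin N) (Fin N) ℚ))
    (hbr : ∀ X ∈ 𝔪, ∀ Y ∈ 𝔪, ((fun i => X.1 i * Y.1 i - Y.1 i * X.1 i), X.2 * Y.2 - Y.2 * X.2) ∈ 𝔪)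
    (hmem : (Φ, ΦW) ∈ Submodule.span ℂ ((fun X : (Fin k → Matrix (Fin n) (Fin n) ℚ) × Matrix (Fin N) (Fin N) ℚ =>
        (fun i => cq (X.1 i), cq X.2)) '' (𝔪 : Set _))) (X : Fin k → Matrix (Fin n) (Fin n) ℚ)
    (hX : ∀ i, X i * A + A * (X i)ᵀ = 0) : ∃ Y ∈ 𝔪, Y.1 = X := by
  have h1 := hl (𝔪.map (LinearMap.fst ℚ (Fin k → Matrix (Fin n) (Fin n) ℚ) (Matrix (Fin N) (Fin N) ℚ))) (by
      rintro _ ⟨Y, hY, rfl⟩ _ ⟨Y', hY', rfl⟩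
      exact ⟨_, hbr Y hY Y' hY', rfl⟩) (by
      have h2 := Submodule.mem_map_of_mem
        (f := LinearMap.fst ℂ (Fin k → Matrix (Fin n) (Fin n) ℂ) (Matrix (Fin N) (Fin N) ℂ)) hmem
      rw [Submodule.map_span] at h2
      refine Submodule.span_mono ?_ h2
      rintro _ ⟨_, ⟨Y, hY, rfl⟩, rfl⟩
      exact ⟨Y.1, ⟨Y, hY, rfl⟩, rfl⟩) X hX
  obtain ⟨Y, hY, hYX⟩ := h1
  exact ⟨Y, hY, hYX⟩

/-- the number of bad fibres -/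
lemma bad_card (hAt : Aᵀ = -A) (hAd : A.det ≠ 0) {Φ : Fin k → Matrix (Fin n) (Fin n) ℂ} (hl : Lie A Φ)
    (ΦW : Matrix (Fin N) (Fin N) ℂ) (hb : ∀ i, Bad A (Φ i) ΦW) : k * (n + 1).choose 2 ≤ N ^ 2 := by
  choose 𝔫 hbr hmem X hX hXn using hb
  let 𝔪 : Submodule ℚ ((Fin k → Matrix (Fin n) (Fin n) ℚ) × Matrix (Fin N) (Fin N) ℚ) :=
    { carrier := {X | ∀ i, (X.1 i, X.2) ∈ 𝔫 i}
      add_mem' := fun {Y Z} hY hZ i => (𝔫 i).add_mem (hY i) (hZ i)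
      zero_mem' := fun i => (𝔫 i).zero_mem
      smul_mem' := fun a Y hY i => (𝔫 i).smul_mem a (hY i) }
  have hmm : (Φ, ΦW) ∈ Submodule.span ℂ ((fun X : (Fin k → Matrix (Fin n) (Fin n) ℚ) × Matrix (Fin N) (Fin N) ℚ =>
        (fun i => cq (X.1 i), cq X.2)) '' (𝔪 : Set _)) := Pool.Agent.Y431.MT.intt k n N 𝔫 Φ ΦW hmem
  have hproj := proj_all hl ΦW 𝔪 (fun Y hY Z hZ i => hbr i (Y.1 i, Y.2) (hY i) (Z.1 i, Z.2) (hZ i)) hmm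
  refine Pool.Agent.Y815.MT.DimA.dim k n N A hAt hAd 𝔪 hproj ?_
  intro Y hY hYsp hY2
  funext i
  by_contra hne
  let L : Submodule ℚ (Matrix (Fin n) (Fin n) ℚ) := (𝔫 i).comap (LinearMap.inl ℚ _ _)
  have hL := Pool.Agent.Y220.MT.sim n A hAt hAd L (by
    intro Z hZ V hV
    obtain ⟨W, hW, hWZ⟩ := hproj (fun _ => Z) (fun _ => hZ)
    have h1 := hbr i (W.1 i, W.2) (hW i) (V, 0) hV
    rw [hWZ] at h1
    simp only [Matrix.mul_zero, Matrix.zero_mul, sub_zero] at h1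
    exact h1) (Y.1 i) (by
    have h1 := hY i
    rw [hY2] at h1
    exact h1) (hYsp i) hne (X i) (hX i)
  exact hXn i hL

/-- the projection to one fibre and the other factor -/
lemma single_of {Φ : Fin k → Matrix (Fin n) (Fin n) ℂ} {ΦW : Matrix (Fin N) (Fin N) ℂ} (hW : ∀ i, ¬ Bad A (Φ i) ΦW)
    (𝔪 : Submodule ℚ ((Fin k → Matrix (Fin n) (Fin n) ℚ) × Matrix (Fin N) (Fin N) ℚ))
    (hbr : ∀ X ∈ 𝔪, ∀ Y ∈ 𝔪, ((fun i => X.1 i * Y.1 i - Y.1 i * X.1 i), X.2 * Y.2 - Y.2 * X.2) ∈ 𝔪)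
    (hmm : (Φ, ΦW) ∈ Submodule.span ℂ ((fun X : (Fin k → Matrix (Fin n) (Fin n) ℚ) × Matrix (Fin N) (Fin N) ℚ =>
        (fun i => cq (X.1 i), cq X.2)) '' (𝔪 : Set _))) (i : Fin k) (X : Matrix (Fin n) (Fin n) ℚ)
    (hX : X * A + A * Xᵀ = 0) : ∃ Y ∈ 𝔪, Y.1 i = X ∧ Y.2 = 0 := by
  let π : (Fin k → Matrix (Fin n) (Fin n) ℚ) × Matrix (Fin N) (Fin N) ℚ →ₗ[ℚ]
      Matrix (Fin n) (Fin n) ℚ × Matrix (Fin N) (Fin N) ℚ :=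
    { toFun := fun Y => (Y.1 i, Y.2)
      map_add' := fun _ _ => rfl
      map_smul' := fun _ _ => rfl }
  let πC : (Fin k → Matrix (Fin n) (Fin n) ℂ) × Matrix (Fin N) (Fin N) ℂ →ₗ[ℂ]
      Matrix (Fin n) (Fin n) ℂ × Matrix (Fin N) (Fin N) ℂ :=
    { toFun := fun Y => (Y.1 i, Y.2)
      map_add' := fun _ _ => rfl
      map_smul' := fun _ _ => rfl }
  by_contra hcon
  refine hW i ⟨𝔪.map π, ?_, ?_, X, hX, ?_⟩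
  · rintro _ ⟨Y, hY, rfl⟩ _ ⟨Y', hY', rfl⟩
    exact ⟨_, hbr Y hY Y' hY', rfl⟩
  · have h2 := Submodule.mem_map_of_mem (f := πC) hmm
    rw [Submodule.map_span] at h2
    refine Submodule.span_mono ?_ h2
    rintro _ ⟨_, ⟨Y, hY, rfl⟩, rfl⟩
    exact ⟨(Y.1 i, Y.2), ⟨Y, hY, rfl⟩, rfl⟩
  · rintro ⟨Y, hY, hYX⟩
    exact hcon ⟨Y, hY, congrArg Prod.fst hYX, congrArg Prod.snd hYX⟩

/-- **fibres and an arbitrary Hodge structure, from the product of the fibres** -/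
theorem lieW_of_lie (hAt : Aᵀ = -A) (hAd : A.det ≠ 0) {Φ : Fin k → Matrix (Fin n) (Fin n) ℂ} (hl : Lie A Φ)
    {ΦW : Matrix (Fin N) (Fin N) ℂ} (hW : ∀ i, ¬ Bad A (Φ i) ΦW) : LieW A Φ ΦW := by
  intro 𝔪 hbr hmm
  have hproj := proj_all hl ΦW 𝔪 hbr hmm
  refine Pool.Agent.Y921.MT.rb (Fin k) n N (fun _ => A) (fun i => hAt) (fun i => hAd) 𝔪 hbr ?_
    (single_of hW 𝔪 hbr hmm)
  intro i j hij X hX
  obtain ⟨Y, hY, hYX⟩ := hproj (Pi.single i X) (fun l => by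
    by_cases hl : l = i
    · subst hl
      rw [Pi.single_eq_same]
      exact hX
    · rw [Pi.single_eq_of_ne hl, Matrix.zero_mul, Matrix.transpose_zero, Matrix.mul_zero, add_zero])
  exact ⟨Y, hY, by rw [hYX, Pi.single_eq_same], by rw [hYX, Pi.single_eq_of_ne (Ne.symm hij)]⟩

/-- **fibres and an arbitrary Hodge structure, from the pairs of the fibres** -/
theorem lieW_of_pairs (hAt : Aᵀ = -A) (hAd : A.det ≠ 0) {Φ : Fin k → Matrix (Fin n) (Fin n) ℂ}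
    (hP : ∀ i j, i ≠ j → ¬ Bad A (Φ i) (Φ j))
    {ΦW : Matrix (Fin N) (Fin N) ℂ} (hW : ∀ i, ¬ Bad A (Φ i) ΦW) : LieW A Φ ΦW := by
  intro 𝔪 hbr hmm
  refine Pool.Agent.Y921.MT.rb (Fin k) n N (fun _ => A) (fun i => hAt) (fun i => hAd) 𝔪 hbr ?_
    (single_of hW 𝔪 hbr hmm)
  intro i j hij X hX
  let π : (Fin k → Matrix (Fin n) (Fin n) ℚ) × Matrix (Fin N) (Fin N) ℚ →ₗ[ℚ]
      Matrix (Fin n) (Fin n) ℚ × Matrix (Fin n) (Fin n) ℚ :=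
    { toFun := fun Y => (Y.1 i, Y.1 j)
      map_add' := fun _ _ => rfl
      map_smul' := fun _ _ => rfl }
  let πC : (Fin k → Matrix (Fin n) (Fin n) ℂ) × Matrix (Fin N) (Fin N) ℂ →ₗ[ℂ]
      Matrix (Fin n) (Fin n) ℂ × Matrix (Fin n) (Fin n) ℂ :=
    { toFun := fun Y => (Y.1 i, Y.1 j)
      map_add' := fun _ _ => rfl
      map_smul' := fun _ _ => rfl }
  by_contra hcon
  refine hP i j hij ⟨𝔪.map π, ?_, ?_, X, hX, ?_⟩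
  · rintro _ ⟨Y, hY, rfl⟩ _ ⟨Y', hY', rfl⟩
    exact ⟨_, hbr Y hY Y' hY', rfl⟩
  · have h2 := Submodule.mem_map_of_mem (f := πC) hmm
    rw [Submodule.map_span] at h2
    refine Submodule.span_mono ?_ h2
    rintro _ ⟨_, ⟨Y, hY, rfl⟩, rfl⟩
    exact ⟨(Y.1 i, Y.1 j), ⟨Y, hY, rfl⟩, rfl⟩
  · rintro ⟨Y, hY, hYX⟩
    exact hcon ⟨Y, hY, congrArg Prod.fst hYX, congrArg Prod.snd hYX⟩

end Pool.Agent.Helper85K9.AH
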