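import Pool.Agent.Helper85K9.AH.Rel
import Pool.Agent.Y220.MT.Sim
import Pool.Agent.Y921.MT.Rb

/-!
# A rational Lie algebra which contains the Hodge operator contains the symplectic Lie algebra
-/

set_option autoImplicit false

open Matrix

namespace Pool.Agent.Helper85K9.AH

open Pool.Agent.Y113.MT (cq)

variable {n : ℕ} {ι : Type} [Fintype ι] [DecidableEq ι]

/-- period matrices with cubic relations which hold on the torsor, and Hodge structures -/
structure Setup (A J : Matrix (Fin n) (Fin n) ℚ) (Y Φ : ι → Matrix (Fin n) (Fin n) ℂ) : Prop where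
  pos : 0 < n
  skew : Aᵀ = -A
  inv : A * J = 1
  det : ∀ i, (Y i).det ≠ 0
  hod : ∀ i, Hod A (Φ i)
  hol : ∀ i (c : Fin n), 2 * (c : ℕ) < n → Φ i *ᵥ (Y i)ᵀ c = 0
  relD : ∀ i, RelD J (Y i)
  relO : ∀ i j, i ≠ j → RelO J (Y i) (Y j)

/-- a rational Lie algebra with the Hodge operator and the projection to it -/
structure Alg (A : Matrix (Fin n) (Fin n) ℚ) (Φ : ι → Matrix (Fin n) (Fin n) ℂ)
    (𝔰 : Submodule ℚ (ι → Matrix (Fin n) (Fin n) ℚ))
    (π : (ι → Matrix (Fin n) (Fin n) ℚ) →ₗ[ℚ] (ι → Matrix (Fin n) (Fin n) ℚ)) : Prop where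
  br : ∀ X ∈ 𝔰, ∀ Y ∈ 𝔰, br X Y ∈ 𝔰
  sp : ∀ X ∈ 𝔰, ∀ i, X i * A + A * (X i)ᵀ = 0
  mem : (fun i => P0 (Φ i)) ∈ cxm 𝔰
  pi : ∀ x, π x ∈ 𝔰
  orth : ∀ x, ∀ y ∈ 𝔰, tf (x - π x) y = 0

section
variable {A J : Matrix (Fin n) (Fin n) ℚ} {Y Φ : ι → Matrix (Fin n) (Fin n) ℂ}

omit [Fintype ι] [DecidableEq ι] in
lemma Setup.Adet (h : Setup A J Y Φ) : A.det ≠ 0 := by
  intro h0
  have h1 := congrArg Matrix.det h.inv
  rw [Matrix.det_mul, h0, zero_mul, Matrix.det_one] at h1
  exact zero_ne_one h1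

omit [Fintype ι] [DecidableEq ι] in
lemma Setup.Jdet (h : Setup A J Y Φ) : J.det ≠ 0 := by
  intro h0
  have h1 := congrArg Matrix.det h.inv
  rw [Matrix.det_mul, h0, mul_zero, Matrix.det_one] at h1
  exact zero_ne_one h1

omit [Fintype ι] [DecidableEq ι] in
lemma Setup.Jinv (h : Setup A J Y Φ) : J * A = 1 := mul_eq_one_comm.1 h.inv

omit [Fintype ι] [DecidableEq ι] in
lemma Setup.Jskew (h : Setup A J Y Φ) : Jᵀ = -J := by
  have h1 : J = A⁻¹ := (Matrix.inv_eq_right_inv h.inv).symm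
  rw [h1, transpose_nonsing_inv, h.skew]
  apply inv_eq_right_inv
  rw [neg_mul_neg, Matrix.mul_nonsing_inv _ (isUnit_iff_ne_zero.2 h.Adet)]

omit [Fintype ι] [DecidableEq ι] in
lemma Setup.col_ne (h : Setup A J Y Φ) (i : ι) (c : Fin n) : (Y i)ᵀ c ≠ 0 := by
  intro h0
  apply h.det i
  rw [← Matrix.det_transpose]
  exact Matrix.det_eq_zero_of_row_eq_zero c fun l => congrFun h0 l

omit [Fintype ι] [DecidableEq ι] in
lemma Setup.col_indep (h : Setup A J Y Φ) (i : ι) {c c' : Fin n} (hc : c ≠ c') (a : ℂ) : (Y i)ᵀ c' ≠ a • (Y i)ᵀ c := by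
  intro h0
  have hli : LinearIndependent ℂ (fun r => (Y i)ᵀ r) := by
    have h1 : IsUnit ((Y i)ᵀ).det := by
      rw [Matrix.det_transpose, isUnit_iff_ne_zero]
      exact h.det i
    exact Matrix.linearIndependent_rows_iff_isUnit.2 ((Matrix.isUnit_iff_isUnit_det _).2 h1)
  have h2 := (LinearIndependent.pair_iff.1 (hli.comp ![c, c'] (by
    intro x y hxy
    fin_cases x <;> fin_cases y <;> simp_all) |> fun h3 => by
      have h4 : (fun r => (Y i)ᵀ r) ∘ ![c, c'] = ![(Y i)ᵀ c, (Y i)ᵀ c'] := by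
        funext x
        fin_cases x <;> rfl
      rw [h4] at h3
      exact h3)) a (-1) (by rw [h0]; simp)
  exact absurd h2.2 (by norm_num)

/-- `y_0` -/
def y0 (h : Setup A J Y Φ) (i : ι) : Fin n → ℂ := (Y i)ᵀ ⟨0, h.pos⟩

variable {𝔰 : Submodule ℚ (ι → Matrix (Fin n) (Fin n) ℚ)}
  {π : (ι → Matrix (Fin n) (Fin n) ℚ) →ₗ[ℚ] (ι → Matrix (Fin n) (Fin n) ℚ)}

omit [Fintype ι] in
/-- the rank one element of the first period vector has weight one -/
lemma R_weight (h : Setup A J Y Φ) (j : ι) : br (R J j (y0 h j)) (fun i => P0 (Φ i)) = R J j (y0 h j) := by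
  funext i
  unfold br R
  by_cases hij : i = j
  · subst hij
    rw [Pi.single_eq_same]
    have h1 : Φ i *ᵥ y0 h i = 0 := h.hol i ⟨0, h.pos⟩ (by simpa using h.pos)
    have h2 : Φ i * (vecMulVec (y0 h i) (y0 h i) * cq J) = 0 := by
      rw [← Matrix.mul_assoc, mul_vecMulVec, h1]
      ext a b
      simp [vecMulVec_apply, Matrix.mul_apply]
    have hAJ : cq A * cq J = 1 := by rw [← cq_mul, h.inv, cq_one]
    have hJA : cq J * cq A = 1 := by rw [← cq_mul, h.Jinv, cq_one]
    have h3 : cq J * Φ i = cq J - (Φ i)ᵀ * cq J := by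
      have e1 : Φ i * cq A = cq A - cq A * (Φ i)ᵀ := eq_sub_of_add_eq (h.hod i).pol
      calc cq J * Φ i = cq J * (Φ i * cq A) * cq J := by
            rw [Matrix.mul_assoc, Matrix.mul_assoc, hAJ, Matrix.mul_one]
        _ = (cq J * cq A - cq J * cq A * (Φ i)ᵀ) * cq J := by
            rw [e1, Matrix.mul_sub, Matrix.mul_assoc (cq J)]
        _ = cq J - (Φ i)ᵀ * cq J := by rw [hJA, Matrix.one_mul, Matrix.sub_mul, Matrix.one_mul]
    have h4 : vecMulVec (y0 h i) (y0 h i) * (Φ i)ᵀ = 0 := by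
      rw [vecMulVec_mul, vecMul_transpose, h1]
      ext a b
      simp [vecMulVec_apply]
    have h5 : vecMulVec (y0 h i) (y0 h i) * cq J * Φ i = vecMulVec (y0 h i) (y0 h i) * cq J := by
      rw [Matrix.mul_assoc, h3, Matrix.mul_sub, ← Matrix.mul_assoc, h4, Matrix.zero_mul, sub_zero]
    unfold P0
    rw [Matrix.mul_sub, Matrix.sub_mul, h5, h2, Matrix.mul_smul, Matrix.mul_one, Matrix.smul_mul, Matrix.one_mul]
    module
  · rw [Pi.single_eq_of_ne hij, Matrix.zero_mul, Matrix.mul_zero, sub_zero]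

/-- the projection of the highest weight vector kills the holomorphic vectors -/
lemma kill0 (h : Setup A J Y Φ) (s : Alg A Φ 𝔰 π) (j j' : ι) (c : Fin n) (hc : 2 * (c : ℕ) < n) :
    piC π (R J j (y0 h j)) j' *ᵥ (Y j')ᵀ c = 0 := by
  have h1 := weight h.Adet s.br s.sp h.hod s.mem s.pi s.orth (R_weight h j)
  set z := piC π (R J j (y0 h j)) with hz
  have h2 : z j' * P0 (Φ j') - P0 (Φ j') * z j' = z j' := congrFun h1 j'
  set y := (Y j')ᵀ c with hy
  have h3 : P0 (Φ j') *ᵥ y = (-(1 / 2) : ℂ) • y := by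
    unfold P0
    rw [sub_mulVec, h.hol j' c hc, smul_mulVec, one_mulVec]
    module
  have h4 := congrArg (fun M : Matrix (Fin n) (Fin n) ℂ => M *ᵥ y) h2
  simp only [sub_mulVec, ← mulVec_mulVec] at h4
  rw [h3, mulVec_smul] at h4
  set u := z j' *ᵥ y with hu
  have h5 : P0 (Φ j') *ᵥ u = (-(3 / 2) : ℂ) • u := by
    have : P0 (Φ j') *ᵥ u = (-(1 / 2) : ℂ) • u - u := by
      exact eq_sub_of_add_eq' (sub_eq_iff_eq_add.1 h4).symm
    rw [this]
    module
  have h6 : P0 (Φ j') *ᵥ (P0 (Φ j') *ᵥ u) = (1 / 4 : ℂ) • u := by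
    rw [mulVec_mulVec, P0_sq (h.hod j'), smul_mulVec, one_mulVec]
  rw [h5, mulVec_smul, h5, smul_smul] at h6
  have h7 : (2 : ℂ) • u = 0 := by
    have : (2 : ℂ) • u = (-(3 / 2) * -(3 / 2) : ℂ) • u - (1 / 4 : ℂ) • u := by module
    rw [this, h6, sub_self]
  exact (smul_eq_zero.1 h7).resolve_left two_ne_zero

/-- the same on the torsor, one factor -/
lemma killD (h : Setup A J Y Φ) (s : Alg A Φ 𝔰 π) (j : ι) (c : Fin n) (hc : 2 * (c : ℕ) < n) {g : Matrix (Fin n) (Fin n) ℂ}
    (hg : SpJ J g) : piC π (R J j (g *ᵥ y0 h j)) j *ᵥ (g *ᵥ (Y j)ᵀ c) = 0 := by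
  funext i
  rw [expand]
  exact h.relD j _ _ _ _ (by
    rw [← expand]
    exact congrFun (kill0 h s j j c hc) i) g hg

/-- the same on the torsor, two factors -/
lemma killO (h : Setup A J Y Φ) (s : Alg A Φ 𝔰 π) {j j' : ι} (hj : j ≠ j') (c : Fin n) (hc : 2 * (c : ℕ) < n)
    {g g' : Matrix (Fin n) (Fin n) ℂ} (hg : SpJ J g) (hg' : SpJ J g') :
    piC π (R J j (g *ᵥ y0 h j)) j' *ᵥ (g' *ᵥ (Y j')ᵀ c) = 0 := by
  funext i
  rw [expand]
  exact h.relO j j' hj _ _ _ _ (by
    rw [← expand]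
    exact congrFun (kill0 h s j j' c hc) i) g g' hg hg'

/-- good vectors -/
def Good (h : Setup A J Y Φ) (j : ι) (v : Fin n → ℂ) : Prop := fm J v (y0 h j) ≠ 0

omit [Fintype ι] [DecidableEq ι] in
/-- transitivity -/
lemma trans (h : Setup A J Y Φ) (j : ι) {v : Fin n → ℂ} (hv : Good h j v) : ∃ g, SpJ J g ∧ g *ᵥ y0 h j = v := by
  refine ⟨tv J (v - y0 h j) (fm J v (y0 h j))⁻¹, tv_sp h.Jskew _ _, ?_⟩
  rw [tv_mulVec, fm_sub_left, fm_self h.Jskew, sub_zero, inv_mul_cancel₀ hv, one_smul]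
  abel

/-- the component in another factor is zero -/
lemma off_zero (h : Setup A J Y Φ) (s : Alg A Φ 𝔰 π) {j j' : ι} (hj : j ≠ j') {v : Fin n → ℂ} (hv : Good h j v) :
    piC π (R J j v) j' = 0 := by
  obtain ⟨g, hg, rfl⟩ := trans h j hv
  refine zero_of_off h.Jdet (h.col_ne j' ⟨0, h.pos⟩) fun w hw => ?_
  obtain ⟨g', hg', rfl⟩ := trans h j' (v := w) hw
  exact killO h s hj ⟨0, h.pos⟩ (by simpa using h.pos) hg hg'

omit [Fintype ι] [DecidableEq ι] in
lemma spc {M : Matrix (Fin n) (Fin n) ℂ} (hA : Aᵀ = -A) (hM : M * cq A + cq A * Mᵀ = 0) : (M * cq A)ᵀ = M * cq A := by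
  have hA' : (cq A)ᵀ = -cq A := by
    rw [← cq_tr, hA]
    ext i j
    simp [cq]
  rw [Matrix.transpose_mul, hA', Matrix.neg_mul]
  exact (eq_neg_of_add_eq_zero_left hM).symm

/-- the projection of a rank one element is a multiple of it -/
lemma diag_mul (h : Setup A J Y Φ) (s : Alg A Φ 𝔰 π) (j : ι) {v : Fin n → ℂ} (hv : Good h j v) :
    ∃ c : ℂ, piC π (R J j v) j = c • (vecMulVec v v * cq J) := by
  obtain ⟨g, hg, hgv⟩ := trans h j hv
  set z := piC π (R J j v) j with hz
  have hv0 : v ≠ 0 := by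
    rintro rfl
    apply hv
    simp [fm]
  have hzg : ∀ g', SpJ J g' → g' *ᵥ y0 h j = v → ∀ c : Fin n, 2 * (c : ℕ) < n → z *ᵥ (g' *ᵥ (Y j)ᵀ c) = 0 := by
    intro g' hg' hgv' c hc
    have h1 := killD h s j c hc hg'
    rwa [hgv'] at h1
  have hzv : z *ᵥ v = 0 := by
    have h1 := hzg g hg hgv ⟨0, h.pos⟩ (by simpa using h.pos)
    have h2 : g *ᵥ (Y j)ᵀ ⟨0, h.pos⟩ = v := hgv
    rwa [h2] at h1
  -- the orthogonal complement of `v` is killed
  have hperp : ∀ w, fm J v w = 0 → z *ᵥ w = 0 := by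
    rcases Nat.lt_or_ge 2 n with hn | hn
    · set w1 := g *ᵥ (Y j)ᵀ ⟨1, by omega⟩ with hw1
      have hzw1 : z *ᵥ w1 = 0 := hzg g hg hgv ⟨1, by omega⟩ (by simpa using hn)
      have hA : ∀ y, fm J v y = 0 → fm J y w1 ≠ 0 → z *ᵥ y = 0 := by
        intro y hy hyw
        have hyv : fm J y v = 0 := by rw [fm_swap h.Jskew, hy, neg_zero]
        have h1 := hzg (tv J y 1 * g) (spJ_mul (tv_sp h.Jskew _ _) hg) (by
          rw [← mulVec_mulVec, hgv, tv_mulVec, hyv, mul_zero, zero_smul, add_zero]) ⟨1, by omega⟩ (by simpa using hn)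
        rw [← mulVec_mulVec, ← hw1, tv_mulVec, mulVec_add, hzw1, zero_add, mulVec_smul, one_mul] at h1
        exact (smul_eq_zero.1 h1).resolve_left hyw
      -- a vector orthogonal to `v` and not to `w1`
      have hB : ∃ y, fm J v y = 0 ∧ fm J y w1 ≠ 0 := by
        by_contra hcon
        push Not at hcon
        obtain ⟨u, hu⟩ := fm_nondeg h.Jdet hv0
        set u' : Fin n → ℂ := fun i => (u i : ℂ) with hu'
        have h3 : w1 - (fm J u' w1 / fm J u' v) • v = 0 := by
          by_contra hne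
          obtain ⟨x, hx⟩ := fm_nondeg h.Jdet hne
          apply hx
          set x' : Fin n → ℂ := fun i => (x i : ℂ) with hx'
          have h4 := hcon (x' - (fm J x' v / fm J u' v) • u') (by
            rw [fm_sub_right, fm_smul_right, fm_swap h.Jskew x' v, fm_swap h.Jskew u' v]
            have hvu : fm J v u' ≠ 0 := by
              rw [fm_swap h.Jskew]
              exact neg_ne_zero.2 hu
            field_simp
            ring)
          rw [fm_sub_left, fm_smul_left] at h4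
          rw [fm_sub_right, fm_smul_right]
          have h5 : fm J u' v ≠ 0 := hu
          field_simp
          field_simp at h4
          linear_combination h4
        have h4 : w1 = (fm J u' w1 / fm J u' v) • v := sub_eq_zero.1 h3
        -- pull back by the inverse of `g`
        have hgd : IsUnit g.det := by
          have h5 := congrArg Matrix.det (show gᵀ * cq J * g = cq J from hg)
          rw [Matrix.det_mul, Matrix.det_mul, Matrix.det_transpose] at h5
          have h6 : (cq J).det ≠ 0 := by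
            have h7 : (cq J).det = ((J.det : ℚ) : ℂ) := (RingHom.map_det (Rat.castHom ℂ) J).symm
            rw [h7]
            exact_mod_cast h.Jdet
          rw [isUnit_iff_ne_zero]
          intro h8
          rw [h8, mul_zero] at h5
          exact h6 h5.symm
        rw [← hgv, hw1, ← mulVec_smul] at h4
        have h5 := congrArg (fun x => g⁻¹ *ᵥ x) h4
        simp only [mulVec_mulVec] at h5
        rw [nonsing_inv_mul _ hgd, one_mulVec, one_mulVec] at h5
        exact h.col_indep j (c := ⟨0, h.pos⟩) (c' := ⟨1, by omega⟩) (by simp) _ h5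
      obtain ⟨y, hy1, hy2⟩ := hB
      intro w hw
      by_cases hww : fm J w w1 = 0
      · have h1 := hA (w + y) (by rw [fm_add_right, hw, hy1, add_zero]) (by rwa [fm_add_left, hww, zero_add])
        rw [mulVec_add, hA y hy1 hy2, add_zero] at h1
        exact h1
      · exact hA w hw hww
    · -- `n ≤ 2`
      intro w hw
      have h1 : ∃ c : ℂ, w = c • v := by
        let f : (Fin n → ℂ) →ₗ[ℂ] ℂ :=
          { toFun := fun x => fm J v x
            map_add' := fun x y => fm_add_right _ _ _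
            map_smul' := fun a x => fm_smul_right _ _ _ }
        have hf : Module.finrank ℂ (LinearMap.range f) = 1 := by
          have h2 : LinearMap.range f = ⊤ := by
            rw [LinearMap.range_eq_top]
            obtain ⟨u, hu⟩ := fm_nondeg h.Jdet hv0
            intro a
            have hne : fm J v (fun i => (u i : ℂ)) ≠ 0 := by
              rw [fm_swap h.Jskew]
              exact neg_ne_zero.2 hu
            refine ⟨(a / fm J v (fun i => (u i : ℂ))) • fun i => (u i : ℂ), ?_⟩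
            show fm J v _ = a
            rw [fm_smul_right, div_mul_cancel₀ _ hne]
          rw [h2, finrank_top, Module.finrank_self]
        have h2 := LinearMap.finrank_range_add_finrank_ker f
        rw [hf, Module.finrank_fin_fun] at h2
        have h3 : Module.finrank ℂ (LinearMap.ker f) ≤ 1 := by omega
        obtain ⟨e, he⟩ := finrank_le_one_iff.1 h3
        have hvk : v ∈ LinearMap.ker f := fm_self h.Jskew v
        have hwk : w ∈ LinearMap.ker f := hw
        obtain ⟨a, ha⟩ := he ⟨v, hvk⟩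
        obtain ⟨b, hb⟩ := he ⟨w, hwk⟩
        have ha' : a • (e : Fin n → ℂ) = v := congrArg Subtype.val ha
        have hb' : b • (e : Fin n → ℂ) = w := congrArg Subtype.val hb
        have hane : a ≠ 0 := by
          rintro rfl
          rw [zero_smul] at ha'
          exact hv0 ha'.symm
        refine ⟨b / a, ?_⟩
        rw [← ha', ← hb', smul_smul, div_mul_cancel₀ _ hane]
      obtain ⟨c, rfl⟩ := h1
      rw [mulVec_smul, hzv, smul_zero]
  -- hence `z` has rank one
  obtain ⟨u, hu⟩ := fm_nondeg h.Jdet hv0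
  set u' : Fin n → ℂ := fun i => (u i : ℂ) with hu'
  have hvu : fm J v u' ≠ 0 := by
    rw [fm_swap h.Jskew]
    exact neg_ne_zero.2 hu
  set q := (fm J v u')⁻¹ • (z *ᵥ u') with hq
  have hrk : z = vecMulVec q v * cq J := by
    ext a b
    have h1 : ∀ w, z *ᵥ w = (vecMulVec q v * cq J) *ᵥ w := by
      intro w
      have h2 := hperp (w - (fm J v w / fm J v u') • u') (by
        rw [fm_sub_right, fm_smul_right]
        field_simp
        ring)
      rw [mulVec_sub, mulVec_smul, sub_eq_zero] at h2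
      rw [h2, rk_mulVec, hq, smul_smul]
      rfl
    have h2 := congrFun (h1 (Pi.single b 1)) a
    rw [mulVec_single_one, mulVec_single_one] at h2
    exact h2
  have hsym := spc h.skew (cxm_sp s.sp (piC_mem s.pi (R J j v)) j)
  rw [← hz, hrk, Matrix.mul_assoc, ← cq_mul, h.Jinv, cq_one, Matrix.mul_one, transpose_vecMulVec] at hsym
  obtain ⟨i, hi⟩ : ∃ i, v i ≠ 0 := by
    by_contra hcon
    push Not at hcon
    exact hv0 (funext hcon)
  refine ⟨q i / v i, ?_⟩
  rw [hrk]
  have h3 : q = (q i / v i) • v := by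
    funext a
    have h4 := congrFun (congrFun hsym a) i
    rw [vecMulVec_apply, vecMulVec_apply] at h4
    rw [Pi.smul_apply, smul_eq_mul]
    field_simp
    linear_combination -h4
  rw [show vecMulVec q v = (q i / v i) • vecMulVec v v from by
    ext a b
    rw [vecMulVec_apply, Matrix.smul_apply, vecMulVec_apply, smul_eq_mul]
    conv_lhs => rw [h3]
    rw [Pi.smul_apply, smul_eq_mul]
    ring, Matrix.smul_mul]

end

end Pool.Agent.Helper85K9.AH
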