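import Pool.Agent.Helper85K9.AH.CorA

/-!
# A rational Lie algebra which contains the Hodge operator contains the symplectic Lie algebra, end
-/

set_option autoImplicit false

open Matrix

namespace Pool.Agent.Helper85K9.AH

open Pool.Agent.Y113.MT (cq)

variable {n : ℕ}

lemma exists_nat {P : Polynomial ℂ} (hP : P ≠ 0) : ∃ s : ℕ, P.eval (s : ℂ) ≠ 0 := by
  by_contra hcon
  push Not at hcon
  apply hP
  refine Polynomial.eq_zero_of_infinite_isRoot P (Set.Infinite.mono (s := Set.range (fun s : ℕ => (s : ℂ))) ?_ ?_)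
  · rintro x ⟨s, rfl⟩
    exact hcon s
  · exact Set.infinite_range_of_injective Nat.cast_injective

/-- a symmetric complex matrix which vanishes as a quadratic form on the rational vectors is zero -/
lemma polarC {M : Matrix (Fin n) (Fin n) ℂ} (hM : Mᵀ = M)
    (h : ∀ v : Fin n → ℚ, cv v ⬝ᵥ (M *ᵥ cv v) = 0) : M = 0 := by
  have hadd : ∀ v w : Fin n → ℚ, cv (v + w) = cv v + cv w := by
    intro v w
    funext i
    simp [cv]
  have h1 : ∀ v w : Fin n → ℚ, cv v ⬝ᵥ (M *ᵥ cv w) = 0 := by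
    intro v w
    have h2 := h (v + w)
    rw [hadd, mulVec_add, dotProduct_add, add_dotProduct, add_dotProduct, h v, h w] at h2
    have h3 : cv w ⬝ᵥ (M *ᵥ cv v) = cv v ⬝ᵥ (M *ᵥ cv w) := by
      rw [dotProduct_mulVec, ← mulVec_transpose, hM, dotProduct_comm]
    rw [h3] at h2
    linear_combination (1 / 2) * h2
  have hs : ∀ i : Fin n, cv (Pi.single i 1) = Pi.single i 1 := by
    intro i
    funext l
    by_cases hl : l = i
    · subst hl
      simp [cv]
    · simp [cv, hl]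
  ext i j
  have h4 := h1 (Pi.single i 1) (Pi.single j 1)
  rw [hs, hs, single_one_dotProduct, mulVec_single_one] at h4
  exact h4

variable {ι : Type} [Fintype ι] [DecidableEq ι]
  {A J : Matrix (Fin n) (Fin n) ℚ} {Y Φ : ι → Matrix (Fin n) (Fin n) ℂ}
  {𝔰 : Submodule ℚ (ι → Matrix (Fin n) (Fin n) ℚ)}
  {π : (ι → Matrix (Fin n) (Fin n) ℚ) →ₗ[ℚ] (ι → Matrix (Fin n) (Fin n) ℚ)}

/-- the quadratic form of the Hodge operator -/
noncomputable def qf (J : Matrix (Fin n) (Fin n) ℚ) (Φ : Matrix (Fin n) (Fin n) ℂ) (v : Fin n → ℂ) : ℂ := fm J v (P0 Φ *ᵥ v)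

lemma qf_line (J : Matrix (Fin n) (Fin n) ℚ) (Φ : Matrix (Fin n) (Fin n) ℂ) (v w : Fin n → ℂ) (t : ℂ) :
    qf J Φ (v + t • w) = qf J Φ v + t * (fm J v (P0 Φ *ᵥ w) + fm J w (P0 Φ *ᵥ v)) + t ^ 2 * qf J Φ w := by
  unfold qf
  rw [mulVec_add, mulVec_smul, fm_add_left, fm_add_right, fm_add_right, fm_smul_left, fm_smul_left, fm_smul_right,
    fm_smul_right]
  ring

omit [Fintype ι] [DecidableEq ι] in
lemma qf_ne (h : Setup A J Y Φ) (j : ι) : ∃ v : Fin n → ℚ, qf J (Φ j) (cv v) ≠ 0 := by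
  by_contra hcon
  push Not at hcon
  have hA' : (cq A)ᵀ = -cq A := by
    rw [← cq_tr, h.skew]
    ext i j
    simp [cq]
  have hJ' : (cq J)ᵀ = -cq J := by
    rw [← cq_tr, h.Jskew]
    ext i j
    simp [cq]
  have hAJ : cq A * cq J = 1 := by rw [← cq_mul, h.inv, cq_one]
  have hJA : cq J * cq A = 1 := by rw [← cq_mul, h.Jinv, cq_one]
  have hs := spc h.skew (P0_sp (h.hod j))
  have hJP : cq J * P0 (Φ j) = cq J * (P0 (Φ j) * cq A) * cq J := by
    rw [Matrix.mul_assoc (cq J), Matrix.mul_assoc (P0 (Φ j)), hAJ, Matrix.mul_one]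
  have hsym : (cq J * P0 (Φ j))ᵀ = cq J * P0 (Φ j) := by
    rw [hJP, Matrix.transpose_mul, Matrix.transpose_mul, hs, hJ', Matrix.neg_mul, Matrix.mul_neg, Matrix.mul_neg, neg_neg]
    simp only [Matrix.mul_assoc]
  have h0 := polarC hsym fun v => by
    rw [← mulVec_mulVec]
    exact hcon v
  have h1 : P0 (Φ j) = 0 := by
    calc P0 (Φ j) = cq A * cq J * P0 (Φ j) := by rw [hAJ, Matrix.one_mul]
      _ = cq A * (cq J * P0 (Φ j)) := Matrix.mul_assoc _ _ _
      _ = 0 := by rw [h0, Matrix.mul_zero]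
  have h2 := P0_sq (h.hod j)
  rw [h1, Matrix.mul_zero] at h2
  have h3 := congrFun (congrFun h2 ⟨0, h.pos⟩) ⟨0, h.pos⟩
  simp at h3

/-- on good vectors: in the Lie algebra, or the quadratic form is zero -/
lemma dich (h : Setup A J Y Φ) (s : Alg A Φ 𝔰 π) (j : ι) {v : Fin n → ℚ} (hv : Good h j (cv v))
    (hq : qf J (Φ j) (cv v) ≠ 0) : Rq J j v ∈ 𝔰 := by
  obtain ⟨c, hc⟩ := diag_mul h s j hv
  set x := R J j (cv v) with hx
  set z := piC π x with hz
  have hzx : z = c • x := by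
    funext i
    by_cases hi : i = j
    · subst hi
      rw [hc, Pi.smul_apply, hx, R, Pi.single_eq_same]
    · have h1 := off_zero h s (Ne.symm hi) hv
      rw [← hx, ← hz] at h1
      rw [h1, Pi.smul_apply, hx, R, Pi.single_eq_of_ne hi, smul_zero]
  have hzm : z ∈ cxm 𝔰 := piC_mem s.pi x
  have hc0 : c ≠ 0 := by
    rintro rfl
    apply hq
    have h1 := piC_orth s.orth x s.mem
    rw [← hz, hzx, zero_smul, tf_zero_left] at h1
    have h2 : tf x (fun i => P0 (Φ i)) = qf J (Φ j) (cv v) := by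
      unfold tf
      rw [Finset.sum_eq_single j]
      · rw [hx, R, Pi.single_eq_same, Matrix.mul_assoc, vecMulVec_mul, trace_vecMulVec, qf, fm, mulVec_mulVec,
          dotProduct_mulVec, dotProduct_comm]
      · intro i _ hi
        rw [hx, R, Pi.single_eq_of_ne hi, Matrix.zero_mul, Matrix.trace_zero]
      · intro hn
        exact absurd (Finset.mem_univ _) hn
    rw [← h2, ← h1]
  have hxm : x ∈ cxm 𝔰 := by
    have h1 := Submodule.smul_mem (cxm 𝔰) c⁻¹ hzm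
    rwa [hzx, smul_smul, inv_mul_cancel₀ hc0, one_smul] at h1
  have h1 : z - x = 0 := nondeg h.Adet s.br s.sp h.hod s.mem (Submodule.sub_mem _ hzm hxm) fun y hy => by
    rw [tf_sub_left, piC_orth s.orth x hy, sub_self]
  have h2 : cx (π (Rq J j v)) = cx (Rq J j v) := by
    rw [← piC_cx, cx_Rq]
    exact sub_eq_zero.1 h1
  have h3 : π (Rq J j v) = Rq J j v := by
    funext i
    ext a b
    have h4 := congrFun (congrFun (congrFun h2 i) a) b
    simp only [cx, cq, Matrix.map_apply] at h4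
    exact_mod_cast h4
  rw [← h3]
  exact s.pi _

/-- a polynomial on a line -/
noncomputable def ln (J : Matrix (Fin n) (Fin n) ℚ) (Φ : Matrix (Fin n) (Fin n) ℂ) (y v w : Fin n → ℂ) : Polynomial ℂ :=
  (Polynomial.C (qf J Φ v) + Polynomial.X * Polynomial.C (fm J v (P0 Φ *ᵥ w) + fm J w (P0 Φ *ᵥ v)) +
    Polynomial.X ^ 2 * Polynomial.C (qf J Φ w)) *
  (Polynomial.C (fm J v y) + Polynomial.X * Polynomial.C (fm J w y))

lemma ln_eval (J : Matrix (Fin n) (Fin n) ℚ) (Φ : Matrix (Fin n) (Fin n) ℂ) (y v w : Fin n → ℂ) (t : ℂ) :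
    (ln J Φ y v w).eval t = qf J Φ (v + t • w) * fm J (v + t • w) y := by
  unfold ln
  simp only [Polynomial.eval_mul, Polynomial.eval_add, Polynomial.eval_C, Polynomial.eval_X, Polynomial.eval_pow]
  rw [qf_line, fm_add_left, fm_smul_left]

lemma ln_ne (J : Matrix (Fin n) (Fin n) ℚ) (Φ : Matrix (Fin n) (Fin n) ℂ) {y v w : Fin n → ℂ} (hv : qf J Φ v ≠ 0)
    (hw : fm J w y ≠ 0) : ln J Φ y v w ≠ 0 := by
  refine mul_ne_zero (fun h0 => hv ?_) (fun h0 => hw ?_)
  · have h1 := congrArg (Polynomial.eval 0) h0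
    simpa using h1
  · have h1 := congrArg (fun P => Polynomial.coeff P 1) h0
    simpa [Polynomial.coeff_C] using h1

/-- the rank one elements are in the Lie algebra -/
lemma Rq_mem (h : Setup A J Y Φ) (s : Alg A Φ 𝔰 π) (j : ι) (w : Fin n → ℚ) : Rq J j w ∈ 𝔰 := by
  obtain ⟨v1, hv1⟩ := qf_ne h j
  obtain ⟨v2, hv2⟩ : ∃ v2 : Fin n → ℚ, fm J (cv v2) (y0 h j) ≠ 0 := fm_nondeg h.Jdet (h.col_ne j ⟨0, h.pos⟩)
  have hL := ln_eval J (Φ j) (y0 h j)
  have hcv : ∀ (v w : Fin n → ℚ) (t : ℚ), cv (v + t • w) = cv v + (t : ℂ) • cv w := by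
    intro v w t
    funext i
    simp [cv]
  -- a good base point
  obtain ⟨v0, hv0⟩ : ∃ v0 : Fin n → ℚ, qf J (Φ j) (cv v0) * fm J (cv v0) (y0 h j) ≠ 0 := by
    obtain ⟨t, ht⟩ := exists_nat (ln_ne J (Φ j) hv1 hv2)
    refine ⟨v1 + (t : ℚ) • v2, ?_⟩
    rw [hL] at ht
    rw [hcv, Rat.cast_natCast]
    exact ht
  have hL0 : ln J (Φ j) (y0 h j) (cv v0) (cv w) ≠ 0 := by
    intro h0
    have h1 := congrArg (Polynomial.eval 0) h0
    rw [hL, zero_smul, add_zero, Polynomial.eval_zero] at h1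
    exact hv0 h1
  have hL2 : (ln J (Φ j) (y0 h j) (cv v0) (cv w)).comp (Polynomial.C 2 * Polynomial.X) ≠ 0 := by
    intro h0
    have h1 := congrArg (Polynomial.eval 0) h0
    rw [Polynomial.eval_comp, Polynomial.eval_mul, Polynomial.eval_X, mul_zero, hL, zero_smul, add_zero,
      Polynomial.eval_zero] at h1
    exact hv0 h1
  obtain ⟨t, ht⟩ := exists_nat (mul_ne_zero (mul_ne_zero Polynomial.X_ne_zero hL0) hL2)
  rw [Polynomial.eval_mul, Polynomial.eval_mul, Polynomial.eval_X, Polynomial.eval_comp, Polynomial.eval_mul,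
    Polynomial.eval_C, Polynomial.eval_X, hL, hL] at ht
  have ht0 : (t : ℚ) ≠ 0 := by
    intro h0
    apply ht
    have : (t : ℂ) = 0 := by exact_mod_cast h0
    rw [this, zero_mul, zero_mul]
  have ht1 := (mul_ne_zero_iff.1 (mul_ne_zero_iff.1 ht).1).2
  have ht2 := (mul_ne_zero_iff.1 ht).2
  have m0 : Rq J j v0 ∈ 𝔰 := dich h s j (mul_ne_zero_iff.1 hv0).2 (mul_ne_zero_iff.1 hv0).1
  have m1 : Rq J j (v0 + (t : ℚ) • w) ∈ 𝔰 := by
    have e : cv (v0 + (t : ℚ) • w) = cv v0 + (t : ℂ) • cv w := by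
      rw [hcv, Rat.cast_natCast]
    refine dich h s j ?_ ?_
    · unfold Good
      rw [e]
      exact (mul_ne_zero_iff.1 ht1).2
    · rw [e]
      exact (mul_ne_zero_iff.1 ht1).1
  have m2 : Rq J j (v0 + (2 * t : ℚ) • w) ∈ 𝔰 := by
    have e : cv (v0 + (2 * t : ℚ) • w) = cv v0 + (2 * t : ℂ) • cv w := by
      rw [hcv, Rat.cast_mul, Rat.cast_natCast, Rat.cast_ofNat]
    refine dich h s j ?_ ?_
    · unfold Good
      rw [e]
      exact (mul_ne_zero_iff.1 ht2).2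
    · rw [e]
      exact (mul_ne_zero_iff.1 ht2).1
  have key : Rq J j w = (2 * (t : ℚ) ^ 2)⁻¹ • (Rq J j (v0 + (2 * t : ℚ) • w) - (2 : ℚ) • Rq J j (v0 + (t : ℚ) • w) + Rq J j v0) := by
    have h1 : Rq J j (v0 + (2 * t : ℚ) • w) - (2 : ℚ) • Rq J j (v0 + (t : ℚ) • w) + Rq J j v0 = (2 * (t : ℚ) ^ 2) • Rq J j w := by
      funext i
      unfold Rq
      by_cases hi : i = j
      · subst hi
        simp only [Pi.add_apply, Pi.sub_apply, Pi.smul_apply, Pi.single_eq_same]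
        rw [← Matrix.smul_mul, ← Matrix.smul_mul, ← Matrix.sub_mul, ← Matrix.add_mul]
        congr 1
        ext a b
        simp only [Matrix.add_apply, Matrix.sub_apply, Matrix.smul_apply, vecMulVec_apply, Pi.add_apply, Pi.smul_apply,
          smul_eq_mul]
        ring
      · simp only [Pi.add_apply, Pi.sub_apply, Pi.smul_apply, Pi.single_eq_of_ne hi]
        simp
    rw [h1, smul_smul, inv_mul_cancel₀ (by positivity), one_smul]
  rw [key]
  exact 𝔰.smul_mem _ (𝔰.add_mem (𝔰.sub_mem m2 (𝔰.smul_mem _ m1)) m0)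

/-- the Lie algebra is everything -/
lemma full (h : Setup A J Y Φ) (s : Alg A Φ 𝔰 π) (j : ι) (X : Matrix (Fin n) (Fin n) ℚ) (hX : X * A + A * Xᵀ = 0) :
    (Pi.single j X : ι → Matrix (Fin n) (Fin n) ℚ) ∈ 𝔰 :=
  Pool.Agent.Y220.MT.span h.skew h.inv (𝔰.comap (LinearMap.single ℚ (fun _ : ι => Matrix (Fin n) (Fin n) ℚ) j))
    (fun v => Rq_mem h s j v) X hX

/-- a space of rational matrices which is closed under brackets and contains the Hodge operator over `ℂ` contains the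
symplectic Lie algebra -/
theorem core (h : Setup A J Y Φ) {𝔪 : Submodule ℚ (ι → Matrix (Fin n) (Fin n) ℚ)}
    (hbr : ∀ X ∈ 𝔪, ∀ Y ∈ 𝔪, br X Y ∈ 𝔪) (hmem : Φ ∈ cxm 𝔪) (X : ι → Matrix (Fin n) (Fin n) ℚ)
    (hX : ∀ i, X i * A + A * (X i)ᵀ = 0) : X ∈ 𝔪 := by
  have b1 : ∀ X ∈ spart A 𝔪, ∀ Y ∈ spart A 𝔪, br X Y ∈ spart A 𝔪 := fun X hX Y hY => (spart_br hbr X hX Y hY).1
  have b2 : ∀ X ∈ spart A 𝔪, ∀ i, X i * A + A * (X i)ᵀ = 0 := fun X hX => hX.1
  have b3 := P0_mem h.hod hmem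
  obtain ⟨π, hπ, hπ'⟩ := proj h.Adet b1 b2 h.hod b3
  have s : Alg A Φ (spart A 𝔪) π := ⟨b1, b2, b3, hπ, hπ'⟩
  have h1 : ∀ (j : ι) (X : Matrix (Fin n) (Fin n) ℚ), X * A + A * Xᵀ = 0 →
      (Pi.single j X : ι → Matrix (Fin n) (Fin n) ℚ) ∈ 𝔪 := by
    intro j X hX
    refine Pool.Agent.Y921.MT.perfect A h.skew h.Adet
      (𝔪.comap (LinearMap.single ℚ (fun _ : ι => Matrix (Fin n) (Fin n) ℚ) j)) (fun Z W hZ hW => ?_) X hX
    have h2 := (spart_br hbr _ (full h s j Z hZ) _ (full h s j W hW)).2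
    have h3 : br (Pi.single j Z : ι → Matrix (Fin n) (Fin n) ℚ) (Pi.single j W) = Pi.single j (Z * W - W * Z) := by
      funext i
      unfold br
      by_cases hi : i = j
      · subst hi
        rw [Pi.single_eq_same, Pi.single_eq_same, Pi.single_eq_same]
      · rw [Pi.single_eq_of_ne hi, Pi.single_eq_of_ne hi, Pi.single_eq_of_ne hi, Matrix.mul_zero, sub_zero]
    rw [h3] at h2
    exact h2
  have h2 : X = ∑ j, (Pi.single j (X j) : ι → Matrix (Fin n) (Fin n) ℚ) := (Finset.univ_sum_single X).symm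
  rw [h2]
  exact 𝔪.sum_mem fun j _ => h1 j _ (hX j)

end Pool.Agent.Helper85K9.AH
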