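import Pool.Agent.Helper85K9.AH.Proj
import Pool.Agent.Y431.MT.Intt

/-!
# Descent to the rational numbers
-/

set_option autoImplicit false

open Matrix

namespace Pool.Agent.Helper85K9.AH

open Pool.Agent.Y113.MT (cq)

variable {n : ℕ} {ι : Type} [Fintype ι]

omit [Fintype ι] in
lemma map_mem {𝔮 : Submodule ℚ (ι → Matrix (Fin n) (Fin n) ℚ)} {z : ι → Matrix (Fin n) (Fin n) ℂ} (hz : z ∈ cxm 𝔮) :
    ∀ p : ℂ →ₗ[ℚ] ℚ, (fun i => (z i).map p) ∈ 𝔮 := by
  unfold cxm at hz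
  induction hz using Submodule.span_induction with
  | mem Z hZ =>
    obtain ⟨X, hX, rfl⟩ := hZ
    intro p
    have h1 : ∀ x : ℚ, p ((algebraMap ℚ ℂ) x) = p 1 * x := by
      intro x
      rw [Algebra.algebraMap_eq_smul_one, map_smul, smul_eq_mul, mul_comm]
    have h2 : (fun i => (cx X i).map p) = (p 1) • X := by
      funext i
      ext a b
      simp only [cx, Matrix.map_apply, cq, Pi.smul_apply, Matrix.smul_apply, smul_eq_mul]
      exact h1 _
    rw [h2]
    exact 𝔮.smul_mem _ hX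
  | zero =>
    intro p
    have h2 : (fun i => ((0 : ι → Matrix (Fin n) (Fin n) ℂ) i).map p) = (0 : ι → Matrix (Fin n) (Fin n) ℚ) := by
      funext i
      ext a b
      simp
    rw [h2]
    exact 𝔮.zero_mem
  | add Z Z' _ _ ih ih' =>
    intro p
    have h2 : (fun i => ((Z + Z') i).map p) = (fun i => (Z i).map p) + fun i => (Z' i).map p := by
      funext i
      ext a b
      simp
    rw [h2]
    exact 𝔮.add_mem (ih p) (ih' p)
  | smul c Z _ ih =>
    intro p
    have h2 : (fun i => ((c • Z) i).map p) = fun i => (Z i).map (p ∘ₗ Pool.Agent.Y431.MT.mulc c) := by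
      funext i
      ext a b
      simp [Pool.Agent.Y431.MT.mulc]
    rw [h2]
    exact ih _

lemma mem_of_map {𝔮 : Submodule ℚ (ι → Matrix (Fin n) (Fin n) ℚ)} {z : ι → Matrix (Fin n) (Fin n) ℂ}
    (h : ∀ p : ℂ →ₗ[ℚ] ℚ, (fun i => (z i).map p) ∈ 𝔮) : z ∈ cxm 𝔮 := by
  classical
  let b : Module.Basis (Module.Basis.ofVectorSpaceIndex ℚ ℂ) ℚ ℂ := Module.Basis.ofVectorSpace ℚ ℂ
  let J : Finset (Module.Basis.ofVectorSpaceIndex ℚ ℂ) :=
    Finset.univ.biUnion fun i : ι => Finset.univ.biUnion fun a : Fin n =>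
      Finset.univ.biUnion fun a' : Fin n => (b.repr (z i a a')).support
  have hJ1 : ∀ i a a', (b.repr (z i a a')).support ⊆ J := by
    intro i a a' j hj
    exact Finset.mem_biUnion.2 ⟨i, Finset.mem_univ _, Finset.mem_biUnion.2 ⟨a, Finset.mem_univ _,
      Finset.mem_biUnion.2 ⟨a', Finset.mem_univ _, hj⟩⟩⟩
  have hsum : ∀ x : ℂ, (b.repr x).support ⊆ J →
      x = ∑ j ∈ J, b j * (algebraMap ℚ ℂ) (b.coord j x) := by
    intro z hz
    conv_lhs => rw [← b.linearCombination_repr z, Finsupp.linearCombination_apply,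
      Finsupp.sum_of_support_subset _ hz _ (fun _ _ => by simp)]
    refine Finset.sum_congr rfl fun j _ => ?_
    rw [Algebra.smul_def, mul_comm]
    rfl
  have hz : z = ∑ j ∈ J, b j • cx (fun i => (z i).map (b.coord j)) := by
    funext i
    ext a a'
    rw [Finset.sum_apply, Matrix.sum_apply]
    exact hsum _ (hJ1 i a a')
  rw [hz]
  exact Submodule.sum_mem _ fun j _ => Submodule.smul_mem _ _ (cx_mem (h _))

/-- the part in the symplectic Lie algebra, up to scalars, of a space of matrices -/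
def spart (A : Matrix (Fin n) (Fin n) ℚ) (𝔪 : Submodule ℚ (ι → Matrix (Fin n) (Fin n) ℚ)) :
    Submodule ℚ (ι → Matrix (Fin n) (Fin n) ℚ) where
  carrier := {X | (∀ i, X i * A + A * (X i)ᵀ = 0) ∧ ∃ c : ι → ℚ, (fun i => X i + c i • (1 : Matrix (Fin n) (Fin n) ℚ)) ∈ 𝔪}
  add_mem' := by
    rintro X Y ⟨hX, c, hc⟩ ⟨hY, d, hd⟩
    refine ⟨fun i => ?_, c + d, ?_⟩
    · rw [Pi.add_apply, Matrix.add_mul, Matrix.transpose_add, Matrix.mul_add, add_add_add_comm, hX, hY, add_zero]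
    · have h1 := 𝔪.add_mem hc hd
      convert h1 using 1
      funext i
      simp only [Pi.add_apply, add_smul]
      abel
  zero_mem' := ⟨fun i => by simp, 0, by
    have h1 : (fun i => (0 : ι → Matrix (Fin n) (Fin n) ℚ) i + (0 : ι → ℚ) i • (1 : Matrix (Fin n) (Fin n) ℚ)) = 0 := by
      funext i
      simp
    rw [h1]
    exact 𝔪.zero_mem⟩
  smul_mem' := by
    rintro a X ⟨hX, c, hc⟩
    refine ⟨fun i => ?_, a • c, ?_⟩
    · rw [Pi.smul_apply, Matrix.smul_mul, Matrix.transpose_smul, Matrix.mul_smul, ← smul_add, hX, smul_zero]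
    · have h1 := 𝔪.smul_mem a hc
      convert h1 using 1
      funext i
      simp only [Pi.smul_apply, smul_add, smul_smul, smul_eq_mul]

omit [Fintype ι] in
lemma spart_br {A : Matrix (Fin n) (Fin n) ℚ} {𝔪 : Submodule ℚ (ι → Matrix (Fin n) (Fin n) ℚ)}
    (hbr : ∀ X ∈ 𝔪, ∀ Y ∈ 𝔪, br X Y ∈ 𝔪) :
    ∀ X ∈ spart A 𝔪, ∀ Y ∈ spart A 𝔪, br X Y ∈ spart A 𝔪 ∧ br X Y ∈ 𝔪 := by
  rintro X ⟨hX, c, hc⟩ Y ⟨hY, d, hd⟩
  have h1 := hbr _ hc _ hd
  have h2 : br (fun i => X i + c i • (1 : Matrix (Fin n) (Fin n) ℚ)) (fun i => Y i + d i • (1 : Matrix (Fin n) (Fin n) ℚ)) =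
      br X Y := by
    funext i
    simp only [br, Matrix.add_mul, Matrix.mul_add, Matrix.smul_mul, Matrix.mul_smul, Matrix.one_mul, Matrix.mul_one]
    module
  rw [h2] at h1
  refine ⟨⟨fun i => ?_, 0, ?_⟩, h1⟩
  · have e1 : A * (X i)ᵀ = -(X i * A) := (neg_eq_of_add_eq_zero_right (hX i)).symm
    have e2 : A * (Y i)ᵀ = -(Y i * A) := (neg_eq_of_add_eq_zero_right (hY i)).symm
    simp only [br, Matrix.sub_mul, Matrix.transpose_sub, Matrix.transpose_mul, Matrix.mul_sub]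
    rw [← Matrix.mul_assoc A, ← Matrix.mul_assoc A, e1, e2, Matrix.neg_mul, Matrix.neg_mul, Matrix.mul_assoc (X i) A,
      Matrix.mul_assoc (Y i) A, e1, e2, Matrix.mul_neg, Matrix.mul_neg, neg_neg, neg_neg, ← Matrix.mul_assoc,
      ← Matrix.mul_assoc]
    abel
  · have h3 : (fun i => br X Y i + (0 : ι → ℚ) i • (1 : Matrix (Fin n) (Fin n) ℚ)) = br X Y := by
      funext i
      simp
    rw [h3]
    exact h1

lemma P0_mem {A : Matrix (Fin n) (Fin n) ℚ} {𝔪 : Submodule ℚ (ι → Matrix (Fin n) (Fin n) ℚ)}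
    {Φ : ι → Matrix (Fin n) (Fin n) ℂ} (hΦ : ∀ i, Hod A (Φ i)) (hmem : Φ ∈ cxm 𝔪) :
    (fun i => P0 (Φ i)) ∈ cxm (spart A 𝔪) := by
  refine mem_of_map fun p => ⟨fun i => ?_, fun _ => p (1 / 2), ?_⟩
  · have h1 := P0_sp (hΦ i)
    ext a b
    have h2 := congrArg p (congrFun (congrFun h1 a) b)
    have hp : ∀ (q : ℚ) (x : ℂ), p (x * (q : ℂ)) = p x * q := by
      intro q x
      rw [mul_comm, ← Rat.smul_def, map_smul, smul_eq_mul, mul_comm]
    have hp' : ∀ (q : ℚ) (x : ℂ), p ((q : ℂ) * x) = q * p x := by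
      intro q x
      rw [← Rat.smul_def, map_smul, smul_eq_mul]
    simp only [Matrix.add_apply, Matrix.mul_apply, Matrix.transpose_apply, cq, Matrix.map_apply, map_add, map_sum,
      Matrix.zero_apply, map_zero, hp, hp'] at h2 ⊢
    exact h2
  · have h1 := map_mem hmem p
    convert h1 using 1
    funext i
    ext a b
    simp only [P0, Matrix.add_apply, Matrix.map_apply, Matrix.sub_apply, Matrix.smul_apply, map_sub, smul_eq_mul]
    by_cases hab : a = b
    · subst hab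
      simp
    · simp [hab]

end Pool.Agent.Helper85K9.AH
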