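import Pool.Agent.Helper85K9.AH.CorB

/-!
# The Hodge structure of weight one which is defined by a matrix of periods
-/

set_option autoImplicit false

open Matrix
open scoped ComplexOrder

namespace Pool.Agent.Helper85K9.AH

open Pool.Agent.Y113.MT (cq)

variable {n : ℕ}

/-- `H 1`, `H 0` are the parts of a polarised Hodge structure of weight one -/
structure IsFib (P : Matrix (Fin n) (Fin n) ℂ) (A : Matrix (Fin n) (Fin n) ℚ) (H : ℕ → Submodule ℂ (Fin n → ℂ)) : Prop where
  hol : H 1 = Submodule.span ℂ {v | ∃ j : Fin n, 2 * (j : ℕ) < n ∧ v = Pᵀ j}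
  conj : ∀ v, v ∈ H 0 ↔ (fun i => star (v i)) ∈ H 1
  pos : ∃ ε : ℂ, (ε = 1 ∨ ε = -1) ∧ ∀ v ∈ H 1, v ≠ 0 →
    0 < (ε * Complex.I * (v ⬝ᵥ (cq A *ᵥ fun i => star (v i)))).re
  big : ∀ p, 2 ≤ p → H p = ⊥

/-- the type of a basis vector -/
def ph (n : ℕ) (l : Fin n) : ℕ := if 2 * (l : ℕ) < n then 1 else 0

/-- the adapted basis -/
noncomputable def BB (P : Matrix (Fin n) (Fin n) ℂ) : Matrix (Fin n) (Fin n) ℂ :=
  Matrix.of fun l => if 2 * (l : ℕ) < n then Pᵀ l else fun i => star (P i (Fin.rev l))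

lemma rev_lt (hn : Even n) (l : Fin n) : 2 * ((Fin.rev l : Fin n) : ℕ) < n ↔ ¬ 2 * (l : ℕ) < n := by
  obtain ⟨g, hg⟩ := hn
  have h := l.2
  rw [Fin.val_rev]
  omega

lemma BB_pos {P : Matrix (Fin n) (Fin n) ℂ} {l : Fin n} (h : 2 * (l : ℕ) < n) : BB P l = Pᵀ l := by
  unfold BB
  show (if 2 * (l : ℕ) < n then Pᵀ l else fun i => star (P i (Fin.rev l))) = _
  rw [if_pos h]

lemma BB_neg {P : Matrix (Fin n) (Fin n) ℂ} {l : Fin n} (h : ¬ 2 * (l : ℕ) < n) :
    BB P l = fun i => star (P i (Fin.rev l)) := by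
  unfold BB
  show (if 2 * (l : ℕ) < n then Pᵀ l else fun i => star (P i (Fin.rev l))) = _
  rw [if_neg h]

/-- conjugation -/
lemma BB_star (hn : Even n) (P : Matrix (Fin n) (Fin n) ℂ) (l : Fin n) : (fun i => star (BB P l i)) = BB P (Fin.rev l) := by
  by_cases h : 2 * (l : ℕ) < n
  · rw [BB_pos h, BB_neg ((rev_lt hn l).not.2 (not_not.2 h)), Fin.rev_rev]
    rfl
  · rw [BB_neg h, BB_pos ((rev_lt hn l).2 h)]
    funext i
    rw [star_star]
    rfl

lemma ph_rev (hn : Even n) (l : Fin n) : ph n (Fin.rev l) = 1 - ph n l := by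
  unfold ph
  by_cases h : 2 * (l : ℕ) < n
  · rw [if_pos h, if_neg ((rev_lt hn l).not.2 (not_not.2 h))]
  · rw [if_neg h, if_pos ((rev_lt hn l).2 h)]

lemma ph_le (l : Fin n) : ph n l ≤ 1 := by
  unfold ph
  split_ifs <;> omega

section
variable {P : Matrix (Fin n) (Fin n) ℂ} {A : Matrix (Fin n) (Fin n) ℚ} {H : ℕ → Submodule ℂ (Fin n → ℂ)}

lemma P_mem (h : IsFib P A H) {j : Fin n} (hj : 2 * (j : ℕ) < n) : Pᵀ j ∈ H 1 := by
  rw [h.hol]
  exact Submodule.subset_span ⟨j, hj, rfl⟩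

lemma BB_mem (hn : Even n) (h : IsFib P A H) (l : Fin n) : BB P l ∈ H (ph n l) := by
  unfold ph
  by_cases hl : 2 * (l : ℕ) < n
  · rw [if_pos hl, BB_pos hl]
    exact P_mem h hl
  · rw [if_neg hl, h.conj, BB_star hn, BB_pos ((rev_lt hn l).2 hl)]
    exact P_mem h ((rev_lt hn l).2 hl)

/-- isotropy -/
def Iso (P : Matrix (Fin n) (Fin n) ℂ) (A : Matrix (Fin n) (Fin n) ℚ) : Prop :=
  ∀ j j' : Fin n, 2 * (j : ℕ) < n → 2 * (j' : ℕ) < n → Pᵀ j ⬝ᵥ (cq A *ᵥ Pᵀ j') = 0

lemma iso1 (h : IsFib P A H) (hi : Iso P A) {v w : Fin n → ℂ} (hv : v ∈ H 1) (hw : w ∈ H 1) : v ⬝ᵥ (cq A *ᵥ w) = 0 := by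
  rw [h.hol] at hv hw
  induction hv using Submodule.span_induction with
  | mem v hv =>
    obtain ⟨j, hj, rfl⟩ := hv
    induction hw using Submodule.span_induction with
    | mem w hw =>
      obtain ⟨j', hj', rfl⟩ := hw
      exact hi j j' hj hj'
    | zero => rw [mulVec_zero, dotProduct_zero]
    | add x y _ _ hx hy => rw [mulVec_add, dotProduct_add, hx, hy, add_zero]
    | smul a x _ hx => rw [mulVec_smul, dotProduct_smul, hx, smul_zero]
  | zero => rw [zero_dotProduct]
  | add x y _ _ hx hy => rw [add_dotProduct, hx, hy, add_zero]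
  | smul a x _ hx => rw [smul_dotProduct, hx, smul_zero]

lemma form_star (v w : Fin n → ℂ) :
    star (v ⬝ᵥ (cq A *ᵥ w)) = (fun i => star (v i)) ⬝ᵥ (cq A *ᵥ fun i => star (w i)) := by
  simp only [dotProduct, mulVec, star_sum, star_mul', cq, Matrix.map_apply]
  refine Finset.sum_congr rfl fun i _ => ?_
  congr 1
  refine Finset.sum_congr rfl fun j _ => ?_
  congr 1
  simp

lemma form_skew (hA : Aᵀ = -A) (v w : Fin n → ℂ) : w ⬝ᵥ (cq A *ᵥ v) = -(v ⬝ᵥ (cq A *ᵥ w)) := fm_swap hA v w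

lemma iso0 (h : IsFib P A H) (hi : Iso P A) {v w : Fin n → ℂ} (hv : v ∈ H 0) (hw : w ∈ H 0) : v ⬝ᵥ (cq A *ᵥ w) = 0 := by
  have h1 := iso1 h hi ((h.conj v).1 hv) ((h.conj w).1 hw)
  rw [← form_star] at h1
  exact star_eq_zero.1 h1

lemma disj (h : IsFib P A H) (hi : Iso P A) {v : Fin n → ℂ} (h1 : v ∈ H 1) (h0 : v ∈ H 0) : v = 0 := by
  by_contra hv
  obtain ⟨ε, -, hpos⟩ := h.pos
  have h2 := hpos v h1 hv
  rw [iso1 h hi h1 ((h.conj v).1 h0), mul_zero, Complex.zero_re] at h2
  exact lt_irrefl _ h2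

lemma comb_mem (h : IsFib P A H) {c : Fin n → ℂ} (hc : ∀ l : Fin n, ¬ 2 * (l : ℕ) < n → c l = 0) : c ᵥ* Pᵀ ∈ H 1 := by
  rw [vecMul_eq_sum]
  refine Submodule.sum_mem _ fun l _ => ?_
  by_cases hl : 2 * (l : ℕ) < n
  · exact Submodule.smul_mem _ _ (P_mem h hl)
  · rw [hc l hl, zero_smul]
    exact Submodule.zero_mem _

lemma comb_zero (hP : P.det ≠ 0) {c : Fin n → ℂ} (hc : c ᵥ* Pᵀ = 0) : c = 0 := by
  by_contra h
  apply hP
  rw [← Matrix.det_transpose]
  exact Matrix.exists_vecMul_eq_zero_iff.1 ⟨c, h, hc⟩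

lemma BB_det (hn : Even n) (h : IsFib P A H) (hi : Iso P A) (hP : P.det ≠ 0) : (BB P).det ≠ 0 := by
  intro h0
  obtain ⟨c, hc0, hc⟩ := Matrix.exists_vecMul_eq_zero_iff.2 h0
  apply hc0
  set c1 : Fin n → ℂ := fun l => if 2 * (l : ℕ) < n then c l else 0 with hc1
  set c2 : Fin n → ℂ := fun l => if 2 * (l : ℕ) < n then star (c (Fin.rev l)) else 0 with hc2
  have m1 : c1 ᵥ* Pᵀ ∈ H 1 := comb_mem h fun l hl => by rw [hc1]; exact if_neg hl
  have m2 : c2 ᵥ* Pᵀ ∈ H 1 := comb_mem h fun l hl => by rw [hc2]; exact if_neg hl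
  have hsum : c1 ᵥ* Pᵀ + (fun i => star ((c2 ᵥ* Pᵀ) i)) = 0 := by
    rw [← hc]
    funext i
    simp only [Pi.add_apply, vecMul, dotProduct, star_sum, star_mul', Matrix.transpose_apply]
    rw [← Equiv.sum_comp Fin.revPerm (fun l => star (c2 l) * star (P i l)), ← Finset.sum_add_distrib]
    refine Finset.sum_congr rfl fun l _ => ?_
    rw [Fin.revPerm_apply]
    by_cases hl : 2 * (l : ℕ) < n
    · have hr := (rev_lt hn l).not.2 (not_not.2 hl)
      have e1 : c1 l = c l := if_pos hl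
      have e2 : c2 (Fin.rev l) = 0 := if_neg hr
      rw [e1, e2, star_zero, zero_mul, add_zero, BB_pos hl]
      rfl
    · have hr := (rev_lt hn l).2 hl
      have e1 : c1 l = 0 := if_neg hl
      have e2 : c2 (Fin.rev l) = star (c l) := by
        rw [hc2]
        show (if 2 * ((Fin.rev l : Fin n) : ℕ) < n then star (c (Fin.rev (Fin.rev l))) else 0) = _
        rw [if_pos hr, Fin.rev_rev]
      rw [e1, e2, star_star, zero_mul, zero_add, BB_neg hl]
  have m3 : c1 ᵥ* Pᵀ ∈ H 0 := by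
    rw [eq_neg_of_add_eq_zero_left hsum, h.conj]
    have e : (fun i => star ((-fun i => star ((c2 ᵥ* Pᵀ) i)) i)) = -(c2 ᵥ* Pᵀ) := by
      funext i
      simp
    rw [e]
    exact Submodule.neg_mem _ m2
  have h1 := disj h hi m1 m3
  rw [h1, zero_add] at hsum
  have h2 : c2 ᵥ* Pᵀ = 0 := by
    funext i
    have h3 := congrFun hsum i
    exact star_eq_zero.1 h3
  have e1 := comb_zero hP h1
  have e2 := comb_zero hP h2
  funext l
  by_cases hl : 2 * (l : ℕ) < n
  · have h3 := congrFun e1 l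
    rw [hc1] at h3
    simp only at h3
    rwa [if_pos hl] at h3
  · have h3 := congrFun e2 (Fin.rev l)
    rw [hc2] at h3
    simp only at h3
    rw [if_pos ((rev_lt hn l).2 hl), Fin.rev_rev] at h3
    exact star_eq_zero.1 h3

/-- the Hodge operator -/
noncomputable def PhiB (P : Matrix (Fin n) (Fin n) ℂ) : Matrix (Fin n) (Fin n) ℂ :=
  (BB P)⁻¹ * Matrix.diagonal (fun l => (ph n l : ℂ)) * BB P

lemma B_Phi (hB : (BB P).det ≠ 0) (l : Fin n) : BB P l ᵥ* PhiB P = (ph n l : ℂ) • BB P l := by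
  have h1 : BB P * PhiB P = Matrix.diagonal (fun l => (ph n l : ℂ)) * BB P := by
    unfold PhiB
    rw [← Matrix.mul_assoc, ← Matrix.mul_assoc, Matrix.mul_nonsing_inv _ (isUnit_iff_ne_zero.2 hB), Matrix.one_mul]
  have h2 := congrFun h1 l
  funext i
  have h3 := congrFun h2 i
  rw [Matrix.diagonal_mul] at h3
  exact h3

/-- two matrices which agree on the basis -/
lemma ext_B (hB : (BB P).det ≠ 0) {M N : Matrix (Fin n) (Fin n) ℂ} (h : ∀ l, BB P l ᵥ* M = BB P l ᵥ* N) : M = N := by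
  have h1 : BB P * M = BB P * N := by
    ext l i
    exact congrFun (h l) i
  have hu := isUnit_iff_ne_zero.2 hB
  calc M = (BB P)⁻¹ * (BB P * M) := by rw [← Matrix.mul_assoc, Matrix.nonsing_inv_mul _ hu, Matrix.one_mul]
    _ = (BB P)⁻¹ * (BB P * N) := by rw [h1]
    _ = N := by rw [← Matrix.mul_assoc, Matrix.nonsing_inv_mul _ hu, Matrix.one_mul]

lemma Phi_one (h : IsFib P A H) (hB : (BB P).det ≠ 0) {v : Fin n → ℂ} (hv : v ∈ H 1) : v ᵥ* PhiB P = v := by
  rw [h.hol] at hv
  induction hv using Submodule.span_induction with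
  | mem v hv =>
    obtain ⟨j, hj, rfl⟩ := hv
    have h1 := B_Phi hB j
    rw [BB_pos hj, ph, if_pos hj] at h1
    rw [h1]
    simp
  | zero => rw [zero_vecMul]
  | add x y _ _ hx hy => rw [add_vecMul, hx, hy]
  | smul a x _ hx => rw [smul_vecMul, hx]

lemma Phi_zero (hn : Even n) (h : IsFib P A H) (hB : (BB P).det ≠ 0) {v : Fin n → ℂ} (hv : v ∈ H 0) :
    v ᵥ* PhiB P = 0 := by
  have key : ∀ w ∈ H 1, (fun i => star (w i)) ᵥ* PhiB P = 0 := by
    intro w hw
    rw [h.hol] at hw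
    induction hw using Submodule.span_induction with
    | mem w hw =>
      obtain ⟨j, hj, rfl⟩ := hw
      have h1 := B_Phi hB (Fin.rev j)
      rw [← BB_star hn, BB_pos hj, ph, if_neg ((rev_lt hn j).not.2 (not_not.2 hj))] at h1
      rw [h1]
      simp
    | zero =>
      have e : (fun i => star ((0 : Fin n → ℂ) i)) = 0 := by
        funext i
        simp
      rw [e, zero_vecMul]
    | add x y _ _ hx hy =>
      have e : (fun i => star ((x + y) i)) = (fun i => star (x i)) + fun i => star (y i) := by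
        funext i
        simp
      rw [e, add_vecMul, hx, hy, add_zero]
    | smul a x _ hx =>
      have e : (fun i => star ((a • x) i)) = star a • fun i => star (x i) := by
        funext i
        simp
      rw [e, smul_vecMul, hx, smul_zero]
  have h1 := key _ ((h.conj v).1 hv)
  have e : (fun i => star ((fun i => star (v i)) i)) = v := by
    funext i
    simp
  rwa [e] at h1

/-- the Hodge operator acts by the type -/
lemma Phi_op (hn : Even n) (h : IsFib P A H) (hB : (BB P).det ≠ 0) (p : ℕ) {v : Fin n → ℂ} (hv : v ∈ H p) :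
    v ᵥ* PhiB P = (p : ℂ) • v := by
  rcases lt_or_ge p 2 with hp | hp
  · interval_cases p
    · rw [Phi_zero hn h hB hv]
      simp
    · rw [Phi_one h hB hv]
      simp
  · rw [h.big p hp, Submodule.mem_bot] at hv
    rw [hv, zero_vecMul, smul_zero]

/-- the coordinates in the adapted basis -/
lemma coord (hn : Even n) (h : IsFib P A H) (hB : (BB P).det ≠ 0) (p : ℕ) {v : Fin n → ℂ} (hv : v ∈ H p) (l : Fin n)
    (hl : ph n l ≠ p) : (v ᵥ* (BB P)⁻¹) l = 0 := by
  have h1 := Phi_op hn h hB p hv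
  have hu := isUnit_iff_ne_zero.2 hB
  have h2 := congrArg (fun x => x ᵥ* (BB P)⁻¹) h1
  simp only [PhiB, ← vecMul_vecMul, smul_vecMul] at h2
  rw [vecMul_vecMul _ (BB P) (BB P)⁻¹, Matrix.mul_nonsing_inv _ hu, vecMul_one] at h2
  have h3 := congrFun h2 l
  rw [vecMul_diagonal, Pi.smul_apply, smul_eq_mul] at h3
  have h4 : ((ph n l : ℂ) - (p : ℂ)) * (v ᵥ* (BB P)⁻¹) l = 0 := by linear_combination h3
  refine (mul_eq_zero.1 h4).resolve_left (sub_ne_zero.2 ?_)
  exact_mod_cast hl

/-- the form in the adapted basis -/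
lemma K_zero (hn : Even n) (h : IsFib P A H) (hi : Iso P A) {l l' : Fin n} (hl : ph n l + ph n l' ≠ 1) :
    BB P l ⬝ᵥ (cq A *ᵥ BB P l') = 0 := by
  have h1 := BB_mem hn h l
  have h2 := BB_mem hn h l'
  unfold ph at h1 h2 hl
  by_cases e1 : 2 * (l : ℕ) < n
  · by_cases e2 : 2 * (l' : ℕ) < n
    · rw [if_pos e1] at h1
      rw [if_pos e2] at h2
      exact iso1 h hi h1 h2
    · rw [if_pos e1, if_neg e2] at hl
      exact absurd rfl hl
  · by_cases e2 : 2 * (l' : ℕ) < n
    · rw [if_neg e1, if_pos e2] at hl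
      exact absurd rfl hl
    · rw [if_neg e1] at h1
      rw [if_neg e2] at h2
      exact iso0 h hi h1 h2

lemma BAB (l l' : Fin n) : (BB P * cq A * (BB P)ᵀ) l l' = BB P l ⬝ᵥ (cq A *ᵥ BB P l') := by
  rw [Matrix.mul_assoc, Matrix.mul_apply]
  simp only [dotProduct, mulVec, Matrix.mul_apply, Matrix.transpose_apply]

lemma PhiB_pol (hn : Even n) (h : IsFib P A H) (hi : Iso P A) (hB : (BB P).det ≠ 0) :
    PhiB P * cq A + cq A * (PhiB P)ᵀ = cq A := by
  have hu := isUnit_iff_ne_zero.2 hB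
  have h1 : BB P * PhiB P = Matrix.diagonal (fun l => (ph n l : ℂ)) * BB P := by
    ext l i
    rw [Matrix.diagonal_mul]
    exact congrFun (B_Phi hB l) i
  have h2 : BB P * (PhiB P * cq A + cq A * (PhiB P)ᵀ) * (BB P)ᵀ = BB P * cq A * (BB P)ᵀ := by
    have h3 : BB P * (PhiB P * cq A + cq A * (PhiB P)ᵀ) * (BB P)ᵀ =
        (BB P * PhiB P) * cq A * (BB P)ᵀ + BB P * cq A * (BB P * PhiB P)ᵀ := by
      rw [Matrix.transpose_mul]
      simp only [Matrix.mul_add, Matrix.add_mul, Matrix.mul_assoc]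
    rw [h3, h1, Matrix.transpose_mul, Matrix.diagonal_transpose]
    ext l l'
    rw [Matrix.add_apply]
    have e1 : (Matrix.diagonal (fun l => (ph n l : ℂ)) * BB P * cq A * (BB P)ᵀ) l l' =
        (ph n l : ℂ) * (BB P * cq A * (BB P)ᵀ) l l' := by
      rw [Matrix.mul_assoc, Matrix.mul_assoc, Matrix.diagonal_mul, Matrix.mul_assoc]
    have e2 : (BB P * cq A * ((BB P)ᵀ * Matrix.diagonal (fun l => (ph n l : ℂ)))) l l' =
        (BB P * cq A * (BB P)ᵀ) l l' * (ph n l' : ℂ) := by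
      rw [← Matrix.mul_assoc, Matrix.mul_diagonal]
    rw [e1, e2]
    by_cases hl : ph n l + ph n l' = 1
    · have h4 : (ph n l : ℂ) + (ph n l' : ℂ) = 1 := by exact_mod_cast hl
      linear_combination (BB P * cq A * (BB P)ᵀ) l l' * h4
    · rw [BAB, K_zero hn h hi hl]
      ring
  have hu' : IsUnit ((BB P)ᵀ).det := by rwa [Matrix.det_transpose]
  have h3 := congrArg (fun M => (BB P)⁻¹ * M * ((BB P)ᵀ)⁻¹) h2
  simp only [← Matrix.mul_assoc] at h3
  rw [Matrix.nonsing_inv_mul _ hu, Matrix.one_mul, Matrix.one_mul, Matrix.mul_assoc, Matrix.mul_nonsing_inv _ hu',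
    Matrix.mul_one, Matrix.mul_assoc, Matrix.mul_nonsing_inv _ hu', Matrix.mul_one] at h3
  exact h3

lemma PhiB_conj (hn : Even n) (hB : (BB P).det ≠ 0) : (PhiB P).map star = 1 - PhiB P := by
  refine ext_B hB fun l => ?_
  have h1 := B_Phi hB (Fin.rev l)
  have h2 : BB P l ᵥ* (PhiB P).map star = fun i => star ((BB P (Fin.rev l) ᵥ* PhiB P) i) := by
    funext i
    simp only [vecMul, dotProduct, Matrix.map_apply, star_sum, star_mul']
    refine Finset.sum_congr rfl fun j _ => ?_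
    rw [show star (BB P (Fin.rev l) j) = BB P l j from by
      have h3 := congrFun (BB_star hn P (Fin.rev l)) j
      rw [Fin.rev_rev] at h3
      exact h3]
  rw [h2, h1, vecMul_sub, vecMul_one, B_Phi hB, ph_rev hn]
  funext i
  have h4 : star (BB P (Fin.rev l) i) = BB P l i := by
    have h3 := congrFun (BB_star hn P (Fin.rev l)) i
    rw [Fin.rev_rev] at h3
    exact h3
  have h5 := ph_le l
  simp only [Pi.smul_apply, Pi.sub_apply, smul_eq_mul, star_mul', h4]
  rw [Nat.cast_sub h5, Nat.cast_one]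
  simp
  ring

lemma PhiB_hod (hn : Even n) (hA : Aᵀ = -A) (h : IsFib P A H) (hi : Iso P A) (hP : P.det ≠ 0) : Hod A (PhiB P) := by
  have hB := BB_det hn h hi hP
  have hu := isUnit_iff_ne_zero.2 hB
  have hconj := PhiB_conj hn hB
  have hpol := PhiB_pol hn h hi hB
  have hA' : (cq A)ᵀ = -cq A := by
    rw [← cq_tr, hA]
    ext i j
    simp [cq]
  have hidem : PhiB P * PhiB P = PhiB P := by
    refine ext_B hB fun l => ?_
    rw [← vecMul_vecMul, B_Phi hB, smul_vecMul, B_Phi hB, smul_smul]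
    congr 1
    unfold ph
    split_ifs <;> simp
  refine ⟨hidem, hpol, hconj, ?_⟩
  obtain ⟨ε, hε, hpos⟩ := h.pos
  have hεs : star ε = ε := by
    rcases hε with rfl | rfl <;> simp
  refine ⟨ε, hε, Matrix.PosDef.of_dotProduct_mulVec_pos ?_ ?_⟩
  · unfold Matrix.IsHermitian
    have e1 : (2 • PhiB P - 1)ᴴ = 1 - 2 • (PhiB P)ᵀ := by
      have e2 : (PhiB P)ᴴ = 1 - (PhiB P)ᵀ := by
        have e3 : (PhiB P)ᴴ = ((PhiB P).map star)ᵀ := rfl
        rw [e3, hconj, Matrix.transpose_sub, Matrix.transpose_one]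
      rw [Matrix.conjTranspose_sub, Matrix.conjTranspose_one, Matrix.conjTranspose_smul, e2]
      simp only [star_trivial]
      rw [smul_sub]
      module
    have e4 : (cq A)ᴴ = -cq A := by
      have e5 : (cq A)ᴴ = (cq A)ᵀ := by
        ext i j
        simp [cq]
      rw [e5, hA']
    rw [Matrix.conjTranspose_smul, Matrix.conjTranspose_mul, e1, e4, star_mul', hεs]
    have e6 : cq A * (PhiB P)ᵀ = cq A - PhiB P * cq A := eq_sub_of_add_eq' hpol
    have e7 : -cq A * (1 - 2 • (PhiB P)ᵀ) = -((2 • PhiB P - 1) * cq A) := by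
      rw [Matrix.neg_mul, Matrix.mul_sub, Matrix.mul_one, Matrix.mul_smul, e6, Matrix.sub_mul, Matrix.one_mul,
        Matrix.smul_mul]
      module
    rw [e7, smul_neg, ← neg_smul]
    congr 1
    simp
  · intro x hx
    -- decomposition
    set v : Fin n → ℂ := fun i => star (x i) with hv
    have hv0 : v ≠ 0 := by
      intro h0
      apply hx
      funext i
      exact star_eq_zero.1 (congrFun h0 i)
    set v1 := v ᵥ* PhiB P with hv1
    set v0 := v - v1 with hv0'
    have hdec : ∀ w : Fin n → ℂ, w ᵥ* PhiB P ∈ H 1 ∧ w - w ᵥ* PhiB P ∈ H 0 := by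
      intro w
      have h1 : w = (w ᵥ* (BB P)⁻¹) ᵥ* BB P := by
        rw [vecMul_vecMul, Matrix.nonsing_inv_mul _ hu, vecMul_one]
      set c := w ᵥ* (BB P)⁻¹ with hc
      have h2 : w = ∑ l, c l • BB P l := by rw [← vecMul_eq_sum]; exact h1
      have h3 : w ᵥ* PhiB P = ∑ l, c l • ((ph n l : ℂ) • BB P l) := by
        conv_lhs => rw [h2]
        rw [Matrix.sum_vecMul]
        refine Finset.sum_congr rfl fun l _ => ?_
        rw [smul_vecMul, B_Phi hB]
      constructor
      · rw [h3]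
        refine Submodule.sum_mem _ fun l _ => Submodule.smul_mem _ _ ?_
        have h4 := BB_mem hn h l
        unfold ph at h4 ⊢
        by_cases hl : 2 * (l : ℕ) < n
        · rw [if_pos hl] at h4
          exact Submodule.smul_mem _ _ h4
        · rw [if_neg hl]
          simp
      · have h5 : w - w ᵥ* PhiB P = ∑ l, c l • ((1 - (ph n l : ℂ)) • BB P l) := by
          rw [h3]
          conv_lhs => rw [h2]
          rw [← Finset.sum_sub_distrib]
          refine Finset.sum_congr rfl fun l _ => ?_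
          module
        rw [h5]
        refine Submodule.sum_mem _ fun l _ => Submodule.smul_mem _ _ ?_
        have h4 := BB_mem hn h l
        unfold ph at h4 ⊢
        by_cases hl : 2 * (l : ℕ) < n
        · rw [if_pos hl]
          simp
        · rw [if_neg hl] at h4
          exact Submodule.smul_mem _ _ h4
    have m1 : v1 ∈ H 1 := (hdec v).1
    have m0 : v0 ∈ H 0 := (hdec v).2
    set u : Fin n → ℂ := fun i => star (v0 i) with hu'
    have mu : u ∈ H 1 := (h.conj v0).1 m0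
    have hus : (fun i => star (u i)) = v0 := by
      funext i
      rw [hu']
      simp
    have mv1 : (fun i => star (v1 i)) ∈ H 0 := by
      rw [h.conj]
      have e : (fun i => star ((fun i => star (v1 i)) i)) = v1 := by
        funext i
        simp
      rw [e]
      exact m1
    have hx' : x = (fun i => star (v1 i)) + u := by
      funext i
      have e : v i = v1 i + v0 i := by
        rw [hv0']
        simp
      have e2 : x i = star (v i) := by
        rw [hv]
        simp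
      rw [e2, e, star_add]
      rfl
    have hval : star x ⬝ᵥ (((ε * Complex.I) • ((2 • PhiB P - 1) * cq A)) *ᵥ x) =
        ε * Complex.I * (v1 ⬝ᵥ (cq A *ᵥ fun i => star (v1 i))) + ε * Complex.I * (u ⬝ᵥ (cq A *ᵥ fun i => star (u i))) := by
      have e1 : star x = v := rfl
      rw [e1, smul_mulVec, dotProduct_smul, smul_eq_mul, ← mulVec_mulVec, dotProduct_mulVec]
      have e2 : v ᵥ* (2 • PhiB P - 1) = v1 - v0 := by
        rw [vecMul_sub, vecMul_one, hv0', hv1, two_smul, vecMul_add]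
        abel
      rw [e2, sub_dotProduct]
      have e3 : v1 ⬝ᵥ (cq A *ᵥ x) = v1 ⬝ᵥ (cq A *ᵥ fun i => star (v1 i)) := by
        rw [hx', mulVec_add, dotProduct_add, iso1 h hi m1 mu, add_zero]
      have e4 : v0 ⬝ᵥ (cq A *ᵥ x) = -(u ⬝ᵥ (cq A *ᵥ fun i => star (u i))) := by
        rw [hx', mulVec_add, dotProduct_add, iso0 h hi m0 mv1, zero_add, hus, form_skew hA]
      rw [e3, e4]
      ring
    rw [hval]
    have hreal : ∀ w : Fin n → ℂ, (ε * Complex.I * (w ⬝ᵥ (cq A *ᵥ fun i => star (w i)))).im = 0 := by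
      intro w
      have e1 : star (ε * Complex.I * (w ⬝ᵥ (cq A *ᵥ fun i => star (w i)))) =
          ε * Complex.I * (w ⬝ᵥ (cq A *ᵥ fun i => star (w i))) := by
        rw [star_mul', form_star, star_mul', hεs, form_skew hA]
        have e2 : (fun i => star ((fun i => star (w i)) i)) = w := by
          funext i
          simp
        rw [e2]
        have e3 : star Complex.I = -Complex.I := Complex.conj_I
        rw [e3]
        ring
      exact Complex.conj_eq_iff_im.1 e1
    have hnn : ∀ w ∈ H 1, 0 ≤ (ε * Complex.I * (w ⬝ᵥ (cq A *ᵥ fun i => star (w i)))).re := by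
      intro w hw
      by_cases h0 : w = 0
      · rw [h0]
        simp
      · exact (hpos w hw h0).le
    rw [Complex.pos_iff]
    refine ⟨?_, ?_⟩
    · rw [Complex.add_re]
      by_cases h1 : v1 = 0
      · have hu0 : u ≠ 0 := by
          intro h2
          apply hv0
          have h3 : v0 = 0 := by
            rw [← hus, h2]
            funext i
            simp
          have h4 : v = v1 + v0 := by
            rw [hv0']
            abel
          rw [h4, h1, h3, add_zero]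
        exact add_pos_of_nonneg_of_pos (hnn _ m1) (hpos u mu hu0)
      · exact add_pos_of_pos_of_nonneg (hpos v1 m1 h1) (hnn _ mu)
    · rw [Complex.add_im, hreal, hreal, add_zero]

/-- the holomorphic vectors -/
lemma PhiB_hol (hn : Even n) (h : IsFib P A H) (hi : Iso P A) (hB : (BB P).det ≠ 0) (c : Fin n) (hc : 2 * (c : ℕ) < n) :
    PhiB P *ᵥ (cq A * P)ᵀ c = 0 := by
  have h1 : (cq A * P)ᵀ c = cq A *ᵥ Pᵀ c := by
    funext i
    rw [Matrix.transpose_apply, Matrix.mul_apply]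
    rfl
  have h2 := Phi_one h hB (P_mem h hc)
  have h3 : PhiB P * cq A = cq A - cq A * (PhiB P)ᵀ := eq_sub_of_add_eq (PhiB_pol hn h hi hB)
  rw [h1, mulVec_mulVec, h3, sub_mulVec, ← mulVec_mulVec, mulVec_transpose, h2, sub_self]

end

end Pool.Agent.Helper85K9.AH
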