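import Pool.Agent.Helper85K9.AH.Rie2

/-!
# Riemann's relation for real hyperelliptic curves, end
-/

set_option autoImplicit false

open Matrix

namespace Pool.Agent.Helper85K9.AH

open Pool.Agent.Y113.MT (cq)
open Pool.Agent.Y118.HP

section
variable {n g : ℕ} (hg : n = 2 * g) {e : Fin (n + 1) → ℝ}

/-- the polynomial of a vector -/
noncomputable def pl (c : Fin g → ℝ) : Polynomial ℝ := ∑ k : Fin g, Polynomial.C (c k) * Polynomial.X ^ (k : ℕ)

lemma pl_deg (hg0 : 0 < g) (c : Fin g → ℝ) : (pl c).natDegree < g := by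
  have h1 : (pl c).natDegree ≤ g - 1 := Polynomial.natDegree_sum_le_of_forall_le _ _ fun k _ =>
    (Polynomial.natDegree_C_mul_X_pow_le _ _).trans (by have := k.2; omega)
  omega

lemma pl_zero {c : Fin g → ℝ} (h : pl c = 0) : c = 0 := by
  funext k
  have h1 := congrArg (fun p => p.coeff (k : ℕ)) h
  simp only [pl, Polynomial.finsetSum_coeff, Polynomial.coeff_C_mul_X_pow, Polynomial.coeff_zero] at h1
  rw [Finset.sum_eq_single k] at h1
  · rw [if_pos rfl] at h1
    exact h1
  · intro b _ hb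
    rw [if_neg fun h2 => hb (Fin.ext h2.symm)]
  · intro h2
    exact absurd (Finset.mem_univ _) h2

lemma aL_mono (e : Fin (n + 1) → ℝ) (l : Fin n) (a : ℝ) (k : ℕ) :
    aL e l (Polynomial.C a * Polynomial.X ^ k) = a * perT e l k := by
  unfold aL perT
  rw [← intervalIntegral.integral_const_mul]
  refine intervalIntegral.integral_congr fun θ _ => ?_
  simp only [Polynomial.eval_mul, Polynomial.eval_C, Polynomial.eval_pow, Polynomial.eval_X]
  ring

lemma aL_sum (he : StrictMono e) (l : Fin n) (s : Finset (Fin g)) (p : Fin g → Polynomial ℝ) :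
    aL e l (∑ k ∈ s, p k) = ∑ k ∈ s, aL e l (p k) := by
  unfold aL
  rw [← intervalIntegral.integral_finsetSum fun k _ => (aL_cont he l (p k)).intervalIntegrable _ _]
  refine intervalIntegral.integral_congr fun θ _ => ?_
  simp only [Polynomial.eval_finsetSum, Finset.sum_div, Finset.mul_sum]

/-- the integral over a gap as a functional of the coefficients -/
noncomputable def al (e : Fin (n + 1) → ℝ) (l : Fin n) : (Fin g → ℝ) →ₗ[ℝ] ℝ where
  toFun c := ∑ k : Fin g, c k * per e l (kp hg k)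
  map_add' c c' := by
    rw [← Finset.sum_add_distrib]
    refine Finset.sum_congr rfl fun k _ => ?_
    rw [Pi.add_apply, add_mul]
  map_smul' a c := by
    rw [smul_eq_mul, RingHom.id_apply, Finset.mul_sum]
    refine Finset.sum_congr rfl fun k _ => ?_
    rw [Pi.smul_apply, smul_eq_mul, mul_assoc]

lemma al_apply (e : Fin (n + 1) → ℝ) (l : Fin n) (c : Fin g → ℝ) : al hg e l c = ∑ k : Fin g, c k * per e l (kp hg k) := rfl

lemma al_eq (he : StrictMono e) (l : Fin n) (c : Fin g → ℝ) : al hg e l c = aL e l (pl c) := by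
  rw [al_apply, pl, aL_sum he]
  refine Finset.sum_congr rfl fun k _ => ?_
  rw [aL_mono, per_eq_perT he]
  rfl

/-- zeros, first form -/
lemma hZ (he : StrictMono e) (k : Fin g) (u : Fin g → ℝ) (h1 : ∀ i, i ≤ k → al hg e (ev hg i) u = 0)
    (h2 : ∀ j, k < j → al hg e (od hg j) u = 0) : u = 0 := by
  classical
  apply pl_zero
  let l : Fin g → Fin n := fun i => if i ≤ k then ev hg i else od hg i
  have hl : ∀ i : Fin g, 2 * (i : ℕ) ≤ (l i : ℕ) ∧ (l i : ℕ) ≤ 2 * (i : ℕ) + 1 := by
    intro i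
    show 2 * (i : ℕ) ≤ ((if i ≤ k then ev hg i else od hg i : Fin n) : ℕ) ∧
      ((if i ≤ k then ev hg i else od hg i : Fin n) : ℕ) ≤ 2 * (i : ℕ) + 1
    split_ifs
    · show 2 * (i : ℕ) ≤ 2 * (i : ℕ) ∧ 2 * (i : ℕ) ≤ 2 * (i : ℕ) + 1
      omega
    · show 2 * (i : ℕ) ≤ 2 * (i : ℕ) + 1 ∧ 2 * (i : ℕ) + 1 ≤ 2 * (i : ℕ) + 1
      omega
  refine roots_zero he (pl_deg (by have := k.2; omega) u) (fun i => (l i).castSucc) (fun i => (l i).succ) (fun i i' hii => ?_)
    (fun i => ?_)
  · rw [Fin.le_def, Fin.val_succ, Fin.val_castSucc]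
    have h3 := (hl i).2
    have h4 := (hl i').1
    have h5 : (i : ℕ) < i' := hii
    omega
  · apply aL_root he
    rw [← al_eq hg he]
    show al hg e (if i ≤ k then ev hg i else od hg i) u = 0
    split_ifs with h
    · exact h1 i h
    · exact h2 i (not_le.1 h)

/-- zeros, second form -/
lemma hP (he : StrictMono e) (k : Fin g) (u : Fin g → ℝ) (hu : u ≠ 0) (h1 : ∀ i, i < k → al hg e (ev hg i) u = 0)
    (h2 : ∀ j, k < j → al hg e (od hg j) u = 0) : 0 < al hg e (ev hg k) u * al hg e (od hg k) u := by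
  classical
  have hno : ∀ x ∈ Set.Ioo (e (ev hg k).castSucc) (e (od hg k).succ), (pl u).eval x ≠ 0 := by
    intro x hx hx0
    apply hu
    apply pl_zero
    refine roots_zero he (pl_deg (by have := k.2; omega) u)
      (fun i => if i ≤ k then (ev hg i).castSucc else (od hg i).castSucc)
      (fun i => if i < k then (ev hg i).succ else (od hg i).succ) (fun i i' hii => ?_) (fun i => ?_)
    · have h5 : (i : ℕ) < i' := hii
      have e1 : (((if i < k then (ev hg i).succ else (od hg i).succ : Fin (n + 1))) : ℕ) ≤ 2 * (i : ℕ) + 2 := by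
        split_ifs
        · show 2 * (i : ℕ) + 1 ≤ 2 * (i : ℕ) + 2
          omega
        · show 2 * (i : ℕ) + 1 + 1 ≤ 2 * (i : ℕ) + 2
          omega
      have e2 : 2 * (i' : ℕ) ≤ (((if i' ≤ k then (ev hg i').castSucc else (od hg i').castSucc : Fin (n + 1))) : ℕ) := by
        split_ifs
        · show 2 * (i' : ℕ) ≤ 2 * (i' : ℕ)
          omega
        · show 2 * (i' : ℕ) ≤ 2 * (i' : ℕ) + 1
          omega
      rw [Fin.le_def]
      omega
    · rcases lt_trichotomy i k with h | h | h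
      · rw [if_pos h.le, if_pos h]
        exact aL_root he _ (by rw [← al_eq hg he]; exact h1 i h)
      · subst h
        rw [if_pos le_rfl, if_neg (lt_irrefl _)]
        exact ⟨x, hx, hx0⟩
      · rw [if_neg (not_le.2 h), if_neg (not_lt.2 h.le)]
        exact aL_root he _ (by rw [← al_eq hg he]; exact h2 i h)
  have hle1 : e (ev hg k).succ ≤ e (od hg k).succ := he.monotone (by
    rw [Fin.le_def]
    show 2 * (k : ℕ) + 1 ≤ 2 * (k : ℕ) + 1 + 1
    omega)
  have hle2 : e (ev hg k).castSucc ≤ e (od hg k).castSucc := he.monotone (by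
    rw [Fin.le_def]
    show 2 * (k : ℕ) ≤ 2 * (k : ℕ) + 1
    omega)
  rw [al_eq hg he, al_eq hg he]
  rcases sign_const hno with h | h
  · exact mul_pos (aL_pos he _ fun x hx => h x ⟨hx.1, hx.2.trans_le hle1⟩)
      (aL_pos he _ fun x hx => h x ⟨hle2.trans_lt hx.1, hx.2⟩)
  · exact mul_pos_of_neg_of_neg (aL_neg he _ fun x hx => h x ⟨hx.1, hx.2.trans_le hle1⟩)
      (aL_neg he _ fun x hx => h x ⟨hle2.trans_lt hx.1, hx.2⟩)

lemma dl_ev (i : Fin g) : dl (ev hg i) = 2 := by
  unfold dl
  rw [if_pos (show Even ((ev hg i : Fin n) : ℕ) from ⟨i, by show 2 * (i : ℕ) = i + i; ring⟩)]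
  simp

lemma dl_od (i : Fin g) : dl (od hg i) = -2 * Complex.I := by
  unfold dl
  rw [if_neg (show ¬ Even ((od hg i : Fin n) : ℕ) from by
    rw [Nat.not_even_iff_odd]
    exact ⟨i, rfl⟩), pow_succ, Complex.I_sq]
  ring

/-- real combinations of the holomorphic forms -/
noncomputable def xv (e : Fin (n + 1) → ℝ) (p : Fin g → ℝ) : Fin n → ℂ := fun l => dl l * ((al hg e l p : ℝ) : ℂ)

lemma xv_eq (he : StrictMono e) (p : Fin g → ℝ) :
    xv hg e p = ∑ k : Fin g, (p k : ℂ) • (Matrix.of (cper e))ᵀ (kp hg k) := by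
  have hn : Even n := ⟨g, by omega⟩
  funext l
  unfold xv
  rw [Finset.sum_apply, al_apply, Complex.ofReal_sum, Finset.mul_sum]
  refine Finset.sum_congr rfl fun k _ => ?_
  rw [Pi.smul_apply, Matrix.transpose_apply, Matrix.of_apply, cper_eq hn he, smul_eq_mul]
  push_cast
  ring

lemma xv_iso (he : StrictMono e) (hi : Iso (Matrix.of (cper e)) (AA n)) (p q : Fin g → ℝ) :
    xv hg e p ⬝ᵥ (cq (AA n) *ᵥ xv hg e q) = 0 := by
  rw [xv_eq hg he, xv_eq hg he, Matrix.mulVec_sum, sum_dotProduct]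
  refine Finset.sum_eq_zero fun k _ => ?_
  rw [dotProduct_sum]
  refine Finset.sum_eq_zero fun k' _ => ?_
  rw [mulVec_smul, dotProduct_smul, smul_dotProduct, hi (kp hg k) (kp hg k')
    (by show 2 * (k : ℕ) < n; have := k.2; omega) (by show 2 * (k' : ℕ) < n; have := k'.2; omega), smul_zero, smul_zero]

/-- the symmetry of the form -/
lemma hS (he : StrictMono e) (hi : Iso (Matrix.of (cper e)) (AA n)) (p q : Fin g → ℝ) :
    BF (fun i => al hg e (ev hg i)) (fun i => al hg e (od hg i)) p q =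
      BF (fun i => al hg e (ev hg i)) (fun i => al hg e (od hg i)) q p := by
  have h1 := xv_iso hg he hi p q
  rw [form_eo hg] at h1
  have h2 : (∑ i : Fin g, ∑ j : Fin g, if i ≤ j then (-1) ^ ((i : ℕ) + (j : ℕ)) *
      ((1 / 2) * (xv hg e p (od hg j) * xv hg e q (ev hg i) - xv hg e p (ev hg i) * xv hg e q (od hg j))) else (0 : ℂ)) =
      2 * Complex.I * (((BF (fun i => al hg e (ev hg i)) (fun i => al hg e (od hg i)) p q -
        BF (fun i => al hg e (ev hg i)) (fun i => al hg e (od hg i)) q p : ℝ)) : ℂ) := by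
    unfold BF
    rw [← Finset.sum_sub_distrib, Complex.ofReal_sum, Finset.mul_sum]
    refine Finset.sum_congr rfl fun i _ => ?_
    rw [← Finset.sum_sub_distrib, Complex.ofReal_sum, Finset.mul_sum]
    refine Finset.sum_congr rfl fun j _ => ?_
    split_ifs
    · unfold xv
      rw [dl_ev, dl_od]
      push_cast
      ring
    · simp
  rw [h2] at h1
  have h3 : (2 : ℂ) * Complex.I ≠ 0 := mul_ne_zero two_ne_zero Complex.I_ne_zero
  have h4 := (mul_eq_zero.1 h1).resolve_left h3
  have h5 : BF (fun i => al hg e (ev hg i)) (fun i => al hg e (od hg i)) p q -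
      BF (fun i => al hg e (ev hg i)) (fun i => al hg e (od hg i)) q p = 0 := by exact_mod_cast h4
  linarith

/-- positivity on the real combinations -/
lemma BF_pos (he : StrictMono e) (hi : Iso (Matrix.of (cper e)) (AA n)) (p : Fin g → ℝ) (hp : p ≠ 0) :
    0 < BF (fun i => al hg e (ev hg i)) (fun i => al hg e (od hg i)) p p :=
  pos_form _ _ (hS hg he hi) (hZ hg he) (hP hg he) p hp

/-- the vector of a combination -/
lemma comb_xv (he : StrictMono e) {c : Fin n → ℂ} (hc : ∀ l : Fin n, ¬ 2 * (l : ℕ) < n → c l = 0) :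
    c ᵥ* (Matrix.of (cper e))ᵀ = xv hg e (fun k => (c (kp hg k)).re) + Complex.I • xv hg e (fun k => (c (kp hg k)).im) := by
  rw [vecMul_eq_sum, xv_eq hg he, xv_eq hg he, Finset.smul_sum, ← Finset.sum_add_distrib]
  symm
  refine Fintype.sum_of_injective (kp hg) (fun a b hab => ?_) _ _ (fun j hj => ?_) (fun k => ?_)
  · have h1 := congrArg Fin.val hab
    exact Fin.ext h1
  · rw [hc j (fun h => hj ⟨⟨(j : ℕ), by omega⟩, rfl⟩), zero_smul]
  · rw [smul_smul, ← add_smul]
    congr 1
    rw [mul_comm]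
    exact Complex.re_add_im _

include hg in
/-- **Riemann's relation** -/
theorem riemann (he : StrictMono e) (hi : Iso (Matrix.of (cper e)) (AA n)) {c : Fin n → ℂ}
    (hc : ∀ l : Fin n, ¬ 2 * (l : ℕ) < n → c l = 0) (hc0 : c ≠ 0) :
    0 < (Complex.I * ((c ᵥ* (Matrix.of (cper e))ᵀ) ⬝ᵥ
      (cq (AA n) *ᵥ fun i => star ((c ᵥ* (Matrix.of (cper e))ᵀ) i)))).re := by
  set p : Fin g → ℝ := fun k => (c (kp hg k)).re with hp
  set q : Fin g → ℝ := fun k => (c (kp hg k)).im with hq
  rw [comb_xv hg he hc, form_eo hg]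
  have h2 : Complex.I * (∑ i : Fin g, ∑ j : Fin g, if i ≤ j then (-1) ^ ((i : ℕ) + (j : ℕ)) *
      ((1 / 2) * ((xv hg e p + Complex.I • xv hg e q) (od hg j) * star ((xv hg e p + Complex.I • xv hg e q) (ev hg i)) -
        (xv hg e p + Complex.I • xv hg e q) (ev hg i) * star ((xv hg e p + Complex.I • xv hg e q) (od hg j)))) else (0 : ℂ)) =
      ((4 * (BF (fun i => al hg e (ev hg i)) (fun i => al hg e (od hg i)) p p +
        BF (fun i => al hg e (ev hg i)) (fun i => al hg e (od hg i)) q q) : ℝ) : ℂ) := by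
    unfold BF
    rw [← Finset.sum_add_distrib, Finset.mul_sum, Finset.mul_sum, Complex.ofReal_sum]
    refine Finset.sum_congr rfl fun i _ => ?_
    rw [← Finset.sum_add_distrib, Finset.mul_sum, Finset.mul_sum, Complex.ofReal_sum]
    refine Finset.sum_congr rfl fun j _ => ?_
    split_ifs
    · simp only [Pi.add_apply, Pi.smul_apply, smul_eq_mul, xv, dl_ev, dl_od, star_add, star_mul', star_neg, Complex.star_def,
        Complex.conj_ofReal, Complex.conj_I, map_ofNat]
      push_cast
      linear_combination (-1 : ℂ) ^ ((i : ℕ) + (j : ℕ)) * (-4 * (((al hg e (ev hg i)) p : ℝ) : ℂ) * (((al hg e (od hg j)) p : ℝ) : ℂ) -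
        4 * (((al hg e (ev hg i)) q : ℝ) : ℂ) * (((al hg e (od hg j)) q : ℝ) : ℂ) +
        4 * Complex.I ^ 2 * (((al hg e (ev hg i)) q : ℝ) : ℂ) * (((al hg e (od hg j)) q : ℝ) : ℂ)) * Complex.I_sq
    · simp
  rw [h2, Complex.ofReal_re]
  have hnn : ∀ r : Fin g → ℝ, 0 ≤ BF (fun i => al hg e (ev hg i)) (fun i => al hg e (od hg i)) r r := by
    intro r
    by_cases h0 : r = 0
    · rw [h0]
      unfold BF
      refine Finset.sum_nonneg fun i _ => Finset.sum_nonneg fun j _ => ?_
      split_ifs <;> simp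
    · exact (BF_pos hg he hi r h0).le
  by_cases h0 : p = 0
  · have hq0 : q ≠ 0 := by
      intro hq0
      apply hc0
      funext j
      by_cases hj : 2 * (j : ℕ) < n
      · have e1 := congrFun h0 ⟨(j : ℕ), by omega⟩
        have e2 := congrFun hq0 ⟨(j : ℕ), by omega⟩
        exact Complex.ext e1 e2
      · exact hc j hj
    have := BF_pos hg he hi q hq0
    have := hnn p
    linarith
  · have := BF_pos hg he hi p h0
    have := hnn q
    linarith

end

end Pool.Agent.Helper85K9.AH
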