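import Pool.Agent.Helper85K9.AH.Main
import Pool.Agent.Helper85K9.AH.Rie3

/-!
# The Hodge structures of the fibres are polarised
-/

set_option autoImplicit false

open Matrix

namespace Pool.Agent.Helper85K9.AH

open Pool.Agent.Y113.MT (cq)
open Pool.Agent.Y118.HP

variable {n : ℕ}

/-- the parts of the Hodge structure of a matrix of periods -/
noncomputable def hdg (P : Matrix (Fin n) (Fin n) ℂ) (p : Fin 2) : Submodule ℂ (Fin n → ℂ) :=
  Submodule.span ℂ {v | ∃ j : Fin n, 2 * (j : ℕ) < n ∧ v = fun l => if p = 1 then P l j else star (P l j)}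

/-- the parts as functions of natural numbers -/
noncomputable def hdx (P : Matrix (Fin n) (Fin n) ℂ) (p : ℕ) : Submodule ℂ (Fin n → ℂ) :=
  if h : p < 2 then hdg P ⟨p, h⟩ else ⊥

lemma hdg_one (P : Matrix (Fin n) (Fin n) ℂ) :
    hdg P 1 = Submodule.span ℂ {v | ∃ j : Fin n, 2 * (j : ℕ) < n ∧ v = Pᵀ j} := by
  unfold hdg
  congr 1

lemma hdg_zero (P : Matrix (Fin n) (Fin n) ℂ) :
    hdg P 0 = Submodule.span ℂ {v | ∃ j : Fin n, 2 * (j : ℕ) < n ∧ v = fun l => star (P l j)} := by
  unfold hdg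
  congr 1

lemma star_fun_add (v w : Fin n → ℂ) : (fun i => star ((v + w) i)) = (fun i => star (v i)) + fun i => star (w i) := by
  funext i
  simp

lemma star_fun_smul (a : ℂ) (v : Fin n → ℂ) : (fun i => star ((a • v) i)) = star a • fun i => star (v i) := by
  funext i
  simp

lemma star_fun_zero : (fun i => star ((0 : Fin n → ℂ) i)) = 0 := by
  funext i
  simp

lemma hdg_star (P : Matrix (Fin n) (Fin n) ℂ) (v : Fin n → ℂ) : v ∈ hdg P 0 ↔ (fun i => star (v i)) ∈ hdg P 1 := by
  have h1 : ∀ v ∈ hdg P 0, (fun i => star (v i)) ∈ hdg P 1 := by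
    intro v hv
    rw [hdg_zero] at hv
    rw [hdg_one]
    induction hv using Submodule.span_induction with
    | mem v hv =>
      obtain ⟨j, hj, rfl⟩ := hv
      refine Submodule.subset_span ⟨j, hj, ?_⟩
      funext i
      rw [star_star]
      rfl
    | zero =>
      rw [star_fun_zero]
      exact Submodule.zero_mem _
    | add x y _ _ hx hy =>
      rw [star_fun_add]
      exact Submodule.add_mem _ hx hy
    | smul a x _ hx =>
      rw [star_fun_smul]
      exact Submodule.smul_mem _ _ hx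
  have h2 : ∀ v ∈ hdg P 1, (fun i => star (v i)) ∈ hdg P 0 := by
    intro v hv
    rw [hdg_one] at hv
    rw [hdg_zero]
    induction hv using Submodule.span_induction with
    | mem v hv =>
      obtain ⟨j, hj, rfl⟩ := hv
      exact Submodule.subset_span ⟨j, hj, rfl⟩
    | zero =>
      rw [star_fun_zero]
      exact Submodule.zero_mem _
    | add x y _ _ hx hy =>
      rw [star_fun_add]
      exact Submodule.add_mem _ hx hy
    | smul a x _ hx =>
      rw [star_fun_smul]
      exact Submodule.smul_mem _ _ hx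
  refine ⟨h1 v, fun h => ?_⟩
  have h3 := h2 _ h
  have e : (fun i => star ((fun i => star (v i)) i)) = v := by
    funext i
    simp
  rwa [e] at h3

lemma hdg_comb (P : Matrix (Fin n) (Fin n) ℂ) {v : Fin n → ℂ} (hv : v ∈ hdg P 1) :
    ∃ c : Fin n → ℂ, (∀ l : Fin n, ¬ 2 * (l : ℕ) < n → c l = 0) ∧ v = c ᵥ* Pᵀ := by
  rw [hdg_one] at hv
  induction hv using Submodule.span_induction with
  | mem v hv =>
    obtain ⟨j, hj, rfl⟩ := hv
    refine ⟨Pi.single j 1, fun l hl => ?_, ?_⟩
    · rw [Pi.single_eq_of_ne]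
      rintro rfl
      exact hl hj
    · rw [single_one_vecMul]
      rfl
  | zero => exact ⟨0, fun _ _ => rfl, by rw [zero_vecMul]⟩
  | add x y _ _ hx hy =>
    obtain ⟨c, hc, rfl⟩ := hx
    obtain ⟨d, hd, rfl⟩ := hy
    exact ⟨c + d, fun l hl => by rw [Pi.add_apply, hc l hl, hd l hl, add_zero], by rw [add_vecMul]⟩
  | smul a x _ hx =>
    obtain ⟨c, hc, rfl⟩ := hx
    exact ⟨a • c, fun l hl => by rw [Pi.smul_apply, hc l hl, smul_zero], by rw [smul_vecMul]⟩

/-- **the Hodge structure of a fibre is polarised** -/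
theorem isFib (hn : Even n) {e : Fin (n + 1) → ℝ} (he : StrictMono e) (hi : Iso (Matrix.of (cper e)) (AA n)) :
    IsFib (Matrix.of (cper e)) (AA n) (hdx (Matrix.of (cper e))) := by
  obtain ⟨g, hg⟩ := hn
  have h1 : hdx (Matrix.of (cper e)) 1 = hdg (Matrix.of (cper e)) 1 := dif_pos (by norm_num)
  have h0 : hdx (Matrix.of (cper e)) 0 = hdg (Matrix.of (cper e)) 0 := dif_pos (by norm_num)
  refine ⟨?_, ?_, ⟨1, Or.inl rfl, ?_⟩, fun p hp => dif_neg (by omega)⟩
  · rw [h1, hdg_one]
  · rw [h1, h0]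
    exact hdg_star _
  · rw [h1]
    intro v hv hv0
    obtain ⟨c, hc, rfl⟩ := hdg_comb _ hv
    have hc0 : c ≠ 0 := by
      rintro rfl
      apply hv0
      rw [zero_vecMul]
    rw [one_mul]
    exact riemann (show n = 2 * g by omega) he hi hc hc0

/-- the fibre at `1 / t` -/
theorem isFib_PT (hn : Even n) {a : Fin n → ℝ} {f : Polynomial ℚ}
    (hf : f.map (algebraMap ℚ ℝ) = ∏ i, (Polynomial.X - Polynomial.C (a i))) {m : Fin (n + 1)} {t : ℕ}
    (ht : StrictMono (er a m (1 / (t : ℝ)))) : IsFib (PT a m t) (AA n) (hdx (PT a m t)) :=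
  isFib hn ht (tor_iso hn two_pi_ne (PT_tor hn hf ht) (deg_F hf _).1 (deg_F hf _).2)

end Pool.Agent.Helper85K9.AH
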