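import Pool.Agent.Helper85K9.AH.Tens
import Pool.Agent.Y730.MT.Cnt
import Pool.Agent.Y889.MT.Ctk

/-!
# Windows and almost all tuples
-/

set_option autoImplicit false

open Matrix

namespace Pool.Agent.Helper85K9.AH

open Pool.Agent.Y113.MT (cq TW)
open Pool.Agent.Y118.HP Pool.Agent.Y118.HG
open Polynomial (X C)

variable {n : ℕ}

/-- there is a Hodge structure, and it is not independent of `ΨW` -/
def Bd (a : Fin n → ℝ) (m : Fin (n + 1)) {N : ℕ} (ΨW : Matrix (Fin N) (Fin N) ℂ) (t : ℕ) : Prop :=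
  (∃ Hh : ℕ → Submodule ℂ (Fin n → ℂ), IsFib (PT a m t) (AA n) Hh) ∧ Bad (AA n) (PhiB (PT a m t)) ΨW

lemma W_uniq {N : ℕ} {U : ℤ → Submodule ℂ (Fin N → ℂ)} (hU : DirectSum.IsInternal U) {ΦW ΨW : Matrix (Fin N) (Fin N) ℂ}
    (hΦW : ∀ p, ∀ z ∈ U p, z ᵥ* ΦW = (p : ℂ) • z) (hΨW : ∀ p, ∀ z ∈ U p, z ᵥ* ΨW = (p : ℂ) • z) : ΦW = ΨW := by
  let K : Submodule ℂ (Fin N → ℂ) :=
    { carrier := {z | z ᵥ* ΦW = z ᵥ* ΨW}
      add_mem' := fun {a b} ha hb => by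
        show (a + b) ᵥ* ΦW = (a + b) ᵥ* ΨW
        rw [add_vecMul, add_vecMul, show a ᵥ* ΦW = a ᵥ* ΨW from ha, show b ᵥ* ΦW = b ᵥ* ΨW from hb]
      zero_mem' := by
        show (0 : Fin N → ℂ) ᵥ* ΦW = 0 ᵥ* ΨW
        rw [zero_vecMul, zero_vecMul]
      smul_mem' := fun c a ha => by
        show (c • a) ᵥ* ΦW = (c • a) ᵥ* ΨW
        rw [smul_vecMul, smul_vecMul, show a ᵥ* ΦW = a ᵥ* ΨW from ha] }
  have hK : K = ⊤ := by
    rw [eq_top_iff, ← hU.submodule_iSup_eq_top]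
    refine iSup_le fun p z hz => ?_
    show z ᵥ* ΦW = z ᵥ* ΨW
    rw [hΦW p z hz, hΨW p z hz]
  ext i j
  have h3 : (Pi.single i (1 : ℂ) : Fin N → ℂ) ∈ K := hK ▸ Submodule.mem_top
  have h4 := congrFun (show Pi.single i (1 : ℂ) ᵥ* ΦW = Pi.single i (1 : ℂ) ᵥ* ΨW from h3) j
  rwa [single_one_vecMul, single_one_vecMul] at h4

/-- the bad fibres of a window -/
lemma bad_win {a : Fin n → ℝ} {m : Fin (n + 1)} (hn : Even n) {G H t : ℕ} {S : Finset ℕ}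
    (h : ∀ (k : ℕ) (u : Fin k → ℕ), Function.Injective u → (∀ j, 1 ≤ u j ∧ u j ≤ H ∧ u j ∉ S) →
      ∀ Hh : Fin k → ℕ → Submodule ℂ (Fin n → ℂ), (∀ i, IsFib (PT a m (t - G * u i)) (AA n) (Hh i)) →
      Lie (AA n) (fun i => PhiB (PT a m (t - G * u i)))) {N : ℕ} (ΨW : Matrix (Fin N) (Fin N) ℂ) (S' : Finset ℕ)
    (hS' : ∀ u ∈ S', 1 ≤ u ∧ u ≤ H ∧ u ∉ S ∧ Bd a m ΨW (t - G * u)) : S'.card * (n + 1).choose 2 ≤ N ^ 2 := by
  have hmem : ∀ i : Fin S'.card, 1 ≤ S'.orderEmbOfFin rfl i ∧ S'.orderEmbOfFin rfl i ≤ H ∧ S'.orderEmbOfFin rfl i ∉ S ∧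
      Bd a m ΨW (t - G * S'.orderEmbOfFin rfl i) := fun i => hS' _ (Finset.orderEmbOfFin_mem S' rfl i)
  choose Hh hHh using fun i => (hmem i).2.2.2.1
  exact bad_card (AA_skew hn) (AA_det hn) (h S'.card (fun i => S'.orderEmbOfFin rfl i)
    (fun i j h => (S'.orderEmbOfFin rfl).injective h) (fun i => ⟨(hmem i).1, (hmem i).2.1, (hmem i).2.2.1⟩) Hh hHh) ΨW
    (fun i => (hmem i).2.2.2.2)

/-- **windows** -/
theorem windows (hn : Even n) (hn0 : 0 < n) (a : Fin n → ℝ) (f : Polynomial ℚ)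
    (hf : f.map (algebraMap ℚ ℝ) = ∏ i, (X - C (a i))) (m : Fin (n + 1)) (h0 : StrictMono (er a m 0)) :
    ∃ G0 : ℕ, ∀ G : ℕ, G0 ≤ G → ∃ E : ℕ, ∀ H t : ℕ, (H + 2) ^ E ≤ t →
      (∀ u : ℕ, u ≤ H → G * u < t ∧ StrictMono (er a m (1 / ((t - G * u : ℕ) : ℝ)))) ∧
      ∃ S : Finset ℕ,
        (S.card : Cardinal) ≤ Algebra.trdeg ℚ (IntermediateField.adjoin ℚ (Set.range
          (pt (fun _ : Fin 1 => Matrix.of (cper (er a m 0))) (2 * Real.pi * Complex.I)))) ∧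
        2 * S.card ≤ n * (n + 1) + 2 ∧
        ∀ (N : ℕ) (U : ℤ → Submodule ℂ (Fin N → ℂ)), DirectSum.IsInternal U →
        ∃ S' : Finset ℕ, S'.card * (n * (n + 1) / 2) ≤ N ^ 2 ∧
        ∀ (k : ℕ) (u : Fin k → ℕ), Function.Injective u → (∀ j, 1 ≤ u j ∧ u j ≤ H ∧ u j ∉ S ∧ u j ∉ S') →
          ∀ Hh : Fin k → ℕ → Submodule ℂ (Fin n → ℂ), (∀ i, IsFib (PT a m (t - G * u i)) (AA n) (Hh i)) →
          TProp (AA n) Hh U := by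
  classical
  obtain ⟨G0, hG0⟩ := tup hn hn0 a f hf m h0
  refine ⟨G0, fun G hG => ?_⟩
  obtain ⟨E, hE⟩ := hG0 G hG
  refine ⟨E, fun H t ht => ?_⟩
  obtain ⟨h1, S, hS1, hS2, hS3⟩ := hE H t ht
  refine ⟨h1, S, hS1, hS2, fun N U hU => ?_⟩
  obtain ⟨ΨW, hΨW⟩ := Pool.Agent.Y658.MT.op N U hU
  refine ⟨(Finset.Icc 1 H).filter fun u => u ∉ S ∧ Bd a m ΨW (t - G * u), ?_, fun k u hu huS Hh hHh => ?_⟩
  · have h2 := bad_win hn hS3 ΨW ((Finset.Icc 1 H).filter fun u => u ∉ S ∧ Bd a m ΨW (t - G * u)) (fun u hu => by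
      rw [Finset.mem_filter, Finset.mem_Icc] at hu
      exact ⟨hu.1.1, hu.1.2, hu.2.1, hu.2.2⟩)
    rw [Nat.choose_two_right, Nat.add_sub_cancel, mul_comm (n + 1) n] at h2
    exact h2
  · have h2 := hS3 k u hu (fun j => ⟨(huS j).1, (huS j).2.1, (huS j).2.2.1⟩) Hh hHh
    have hgap := fun i => (h1 (u i) (huS i).2.1).2
    have htor := fun i => PT_tor hn hf (hgap i)
    refine tens hn (AA_skew hn) (AA_det hn) hHh (fun i => tor_iso hn two_pi_ne (htor i) (deg_F hf _).1 (deg_F hf _).2)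
      (fun i => tor_det hn two_pi_ne (htor i)) hU fun ΦW hΦW => ?_
    refine lieW_of_lie (AA_skew hn) (AA_det hn) h2 fun i hb => (huS i).2.2.2 ?_
    rw [Finset.mem_filter, Finset.mem_Icc]
    rw [W_uniq hU hΦW hΨW] at hb
    exact ⟨⟨(huS i).1, (huS i).2.1⟩, (huS i).2.2.1, ⟨Hh i, hHh i⟩, hb⟩

/-- the number of bad fibres -/
theorem bad_count (hn : Even n) (hn0 : 0 < n) (a : Fin n → ℝ) (f : Polynomial ℚ)
    (hf : f.map (algebraMap ℚ ℝ) = ∏ i, (X - C (a i))) (m : Fin (n + 1)) (h0 : StrictMono (er a m 0)) (N : ℕ) :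
    ∃ δ K : ℝ, 0 < δ ∧ δ ≤ 1 ∧ 0 ≤ K ∧ ∀ (ΨW : Matrix (Fin N) (Fin N) ℂ) (T : ℕ), 1 ≤ T →
      ({t : ℕ | t ≤ T ∧ Bd a m ΨW t}.ncard : ℝ) ≤ K * (T : ℝ) ^ (1 - δ) := by
  classical
  obtain ⟨G0, hG0⟩ := tup hn hn0 a f hf m h0
  obtain ⟨E, hE⟩ := hG0 (G0 + 1) (by omega)
  obtain ⟨δ, K, hδ, hK⟩ := Pool.Agent.Y730.MT.cnt (G0 + 1) E (n * (n + 1) + 2 + N ^ 2) (by omega)
  refine ⟨min δ 1, |K|, lt_min hδ one_pos, min_le_right _ _, abs_nonneg _, fun ΨW T hT => ?_⟩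
  have h1 := hK (fun t => Bd a m ΨW t) (fun H t ht => by
    obtain ⟨-, S, -, hS2, hS3⟩ := hE H t ht
    have hcard : ((Finset.Icc 1 H).filter fun u => u ∉ S ∧ Bd a m ΨW (t - (G0 + 1) * u)).card ≤ N ^ 2 := by
      have h2 := bad_win hn hS3 ΨW ((Finset.Icc 1 H).filter fun u => u ∉ S ∧ Bd a m ΨW (t - (G0 + 1) * u))
        (fun u hu => by
          rw [Finset.mem_filter, Finset.mem_Icc] at hu
          exact ⟨hu.1.1, hu.1.2, hu.2.1, hu.2.2⟩)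
      exact (Nat.le_mul_of_pos_right _ (Nat.choose_pos (by omega))).trans h2
    refine le_trans (Set.ncard_le_ncard
      (t := ((S ∪ (Finset.Icc 1 H).filter fun u => u ∉ S ∧ Bd a m ΨW (t - (G0 + 1) * u) : Finset ℕ) : Set ℕ)) ?_
      (Finset.finite_toSet _)) ?_
    · rintro u ⟨hu1, hu2, hu3⟩
      rw [Finset.mem_coe, Finset.mem_union, Finset.mem_filter, Finset.mem_Icc]
      by_cases hu : u ∈ S
      · exact Or.inl hu
      · exact Or.inr ⟨⟨hu1, hu2⟩, hu, hu3⟩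
    · rw [Set.ncard_coe_finset]
      refine le_trans (Finset.card_union_le _ _) (Nat.add_le_add ?_ hcard)
      omega) T hT
  refine le_trans h1 (mul_le_mul (le_abs_self K) ?_ (Real.rpow_nonneg (Nat.cast_nonneg _) _) (abs_nonneg _))
  exact Real.rpow_le_rpow_of_exponent_le (by exact_mod_cast hT) (by linarith [min_le_left δ 1])

/-- **almost all tuples** -/
theorem count (hn : Even n) (hn0 : 0 < n) (a : Fin n → ℝ) (f : Polynomial ℚ)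
    (hf : f.map (algebraMap ℚ ℝ) = ∏ i, (X - C (a i))) (m : Fin (n + 1)) (h0 : StrictMono (er a m 0)) (k N : ℕ) :
    ∃ δ K : ℝ, 0 < δ ∧ ∀ U : ℤ → Submodule ℂ (Fin N → ℂ), DirectSum.IsInternal U → ∀ T : ℕ, 1 ≤ T →
      ({τ : Fin k → ℕ | (∀ i, τ i ≤ T) ∧ ∃ Hh : Fin k → ℕ → Submodule ℂ (Fin n → ℂ),
        (∀ i, StrictMono (er a m (1 / (τ i : ℝ))) ∧ IsFib (PT a m (τ i)) (AA n) (Hh i)) ∧ ¬ TProp (AA n) Hh U}.ncard : ℝ) ≤
        K * (T : ℝ) ^ ((k : ℝ) - δ) := by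
  obtain ⟨δ1, K1, hδ1, hδ1', hK1, h1⟩ := bad_count hn hn0 a f hf m h0 n
  obtain ⟨δ2, K2, hδ2, hδ2', hK2, h2⟩ := bad_count hn hn0 a f hf m h0 N
  obtain ⟨K', hK'⟩ := Pool.Agent.Y889.MT.ctk k (min δ1 δ2) (K1 + K2) (by linarith)
  refine ⟨min δ1 δ2, K', lt_min hδ1 hδ2, fun U hU T hT => ?_⟩
  obtain ⟨ΨW, hΨW⟩ := Pool.Agent.Y658.MT.op N U hU
  have hT' : (1 : ℝ) ≤ (T : ℝ) := by exact_mod_cast hT
  have hone : (1 : ℝ) ≤ (T : ℝ) ^ (1 - min δ1 δ2) := Real.one_le_rpow hT' (by linarith [min_le_left δ1 δ2])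
  have hle1 : (T : ℝ) ^ (1 - δ1) ≤ (T : ℝ) ^ (1 - min δ1 δ2) :=
    Real.rpow_le_rpow_of_exponent_le hT' (by linarith [min_le_left δ1 δ2])
  have hle2 : (T : ℝ) ^ (1 - δ2) ≤ (T : ℝ) ^ (1 - min δ1 δ2) :=
    Real.rpow_le_rpow_of_exponent_le hT' (by linarith [min_le_right δ1 δ2])
  have hpos : (0 : ℝ) ≤ (T : ℝ) ^ (1 - min δ1 δ2) := le_trans zero_le_one hone
  have h3 := hK' T hT (fun t s => Bd a m (PhiB (PT a m s)) t) (fun t => Bd a m ΨW t) (fun s => by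
    refine le_trans (h1 (PhiB (PT a m s)) T hT) ?_
    exact mul_le_mul (by linarith) hle1 (Real.rpow_nonneg (Nat.cast_nonneg _) _) (by linarith)) (by
    refine le_trans (h2 ΨW T hT) ?_
    exact mul_le_mul (by linarith) hle2 (Real.rpow_nonneg (Nat.cast_nonneg _) _) (by linarith))
  refine le_trans ?_ h3
  have h4 : {τ : Fin k → ℕ | (∀ i, τ i ≤ T) ∧ ∃ Hh : Fin k → ℕ → Submodule ℂ (Fin n → ℂ),
        (∀ i, StrictMono (er a m (1 / (τ i : ℝ))) ∧ IsFib (PT a m (τ i)) (AA n) (Hh i)) ∧ ¬ TProp (AA n) Hh U} ⊆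
      {τ : Fin k → ℕ | (∀ i, τ i ≤ T) ∧ ((∃ i j, i ≠ j ∧ Bd a m (PhiB (PT a m (τ j))) (τ i)) ∨ ∃ i, Bd a m ΨW (τ i))} := by
    rintro τ ⟨hτ, Hh, hHh, hno⟩
    refine ⟨hτ, ?_⟩
    by_contra hcon
    rw [not_or] at hcon
    obtain ⟨hc1, hc2⟩ := hcon
    have htor := fun i => PT_tor hn hf (hHh i).1
    refine hno (tens hn (AA_skew hn) (AA_det hn) (fun i => (hHh i).2)
      (fun i => tor_iso hn two_pi_ne (htor i) (deg_F hf _).1 (deg_F hf _).2)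
      (fun i => tor_det hn two_pi_ne (htor i)) hU fun ΦW hΦW => ?_)
    refine lieW_of_pairs (AA_skew hn) (AA_det hn) (fun i j hij hb => ?_) fun i hb => ?_
    · exact hc1 ⟨i, j, hij, ⟨Hh i, (hHh i).2⟩, hb⟩
    · rw [W_uniq hU hΦW hΨW] at hb
      exact hc2 ⟨i, ⟨Hh i, (hHh i).2⟩, hb⟩
  have h5 : {τ : Fin k → ℕ | (∀ i, τ i ≤ T) ∧ ((∃ i j, i ≠ j ∧ Bd a m (PhiB (PT a m (τ j))) (τ i)) ∨
      ∃ i, Bd a m ΨW (τ i))}.Finite :=
    (Set.finite_Iic (fun _ => T : Fin k → ℕ)).subset fun τ hτ => fun i => hτ.1 i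
  exact_mod_cast Set.ncard_le_ncard h4 h5

end Pool.Agent.Helper85K9.AH
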