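import Pool.Agent.Y113.MT.AStm
import Mathlib.Analysis.Matrix.Order

/-!
# Polarised Hodge structures of weight one in matrix form: positivity of the trace form
-/

set_option autoImplicit false

open Matrix
open scoped ComplexOrder MatrixOrder

namespace Pool.Agent.Helper85K9.AH

open Pool.Agent.Y113.MT (cq)

variable {n : ℕ}

/-- `Φ` is the projection to `H^{1,0}` along `H^{0,1}` (acting on row vectors) of a Hodge structure of weight one on `ℚ^n`
polarised by `± A` -/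
structure Hod (A : Matrix (Fin n) (Fin n) ℚ) (Φ : Matrix (Fin n) (Fin n) ℂ) : Prop where
  idem : Φ * Φ = Φ
  pol : Φ * cq A + cq A * Φᵀ = cq A
  conj : Φ.map star = 1 - Φ
  pos : ∃ ε : ℂ, (ε = 1 ∨ ε = -1) ∧ ((ε * Complex.I) • ((2 • Φ - 1) * cq A)).PosDef

/-- the operator `Φ - 1/2` -/
noncomputable def P0 (Φ : Matrix (Fin n) (Fin n) ℂ) : Matrix (Fin n) (Fin n) ℂ := Φ - (1 / 2 : ℂ) • 1

lemma two_P0 (Φ : Matrix (Fin n) (Fin n) ℂ) : (2 : ℂ) • P0 Φ = 2 • Φ - 1 := by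
  rw [P0, smul_sub, smul_smul, two_smul, two_nsmul]
  norm_num

lemma P0_sq {A : Matrix (Fin n) (Fin n) ℚ} {Φ : Matrix (Fin n) (Fin n) ℂ} (h : Hod A Φ) :
    P0 Φ * P0 Φ = (1 / 4 : ℂ) • 1 := by
  unfold P0
  rw [Matrix.sub_mul, Matrix.mul_sub, Matrix.mul_sub, h.idem, Matrix.smul_mul, Matrix.mul_smul, Matrix.smul_mul,
    Matrix.mul_smul, Matrix.one_mul, Matrix.mul_one, Matrix.one_mul, smul_smul]
  module

lemma P0_sp {A : Matrix (Fin n) (Fin n) ℚ} {Φ : Matrix (Fin n) (Fin n) ℂ} (h : Hod A Φ) :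
    P0 Φ * cq A + cq A * (P0 Φ)ᵀ = 0 := by
  have h1 := h.pol
  unfold P0
  rw [Matrix.sub_mul, Matrix.transpose_sub, Matrix.mul_sub, Matrix.smul_mul, Matrix.one_mul, Matrix.transpose_smul,
    Matrix.transpose_one, Matrix.mul_smul, Matrix.mul_one]
  have h2 : Φ * cq A = cq A - cq A * Φᵀ := eq_sub_of_add_eq h1
  rw [h2]
  module

/-- the trace form of a positive definite matrix -/
lemma trace_pos {K X : Matrix (Fin n) (Fin n) ℂ} (hK : K.PosDef) :
    0 ≤ trace (X * K * Xᴴ * K⁻¹) ∧ (trace (X * K * Xᴴ * K⁻¹) = 0 → X = 0) := by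
  obtain ⟨R, hR⟩ := CStarAlgebra.nonneg_iff_eq_star_mul_self.mp hK.posSemidef.nonneg
  rw [star_eq_conjTranspose] at hR
  have hdet : K.det ≠ 0 := hK.det_pos.ne'
  have hRd : IsUnit R.det := by
    rw [isUnit_iff_ne_zero]
    intro h0
    apply hdet
    rw [hR, Matrix.det_mul, h0, mul_zero]
  have hRd' : IsUnit (Rᴴ).det := by
    rw [Matrix.det_conjTranspose, isUnit_iff_ne_zero, star_ne_zero]
    exact hRd.ne_zero
  set M := (Rᴴ)⁻¹ * X * Rᴴ with hM
  have hinv : K⁻¹ = R⁻¹ * (Rᴴ)⁻¹ := by rw [hR, Matrix.mul_inv_rev]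
  have hMH : Mᴴ = R * Xᴴ * R⁻¹ := by
    rw [hM, Matrix.conjTranspose_mul, Matrix.conjTranspose_mul, Matrix.conjTranspose_conjTranspose,
      Matrix.conjTranspose_nonsing_inv, Matrix.conjTranspose_conjTranspose, Matrix.mul_assoc]
  have hkey : trace (X * K * Xᴴ * K⁻¹) = trace (M * Mᴴ) := by
    rw [hMH, hM, hinv, hR]
    calc trace (X * (Rᴴ * R) * Xᴴ * (R⁻¹ * (Rᴴ)⁻¹)) = trace ((X * Rᴴ * (R * Xᴴ * R⁻¹)) * (Rᴴ)⁻¹) := by
          congr 1
          simp only [Matrix.mul_assoc]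
      _ = trace ((Rᴴ)⁻¹ * (X * Rᴴ * (R * Xᴴ * R⁻¹))) := Matrix.trace_mul_comm _ _
      _ = _ := by
          congr 1
          simp only [Matrix.mul_assoc]
  rw [hkey]
  refine ⟨(Matrix.posSemidef_self_mul_conjTranspose M).trace_nonneg, fun h0 => ?_⟩
  have hM0 : M = 0 := Matrix.trace_mul_conjTranspose_self_eq_zero_iff.1 h0
  have h1 : Rᴴ * M * (Rᴴ)⁻¹ = X := by
    rw [hM]
    calc Rᴴ * ((Rᴴ)⁻¹ * X * Rᴴ) * (Rᴴ)⁻¹ = (Rᴴ * (Rᴴ)⁻¹) * X * (Rᴴ * (Rᴴ)⁻¹) := by simp only [Matrix.mul_assoc]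
      _ = X := by rw [Matrix.mul_nonsing_inv _ hRd', Matrix.one_mul, Matrix.mul_one]
  rw [← h1, hM0, Matrix.mul_zero, Matrix.zero_mul]

/-- positivity of the trace form on the symplectic Lie algebra: the adjoint of `X` is `-4 P0 \bar X P0` -/
lemma trace_sp {A : Matrix (Fin n) (Fin n) ℚ} (hd : A.det ≠ 0) {Φ : Matrix (Fin n) (Fin n) ℂ} (h : Hod A Φ)
    {X : Matrix (Fin n) (Fin n) ℂ} (hX : X * cq A + cq A * Xᵀ = 0) :
    0 ≤ trace (X * (-(4 : ℂ) • (P0 Φ * X.map star * P0 Φ))) ∧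
      (trace (X * (-(4 : ℂ) • (P0 Φ * X.map star * P0 Φ))) = 0 → X = 0) := by
  obtain ⟨ε, hε, hK⟩ := h.pos
  set K := (ε * Complex.I) • ((2 • Φ - 1) * cq A) with hKdef
  have hAu : IsUnit (cq A).det := by
    have h1 : (cq A).det = ((A.det : ℚ) : ℂ) := by
      rw [cq]
      exact (RingHom.map_det (Rat.castHom ℂ) A).symm
    rw [h1, isUnit_iff_ne_zero]
    exact_mod_cast hd
  have hε2 : (ε * Complex.I) ≠ 0 := by
    rcases hε with rfl | rfl <;> simp
  have hC2 : (2 • Φ - 1) * (2 • Φ - 1) = (1 : Matrix (Fin n) (Fin n) ℂ) := by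
    rw [← two_P0, Matrix.smul_mul, Matrix.mul_smul, P0_sq h, smul_smul, smul_smul]
    norm_num
  have hCi : (2 • Φ - 1)⁻¹ = (2 • Φ - 1) := Matrix.inv_eq_right_inv hC2
  have hXH : cq A * Xᴴ * (cq A)⁻¹ = -(X.map star) := by
    have h1 : (X.map star) * cq A + cq A * Xᴴ = 0 := by
      have h2 := congrArg (fun M : Matrix (Fin n) (Fin n) ℂ => M.map star) hX
      have h3 : (cq A).map star = cq A := by
        ext i j
        simp [cq]
      have h4 : (X * cq A + cq A * Xᵀ).map star = X.map star * (cq A).map star + (cq A).map star * Xᵀ.map star := by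
        have e1 : ∀ M N : Matrix (Fin n) (Fin n) ℂ, (M * N).map star = M.map star * N.map star := by
          intro M N
          exact Matrix.map_mul (f := starRingEnd ℂ)
        rw [Matrix.map_add _ (fun a b => star_add a b), e1, e1]
      have h5 : (0 : Matrix (Fin n) (Fin n) ℂ).map star = 0 := by
        ext i j
        simp
      rw [h4, h5, h3] at h2
      exact h2
    have h2 : cq A * Xᴴ = -(X.map star * cq A) := (neg_eq_of_add_eq_zero_right h1).symm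
    rw [h2, Matrix.neg_mul, Matrix.mul_assoc, Matrix.mul_nonsing_inv _ hAu, Matrix.mul_one]
  have hstar : K * Xᴴ * K⁻¹ = -(4 : ℂ) • (P0 Φ * X.map star * P0 Φ) := by
    have h1 : K⁻¹ = (ε * Complex.I)⁻¹ • ((cq A)⁻¹ * (2 • Φ - 1)) := by
      apply Matrix.inv_eq_right_inv
      rw [hKdef, Matrix.smul_mul, Matrix.mul_smul, smul_smul, mul_inv_cancel₀ hε2, one_smul]
      calc (2 • Φ - 1) * cq A * ((cq A)⁻¹ * (2 • Φ - 1)) = (2 • Φ - 1) * (cq A * (cq A)⁻¹) * (2 • Φ - 1) := by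
            simp only [Matrix.mul_assoc]
        _ = 1 := by rw [Matrix.mul_nonsing_inv _ hAu, Matrix.mul_one, hC2]
    rw [h1, hKdef, Matrix.smul_mul, Matrix.smul_mul, Matrix.mul_smul, smul_smul, mul_inv_cancel₀ hε2, one_smul]
    calc (2 • Φ - 1) * cq A * Xᴴ * ((cq A)⁻¹ * (2 • Φ - 1)) = (2 • Φ - 1) * (cq A * Xᴴ * (cq A)⁻¹) * (2 • Φ - 1) := by
          simp only [Matrix.mul_assoc]
      _ = _ := by
          rw [hXH, ← two_P0, Matrix.mul_neg, Matrix.neg_mul, Matrix.smul_mul, Matrix.smul_mul, Matrix.mul_smul, smul_smul,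
            neg_smul]
          norm_num
  have h2 := trace_pos (X := X) hK
  have h3 : X * K * Xᴴ * K⁻¹ = X * (-(4 : ℂ) • (P0 Φ * X.map star * P0 Φ)) := by
    rw [← hstar]
    simp only [Matrix.mul_assoc]
  rw [h3] at h2
  exact h2

end Pool.Agent.Helper85K9.AH
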