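import Pool.Agent.Helper85K9.AH.Pos

/-!
# The orthogonal projection to a rational Lie algebra which contains the Hodge operator
-/

set_option autoImplicit false

open Matrix
open scoped ComplexOrder

namespace Pool.Agent.Helper85K9.AH

open Pool.Agent.Y113.MT (cq)

variable {n : ℕ} {ι : Type} [Fintype ι] [DecidableEq ι]

/-- the complexification -/
def cx (X : ι → Matrix (Fin n) (Fin n) ℚ) : ι → Matrix (Fin n) (Fin n) ℂ := fun i => cq (X i)

/-- the complexification of a space of matrices -/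
def cxm (𝔮 : Submodule ℚ (ι → Matrix (Fin n) (Fin n) ℚ)) : Submodule ℂ (ι → Matrix (Fin n) (Fin n) ℂ) :=
  Submodule.span ℂ (cx '' (𝔮 : Set _))

omit [Fintype ι] [DecidableEq ι] in
lemma cx_mem {𝔮 : Submodule ℚ (ι → Matrix (Fin n) (Fin n) ℚ)} {X : ι → Matrix (Fin n) (Fin n) ℚ} (h : X ∈ 𝔮) :
    cx X ∈ cxm 𝔮 := Submodule.subset_span ⟨X, h, rfl⟩

lemma cq_mul (A B : Matrix (Fin n) (Fin n) ℚ) : cq (A * B) = cq A * cq B := by
  unfold cq
  exact Matrix.map_mul (f := Rat.castHom ℂ)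

lemma cq_sub (A B : Matrix (Fin n) (Fin n) ℚ) : cq (A - B) = cq A - cq B := by
  ext i j
  simp [cq]

lemma cq_add (A B : Matrix (Fin n) (Fin n) ℚ) : cq (A + B) = cq A + cq B := by
  ext i j
  simp [cq]

lemma cq_smul (a : ℚ) (B : Matrix (Fin n) (Fin n) ℚ) : cq (a • B) = (a : ℂ) • cq B := by
  ext i j
  simp [cq]

lemma cq_tr (A : Matrix (Fin n) (Fin n) ℚ) : cq Aᵀ = (cq A)ᵀ := by
  ext i j
  simp [cq]

lemma cq_zero : cq (0 : Matrix (Fin n) (Fin n) ℚ) = 0 := by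
  ext i j
  simp [cq]

lemma cq_one : cq (1 : Matrix (Fin n) (Fin n) ℚ) = 1 := by
  ext i j
  by_cases h : i = j
  · subst h
    simp [cq]
  · simp [cq, h]

/-- the bracket -/
def br {F : Type} [Field F] (X Y : ι → Matrix (Fin n) (Fin n) F) : ι → Matrix (Fin n) (Fin n) F :=
  fun i => X i * Y i - Y i * X i

/-- the trace form -/
def tf {F : Type} [Field F] (X Y : ι → Matrix (Fin n) (Fin n) F) : F := ∑ i, trace (X i * Y i)

omit [Fintype ι] [DecidableEq ι] in
lemma br_add_left {F : Type} [Field F] (X X' Y : ι → Matrix (Fin n) (Fin n) F) : br (X + X') Y = br X Y + br X' Y := by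
  funext i
  simp only [br, Pi.add_apply, Matrix.add_mul, Matrix.mul_add]
  abel

omit [Fintype ι] [DecidableEq ι] in
lemma br_add_right {F : Type} [Field F] (X Y Y' : ι → Matrix (Fin n) (Fin n) F) : br X (Y + Y') = br X Y + br X Y' := by
  funext i
  simp only [br, Pi.add_apply, Matrix.add_mul, Matrix.mul_add]
  abel

omit [Fintype ι] [DecidableEq ι] in
lemma br_smul_left {F : Type} [Field F] (a : F) (X Y : ι → Matrix (Fin n) (Fin n) F) : br (a • X) Y = a • br X Y := by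
  funext i
  simp only [br, Pi.smul_apply, Matrix.smul_mul, Matrix.mul_smul, smul_sub]

omit [Fintype ι] [DecidableEq ι] in
lemma br_smul_right {F : Type} [Field F] (a : F) (X Y : ι → Matrix (Fin n) (Fin n) F) : br X (a • Y) = a • br X Y := by
  funext i
  simp only [br, Pi.smul_apply, Matrix.smul_mul, Matrix.mul_smul, smul_sub]

omit [DecidableEq ι] in
lemma tf_add_left {F : Type} [Field F] (X X' Y : ι → Matrix (Fin n) (Fin n) F) : tf (X + X') Y = tf X Y + tf X' Y := by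
  simp only [tf, Pi.add_apply, Matrix.add_mul, Matrix.trace_add, Finset.sum_add_distrib]

omit [DecidableEq ι] in
lemma tf_sub_left {F : Type} [Field F] (X X' Y : ι → Matrix (Fin n) (Fin n) F) : tf (X - X') Y = tf X Y - tf X' Y := by
  simp only [tf, Pi.sub_apply, Matrix.sub_mul, Matrix.trace_sub, Finset.sum_sub_distrib]

omit [DecidableEq ι] in
lemma tf_smul_left {F : Type} [Field F] (a : F) (X Y : ι → Matrix (Fin n) (Fin n) F) : tf (a • X) Y = a * tf X Y := by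
  simp only [tf, Pi.smul_apply, Matrix.smul_mul, Matrix.trace_smul, smul_eq_mul, Finset.mul_sum]

omit [DecidableEq ι] in
lemma tf_comm {F : Type} [Field F] (X Y : ι → Matrix (Fin n) (Fin n) F) : tf X Y = tf Y X :=
  Finset.sum_congr rfl fun _ _ => Matrix.trace_mul_comm _ _

omit [DecidableEq ι] in
lemma tf_add_right {F : Type} [Field F] (X Y Y' : ι → Matrix (Fin n) (Fin n) F) : tf X (Y + Y') = tf X Y + tf X Y' := by
  rw [tf_comm, tf_add_left, tf_comm Y, tf_comm Y']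

omit [DecidableEq ι] in
lemma tf_smul_right {F : Type} [Field F] (a : F) (X Y : ι → Matrix (Fin n) (Fin n) F) : tf X (a • Y) = a * tf X Y := by
  rw [tf_comm, tf_smul_left, tf_comm Y]

omit [DecidableEq ι] in
lemma tf_zero_left {F : Type} [Field F] (Y : ι → Matrix (Fin n) (Fin n) F) : tf 0 Y = 0 := by
  simp [tf]

omit [DecidableEq ι] in
/-- invariance -/
lemma tf_br {F : Type} [Field F] (X Z Y : ι → Matrix (Fin n) (Fin n) F) : tf (br X Z) Y = tf X (br Z Y) := by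
  refine Finset.sum_congr rfl fun i _ => ?_
  simp only [br, Matrix.sub_mul, Matrix.mul_sub, Matrix.trace_sub]
  rw [Matrix.mul_assoc (X i), Matrix.mul_assoc (Z i), Matrix.trace_mul_comm (Z i) (X i * Y i), Matrix.mul_assoc (X i)]

omit [DecidableEq ι] in
lemma tf_cx (X Y : ι → Matrix (Fin n) (Fin n) ℚ) : tf (cx X) (cx Y) = ((tf X Y : ℚ) : ℂ) := by
  have h1 : ∀ M : Matrix (Fin n) (Fin n) ℚ, trace (cq M) = ((trace M : ℚ) : ℂ) := by
    intro M
    simp [cq, Matrix.trace]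
  unfold tf cx
  rw [Rat.cast_sum]
  refine Finset.sum_congr rfl fun i _ => ?_
  rw [← cq_mul, h1]

omit [Fintype ι] [DecidableEq ι] in
lemma br_cx (X Y : ι → Matrix (Fin n) (Fin n) ℚ) : br (cx X) (cx Y) = cx (br X Y) := by
  funext i
  simp only [br, cx, cq_sub, cq_mul]

omit [Fintype ι] [DecidableEq ι] in
lemma cxm_br {𝔮 : Submodule ℚ (ι → Matrix (Fin n) (Fin n) ℚ)} (h : ∀ X ∈ 𝔮, ∀ Y ∈ 𝔮, br X Y ∈ 𝔮)
    {x y : ι → Matrix (Fin n) (Fin n) ℂ} (hx : x ∈ cxm 𝔮) (hy : y ∈ cxm 𝔮) : br x y ∈ cxm 𝔮 := by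
  unfold cxm at hx
  induction hx using Submodule.span_induction with
  | mem x hx =>
    obtain ⟨X, hX, rfl⟩ := hx
    unfold cxm at hy
    induction hy using Submodule.span_induction with
    | mem y hy =>
      obtain ⟨Y, hY, rfl⟩ := hy
      rw [br_cx]
      exact cx_mem (h X hX Y hY)
    | zero =>
      have h1 : br (cx X) (0 : ι → Matrix (Fin n) (Fin n) ℂ) = 0 := by
        funext i
        simp [br]
      rw [h1]
      exact Submodule.zero_mem _
    | add y z _ _ hy hz =>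
      rw [br_add_right]
      exact Submodule.add_mem _ hy hz
    | smul a y _ hy =>
      rw [br_smul_right]
      exact Submodule.smul_mem _ _ hy
  | zero =>
    have h1 : br (0 : ι → Matrix (Fin n) (Fin n) ℂ) y = 0 := by
      funext i
      simp [br]
    rw [h1]
    exact Submodule.zero_mem _
  | add x z _ _ hx hz =>
    rw [br_add_left]
    exact Submodule.add_mem _ hx hz
  | smul a x _ hx =>
    rw [br_smul_left]
    exact Submodule.smul_mem _ _ hx

omit [Fintype ι] [DecidableEq ι] in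
lemma cxm_conj {𝔮 : Submodule ℚ (ι → Matrix (Fin n) (Fin n) ℚ)}
    {x : ι → Matrix (Fin n) (Fin n) ℂ} (hx : x ∈ cxm 𝔮) : (fun i => (x i).map star) ∈ cxm 𝔮 := by
  unfold cxm at hx
  induction hx using Submodule.span_induction with
  | mem x hx =>
    obtain ⟨X, hX, rfl⟩ := hx
    have h1 : (fun i => (cx X i).map star) = cx X := by
      funext i
      ext a b
      simp [cx, cq]
    rw [h1]
    exact cx_mem hX
  | zero =>
    have h1 : (fun i => ((0 : ι → Matrix (Fin n) (Fin n) ℂ) i).map star) = (0 : ι → Matrix (Fin n) (Fin n) ℂ) := by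
      funext i
      ext a b
      simp
    rw [h1]
    exact Submodule.zero_mem _
  | add x z _ _ hx hz =>
    have h1 : (fun i => ((x + z) i).map star) = (fun i => (x i).map star) + fun i => (z i).map star := by
      funext i
      ext a b
      simp
    rw [h1]
    exact Submodule.add_mem _ hx hz
  | smul c x _ hx =>
    have h1 : (fun i => ((c • x) i).map star) = (star c) • fun i => (x i).map star := by
      funext i
      ext a b
      simp
    rw [h1]
    exact Submodule.smul_mem _ _ hx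

omit [Fintype ι] [DecidableEq ι] in
lemma cxm_sp {A : Matrix (Fin n) (Fin n) ℚ} {𝔮 : Submodule ℚ (ι → Matrix (Fin n) (Fin n) ℚ)}
    (h : ∀ X ∈ 𝔮, ∀ i, X i * A + A * (X i)ᵀ = 0)
    {x : ι → Matrix (Fin n) (Fin n) ℂ} (hx : x ∈ cxm 𝔮) (i : ι) : x i * cq A + cq A * (x i)ᵀ = 0 := by
  unfold cxm at hx
  induction hx using Submodule.span_induction with
  | mem x hx =>
    obtain ⟨X, hX, rfl⟩ := hx
    rw [show cx X i = cq (X i) from rfl, ← cq_tr, ← cq_mul, ← cq_mul, ← cq_add, h X hX i, cq_zero]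
  | zero => simp
  | add x z _ _ hx hz =>
    rw [Pi.add_apply, Matrix.add_mul, Matrix.transpose_add, Matrix.mul_add, add_add_add_comm, hx, hz, add_zero]
  | smul c x _ hx =>
    rw [Pi.smul_apply, Matrix.smul_mul, Matrix.transpose_smul, Matrix.mul_smul, ← smul_add, hx, smul_zero]

omit [DecidableEq ι] in
/-- the trace form is not degenerate -/
lemma nondeg {A : Matrix (Fin n) (Fin n) ℚ} (hd : A.det ≠ 0) {𝔰 : Submodule ℚ (ι → Matrix (Fin n) (Fin n) ℚ)}
    (hbr : ∀ X ∈ 𝔰, ∀ Y ∈ 𝔰, br X Y ∈ 𝔰) (hsp : ∀ X ∈ 𝔰, ∀ i, X i * A + A * (X i)ᵀ = 0)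
    {Φ : ι → Matrix (Fin n) (Fin n) ℂ} (hΦ : ∀ i, Hod A (Φ i)) (hmem : (fun i => P0 (Φ i)) ∈ cxm 𝔰)
    {z : ι → Matrix (Fin n) (Fin n) ℂ} (hz : z ∈ cxm 𝔰) (h0 : ∀ y ∈ cxm 𝔰, tf z y = 0) : z = 0 := by
  set w : ι → Matrix (Fin n) (Fin n) ℂ := fun i => (z i).map star with hw
  have hwm : w ∈ cxm 𝔰 := cxm_conj hz
  have hstar : (fun i => -(4 : ℂ) • (P0 (Φ i) * w i * P0 (Φ i))) =
      -w + (2 : ℂ) • br (fun i => P0 (Φ i)) (br (fun i => P0 (Φ i)) w) := by
    funext i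
    have h1 := P0_sq (hΦ i)
    simp only [br, Pi.add_apply, Pi.neg_apply, Pi.smul_apply, Matrix.mul_sub, Matrix.sub_mul]
    have h2 : P0 (Φ i) * (P0 (Φ i) * w i) = (1 / 4 : ℂ) • w i := by
      rw [← Matrix.mul_assoc, h1, Matrix.smul_mul, Matrix.one_mul]
    have h3 : w i * P0 (Φ i) * P0 (Φ i) = (1 / 4 : ℂ) • w i := by
      rw [Matrix.mul_assoc, h1, Matrix.mul_smul, Matrix.mul_one]
    rw [h2, h3, ← Matrix.mul_assoc]
    module
  have h1 := h0 _ (by
    rw [hstar]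
    exact Submodule.add_mem _ (Submodule.neg_mem _ hwm)
      (Submodule.smul_mem _ _ (cxm_br hbr hmem (cxm_br hbr hmem hwm))) :
      (fun i => -(4 : ℂ) • (P0 (Φ i) * w i * P0 (Φ i))) ∈ cxm 𝔰)
  have h2 := fun i => trace_sp hd (hΦ i) (cxm_sp hsp hz i)
  have h3 : ∀ i, trace (z i * (-(4 : ℂ) • (P0 (Φ i) * (z i).map star * P0 (Φ i)))) = 0 := by
    have h4 := (Finset.sum_eq_zero_iff_of_nonneg (s := Finset.univ) (fun i _ => (h2 i).1)).1 h1
    exact fun i => h4 i (Finset.mem_univ i)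
  funext i
  exact (h2 i).2 (h3 i)

omit [DecidableEq ι] in
/-- the orthogonal projection -/
lemma proj {A : Matrix (Fin n) (Fin n) ℚ} (hd : A.det ≠ 0) {𝔰 : Submodule ℚ (ι → Matrix (Fin n) (Fin n) ℚ)}
    (hbr : ∀ X ∈ 𝔰, ∀ Y ∈ 𝔰, br X Y ∈ 𝔰) (hsp : ∀ X ∈ 𝔰, ∀ i, X i * A + A * (X i)ᵀ = 0)
    {Φ : ι → Matrix (Fin n) (Fin n) ℂ} (hΦ : ∀ i, Hod A (Φ i)) (hmem : (fun i => P0 (Φ i)) ∈ cxm 𝔰) :
    ∃ π : (ι → Matrix (Fin n) (Fin n) ℚ) →ₗ[ℚ] (ι → Matrix (Fin n) (Fin n) ℚ), (∀ x, π x ∈ 𝔰) ∧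
      ∀ x, ∀ y ∈ 𝔰, tf (x - π x) y = 0 := by
  let B : (ι → Matrix (Fin n) (Fin n) ℚ) →ₗ[ℚ] Module.Dual ℚ 𝔰 :=
    { toFun := fun x =>
        { toFun := fun y => tf x y
          map_add' := fun y z => tf_add_right _ _ _
          map_smul' := fun a y => tf_smul_right _ _ _ }
      map_add' := fun x x' => by
        ext y
        exact tf_add_left _ _ _
      map_smul' := fun a x => by
        ext y
        exact tf_smul_left _ _ _ }
  have hinj : Function.Injective (B ∘ₗ 𝔰.subtype) := by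
    rw [← LinearMap.ker_eq_bot, LinearMap.ker_eq_bot']
    intro x hx
    have h1 : ∀ y ∈ cxm 𝔰, tf (cx (x : ι → Matrix (Fin n) (Fin n) ℚ)) y = 0 := by
      intro y hy
      unfold cxm at hy
      induction hy using Submodule.span_induction with
      | mem y hy =>
        obtain ⟨Y, hY, rfl⟩ := hy
        have h2 := congrArg (fun f : Module.Dual ℚ 𝔰 => f ⟨Y, hY⟩) hx
        have h3 : tf (x : ι → Matrix (Fin n) (Fin n) ℚ) Y = 0 := h2
        rw [tf_cx, h3, Rat.cast_zero]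
      | zero => rw [tf_comm, tf_zero_left]
      | add y z _ _ hy hz => rw [tf_add_right, hy, hz, add_zero]
      | smul a y _ hy => rw [tf_smul_right, hy, mul_zero]
    have h2 := nondeg hd hbr hsp hΦ hmem (cx_mem x.2) h1
    ext i a b
    have h3 := congrFun (congrFun (congrFun h2 i) a) b
    have h4 : (((x : ι → Matrix (Fin n) (Fin n) ℚ) i a b : ℚ) : ℂ) = 0 := h3
    have h5 : (x : ι → Matrix (Fin n) (Fin n) ℚ) i a b = 0 := by exact_mod_cast h4
    exact h5
  have hfr : Module.finrank ℚ 𝔰 = Module.finrank ℚ (Module.Dual ℚ 𝔰) := (Subspace.dual_finrank_eq).symm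
  let e : 𝔰 ≃ₗ[ℚ] Module.Dual ℚ 𝔰 := LinearMap.linearEquivOfInjective (B ∘ₗ 𝔰.subtype) hinj hfr
  have he : ∀ y : 𝔰, e y = B y := fun y => LinearMap.linearEquivOfInjective_apply hinj hfr y
  refine ⟨𝔰.subtype ∘ₗ e.symm.toLinearMap ∘ₗ B, fun x => (e.symm (B x)).2, fun x y hy => ?_⟩
  have h1 : B (e.symm (B x) : 𝔰) = B x := by
    rw [← he, LinearEquiv.apply_symm_apply]
  have h2 := congrArg (fun f : Module.Dual ℚ 𝔰 => f ⟨y, hy⟩) h1
  have h3 : tf ((e.symm (B x) : 𝔰) : ι → Matrix (Fin n) (Fin n) ℚ) y = tf x y := h2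
  rw [tf_sub_left]
  show tf x y - tf ((e.symm (B x) : 𝔰) : ι → Matrix (Fin n) (Fin n) ℚ) y = 0
  rw [h3, sub_self]

/-- the matrix units -/
def E (j : ι) (a b : Fin n) : ι → Matrix (Fin n) (Fin n) ℚ := Pi.single j (Matrix.single a b 1)

/-- the complexification of a rational map -/
noncomputable def piC (π : (ι → Matrix (Fin n) (Fin n) ℚ) →ₗ[ℚ] (ι → Matrix (Fin n) (Fin n) ℚ)) :
    (ι → Matrix (Fin n) (Fin n) ℂ) →ₗ[ℂ] (ι → Matrix (Fin n) (Fin n) ℂ) where
  toFun x := ∑ j, ∑ a, ∑ b, x j a b • cx (π (E j a b))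
  map_add' x y := by
    simp only [Pi.add_apply, Matrix.add_apply, add_smul, Finset.sum_add_distrib]
  map_smul' c x := by
    simp only [Pi.smul_apply, Matrix.smul_apply, smul_eq_mul, mul_smul, Finset.smul_sum, RingHom.id_apply]

lemma sum_E (X : ι → Matrix (Fin n) (Fin n) ℚ) : X = ∑ j, ∑ a, ∑ b, X j a b • E j a b := by
  funext i
  ext r s
  simp only [Finset.sum_apply, Matrix.sum_apply, Pi.smul_apply, Matrix.smul_apply, E, smul_eq_mul]
  rw [Finset.sum_eq_single i, Finset.sum_eq_single r, Finset.sum_eq_single s]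
  · rw [Pi.single_eq_same, Matrix.single_apply_same, mul_one]
  · intro b _ hb
    rw [Pi.single_eq_same, Matrix.single_apply_of_ne _ _ _ _ _ (by tauto), mul_zero]
  · intro h
    exact absurd (Finset.mem_univ _) h
  · intro a _ ha
    refine Finset.sum_eq_zero fun b _ => ?_
    rw [Pi.single_eq_same, Matrix.single_apply_of_ne _ _ _ _ _ (by tauto), mul_zero]
  · intro h
    exact absurd (Finset.mem_univ _) h
  · intro j _ hj
    refine Finset.sum_eq_zero fun a _ => Finset.sum_eq_zero fun b _ => ?_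
    rw [Pi.single_eq_of_ne (Ne.symm hj), Matrix.zero_apply, mul_zero]
  · intro h
    exact absurd (Finset.mem_univ _) h

omit [Fintype ι] [DecidableEq ι] in
lemma cx_add (X Y : ι → Matrix (Fin n) (Fin n) ℚ) : cx (X + Y) = cx X + cx Y := by
  funext i
  exact cq_add _ _

omit [Fintype ι] [DecidableEq ι] in
lemma cx_sub (X Y : ι → Matrix (Fin n) (Fin n) ℚ) : cx (X - Y) = cx X - cx Y := by
  funext i
  exact cq_sub _ _

omit [Fintype ι] [DecidableEq ι] in
lemma cx_smul (a : ℚ) (X : ι → Matrix (Fin n) (Fin n) ℚ) : cx (a • X) = (a : ℂ) • cx X := by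
  funext i
  exact cq_smul _ _

omit [Fintype ι] [DecidableEq ι] in
lemma cx_zero : cx (0 : ι → Matrix (Fin n) (Fin n) ℚ) = 0 := by
  funext i
  exact cq_zero

omit [Fintype ι] [DecidableEq ι] in
lemma cx_sum {κ : Type} (s : Finset κ) (f : κ → ι → Matrix (Fin n) (Fin n) ℚ) : cx (∑ k ∈ s, f k) = ∑ k ∈ s, cx (f k) := by
  classical
  induction s using Finset.induction_on with
  | empty => rw [Finset.sum_empty, Finset.sum_empty, cx_zero]
  | insert a s ha ih => rw [Finset.sum_insert ha, Finset.sum_insert ha, cx_add, ih]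

lemma piC_cx (π : (ι → Matrix (Fin n) (Fin n) ℚ) →ₗ[ℚ] (ι → Matrix (Fin n) (Fin n) ℚ)) (X : ι → Matrix (Fin n) (Fin n) ℚ) :
    piC π (cx X) = cx (π X) := by
  conv_rhs => rw [sum_E X]
  simp only [map_sum, map_smul, cx_sum, cx_smul]
  rfl

omit [DecidableEq ι] in
lemma sum_cE [DecidableEq ι] (x : ι → Matrix (Fin n) (Fin n) ℂ) : x = ∑ j, ∑ a, ∑ b, x j a b • cx (E j a b) := by
  funext i
  ext r s
  simp only [Finset.sum_apply, Matrix.sum_apply, Pi.smul_apply, Matrix.smul_apply, smul_eq_mul]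
  have h : ∀ j a b, cx (E j a b) i r s = if j = i ∧ a = r ∧ b = s then (1 : ℂ) else 0 := by
    intro j a b
    unfold cx E cq
    by_cases hj : j = i
    · subst hj
      rw [Pi.single_eq_same, Matrix.map_apply, Matrix.single_apply]
      simp only [true_and]
      split_ifs <;> simp
    · rw [Pi.single_eq_of_ne (Ne.symm hj), if_neg (by tauto)]
      simp
  simp only [h]
  rw [Finset.sum_eq_single i, Finset.sum_eq_single r, Finset.sum_eq_single s]
  · simp
  · intro b _ hb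
    simp [hb]
  · intro h
    exact absurd (Finset.mem_univ _) h
  · intro a _ ha
    simp [ha]
  · intro h
    exact absurd (Finset.mem_univ _) h
  · intro j _ hj
    simp [hj]
  · intro h
    exact absurd (Finset.mem_univ _) h

lemma piC_mem {π : (ι → Matrix (Fin n) (Fin n) ℚ) →ₗ[ℚ] (ι → Matrix (Fin n) (Fin n) ℚ)}
    {𝔰 : Submodule ℚ (ι → Matrix (Fin n) (Fin n) ℚ)} (hπ : ∀ x, π x ∈ 𝔰) (x : ι → Matrix (Fin n) (Fin n) ℂ) :
    piC π x ∈ cxm 𝔰 :=
  Submodule.sum_mem _ fun _ _ => Submodule.sum_mem _ fun _ _ => Submodule.sum_mem _ fun _ _ =>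
    Submodule.smul_mem _ _ (cx_mem (hπ _))

lemma piC_orth {π : (ι → Matrix (Fin n) (Fin n) ℚ) →ₗ[ℚ] (ι → Matrix (Fin n) (Fin n) ℚ)}
    {𝔰 : Submodule ℚ (ι → Matrix (Fin n) (Fin n) ℚ)} (hπ : ∀ x, ∀ y ∈ 𝔰, tf (x - π x) y = 0)
    (x : ι → Matrix (Fin n) (Fin n) ℂ) {y : ι → Matrix (Fin n) (Fin n) ℂ} (hy : y ∈ cxm 𝔰) : tf (piC π x) y = tf x y := by
  unfold cxm at hy
  induction hy using Submodule.span_induction with
  | mem y hy =>
    obtain ⟨Y, hY, rfl⟩ := hy
    have h1 : ∀ X : ι → Matrix (Fin n) (Fin n) ℚ, tf (cx (π X)) (cx Y) = tf (cx X) (cx Y) := by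
      intro X
      have h2 := hπ X Y hY
      rw [tf_sub_left, sub_eq_zero] at h2
      rw [tf_cx, tf_cx, h2]
    let f : (ι → Matrix (Fin n) (Fin n) ℂ) →ₗ[ℂ] ℂ :=
      { toFun := fun x => tf x (cx Y)
        map_add' := fun x x' => tf_add_left _ _ _
        map_smul' := fun a x => tf_smul_left _ _ _ }
    show f (piC π x) = f x
    have h3 : piC π x = ∑ j, ∑ a, ∑ b, x j a b • cx (π (E j a b)) := rfl
    conv_rhs => rw [sum_cE x]
    rw [h3]
    simp only [map_sum, map_smul]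
    refine Finset.sum_congr rfl fun j _ => Finset.sum_congr rfl fun a _ => Finset.sum_congr rfl fun b _ => ?_
    congr 1
    exact h1 _
  | zero => rw [tf_comm, tf_zero_left, tf_comm, tf_zero_left]
  | add y z _ _ hy hz => rw [tf_add_right, tf_add_right, hy, hz]
  | smul a y _ hy => rw [tf_smul_right, tf_smul_right, hy]

/-- the projection respects the highest weight -/
lemma weight {A : Matrix (Fin n) (Fin n) ℚ} (hd : A.det ≠ 0) {𝔰 : Submodule ℚ (ι → Matrix (Fin n) (Fin n) ℚ)}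
    (hbr : ∀ X ∈ 𝔰, ∀ Y ∈ 𝔰, br X Y ∈ 𝔰) (hsp : ∀ X ∈ 𝔰, ∀ i, X i * A + A * (X i)ᵀ = 0)
    {Φ : ι → Matrix (Fin n) (Fin n) ℂ} (hΦ : ∀ i, Hod A (Φ i)) (hmem : (fun i => P0 (Φ i)) ∈ cxm 𝔰)
    {π : (ι → Matrix (Fin n) (Fin n) ℚ) →ₗ[ℚ] (ι → Matrix (Fin n) (Fin n) ℚ)} (hπ : ∀ x, π x ∈ 𝔰)
    (hπ' : ∀ x, ∀ y ∈ 𝔰, tf (x - π x) y = 0) {x : ι → Matrix (Fin n) (Fin n) ℂ}
    (hx : br x (fun i => P0 (Φ i)) = x) : br (piC π x) (fun i => P0 (Φ i)) = piC π x := by
  rw [← sub_eq_zero]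
  refine nondeg hd hbr hsp hΦ hmem (Submodule.sub_mem _ (cxm_br hbr (piC_mem hπ x) hmem) (piC_mem hπ x)) fun y hy => ?_
  rw [tf_sub_left, tf_br, piC_orth hπ' x (cxm_br hbr hmem hy), piC_orth hπ' x hy, ← tf_br, hx, sub_self]

end Pool.Agent.Helper85K9.AH
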