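import Pool.Agent.Helper85K9.AH.Des

/-!
# Cubic relations between periods which hold on the torsor, and the projection to the Lie algebra
-/

set_option autoImplicit false

open Matrix

namespace Pool.Agent.Helper85K9.AH

open Pool.Agent.Y113.MT (cq)

variable {n : ℕ}

/-- `h` preserves the form `J` -/
def SpJ (J : Matrix (Fin n) (Fin n) ℚ) (h : Matrix (Fin n) (Fin n) ℂ) : Prop := hᵀ * cq J * h = cq J

/-- a cubic form in columns of matrices -/
noncomputable def cub (c : Fin n → Fin n → Fin n → ℚ) (v w x : Fin n → ℂ) : ℂ :=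
  ∑ a, ∑ m, ∑ l, (c a m l : ℂ) * (v a * w m * x l)

/-- cubic relations between the entries of `Y` hold for `h Y` -/
def RelD (J : Matrix (Fin n) (Fin n) ℚ) (Y : Matrix (Fin n) (Fin n) ℂ) : Prop :=
  ∀ (c : Fin n → Fin n → Fin n → ℚ) (b b' b'' : Fin n), cub c (Yᵀ b) (Yᵀ b') (Yᵀ b'') = 0 →
    ∀ h, SpJ J h → cub c (h *ᵥ Yᵀ b) (h *ᵥ Yᵀ b') (h *ᵥ Yᵀ b'') = 0

/-- cubic relations between the entries of `Y` and `Y'` hold for `h Y` and `h' Y'` -/
def RelO (J : Matrix (Fin n) (Fin n) ℚ) (Y Y' : Matrix (Fin n) (Fin n) ℂ) : Prop :=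
  ∀ (c : Fin n → Fin n → Fin n → ℚ) (b b' b'' : Fin n), cub c (Yᵀ b) (Yᵀ b') (Y'ᵀ b'') = 0 →
    ∀ h h', SpJ J h → SpJ J h' → cub c (h *ᵥ Yᵀ b) (h *ᵥ Yᵀ b') (h' *ᵥ Y'ᵀ b'') = 0

/-- transvections -/
noncomputable def tv (J : Matrix (Fin n) (Fin n) ℚ) (y : Fin n → ℂ) (t : ℂ) : Matrix (Fin n) (Fin n) ℂ :=
  1 + t • (vecMulVec y y * cq J)

section
variable {J : Matrix (Fin n) (Fin n) ℚ}

/-- the form -/
noncomputable def fm (J : Matrix (Fin n) (Fin n) ℚ) (v w : Fin n → ℂ) : ℂ := v ⬝ᵥ (cq J *ᵥ w)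

lemma fm_swap (hJ : Jᵀ = -J) (v w : Fin n → ℂ) : fm J w v = -fm J v w := by
  unfold fm
  have h1 : (cq J)ᵀ = -cq J := by
    rw [← cq_tr, hJ]
    ext i j
    simp [cq]
  rw [dotProduct_mulVec, ← mulVec_transpose, h1, neg_mulVec, neg_dotProduct, dotProduct_comm]

lemma fm_self (hJ : Jᵀ = -J) (v : Fin n → ℂ) : fm J v v = 0 := by
  have h := fm_swap hJ v v
  linear_combination (1 / 2) * h

lemma fm_add_right (v w w' : Fin n → ℂ) : fm J v (w + w') = fm J v w + fm J v w' := by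
  unfold fm
  rw [mulVec_add, dotProduct_add]

lemma fm_sub_right (v w w' : Fin n → ℂ) : fm J v (w - w') = fm J v w - fm J v w' := by
  unfold fm
  rw [mulVec_sub, dotProduct_sub]

lemma fm_smul_right (a : ℂ) (v w : Fin n → ℂ) : fm J v (a • w) = a * fm J v w := by
  unfold fm
  rw [mulVec_smul, dotProduct_smul, smul_eq_mul]

lemma fm_add_left (v v' w : Fin n → ℂ) : fm J (v + v') w = fm J v w + fm J v' w := by
  unfold fm
  rw [add_dotProduct]

lemma fm_sub_left (v v' w : Fin n → ℂ) : fm J (v - v') w = fm J v w - fm J v' w := by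
  unfold fm
  rw [sub_dotProduct]

lemma fm_smul_left (a : ℂ) (v w : Fin n → ℂ) : fm J (a • v) w = a * fm J v w := by
  unfold fm
  rw [smul_dotProduct, smul_eq_mul]

/-- rank one matrices act by the form -/
lemma rk_mulVec (q v w : Fin n → ℂ) : (vecMulVec q v * cq J) *ᵥ w = fm J v w • q := by
  rw [← mulVec_mulVec, vecMulVec_mulVec]
  ext i
  simp [fm, mul_comm]

lemma tv_mulVec (y : Fin n → ℂ) (t : ℂ) (w : Fin n → ℂ) : tv J y t *ᵥ w = w + (t * fm J y w) • y := by
  rw [tv, add_mulVec, one_mulVec, smul_mulVec, rk_mulVec, smul_smul]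

lemma fm_mulVec {h : Matrix (Fin n) (Fin n) ℂ} (hh : SpJ J h) (v w : Fin n → ℂ) : fm J (h *ᵥ v) (h *ᵥ w) = fm J v w := by
  unfold fm
  rw [mulVec_mulVec, ← vecMul_transpose, ← dotProduct_mulVec, mulVec_mulVec, ← Matrix.mul_assoc, hh]

/-- a matrix which preserves the form -/
lemma spJ_of {h : Matrix (Fin n) (Fin n) ℂ} (hh : ∀ v w : Fin n → ℂ, fm J (h *ᵥ v) (h *ᵥ w) = fm J v w) : SpJ J h := by
  unfold SpJ
  ext i j
  have h1 := hh (Pi.single i 1) (Pi.single j 1)
  unfold fm at h1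
  rw [mulVec_mulVec, ← vecMul_transpose, ← dotProduct_mulVec, mulVec_mulVec, ← Matrix.mul_assoc,
    single_one_dotProduct, single_one_dotProduct, mulVec_single_one, mulVec_single_one] at h1
  exact h1

lemma tv_sp (hJ : Jᵀ = -J) (y : Fin n → ℂ) (t : ℂ) : SpJ J (tv J y t) := by
  refine spJ_of fun v w => ?_
  rw [tv_mulVec, tv_mulVec, fm_add_left, fm_add_right, fm_add_right, fm_smul_left, fm_smul_right, fm_smul_left, fm_smul_right,
    fm_self hJ, fm_swap hJ y v]
  ring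

lemma spJ_mul {h h' : Matrix (Fin n) (Fin n) ℂ} (hh : SpJ J h) (hh' : SpJ J h') : SpJ J (h * h') := by
  refine spJ_of fun v w => ?_
  rw [← mulVec_mulVec, ← mulVec_mulVec, fm_mulVec hh, fm_mulVec hh']

lemma spJ_one : SpJ J 1 := by
  refine spJ_of fun v w => ?_
  rw [one_mulVec, one_mulVec]

/-- the form is not degenerate -/
lemma fm_nondeg (hd : J.det ≠ 0) {w : Fin n → ℂ} (hw : w ≠ 0) : ∃ v : Fin n → ℚ, fm J (fun i => (v i : ℂ)) w ≠ 0 := by
  by_contra hcon
  push Not at hcon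
  apply hw
  have h1 : cq J *ᵥ w = 0 := by
    funext i
    have h2 := hcon (Pi.single i 1)
    have h3 : (fun l => ((Pi.single i (1 : ℚ) : Fin n → ℚ) l : ℂ)) = Pi.single i (1 : ℂ) := by
      funext l
      by_cases hl : l = i
      · subst hl
        simp
      · simp [hl]
    rw [h3] at h2
    unfold fm at h2
    rw [single_one_dotProduct] at h2
    exact h2
  have hu : IsUnit (cq J).det := by
    have h1 : (cq J).det = ((J.det : ℚ) : ℂ) := (RingHom.map_det (Rat.castHom ℂ) J).symm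
    rw [h1, isUnit_iff_ne_zero]
    exact_mod_cast hd
  have h2 : (cq J)⁻¹ *ᵥ (cq J *ᵥ w) = 0 := by rw [h1, mulVec_zero]
  rwa [mulVec_mulVec, nonsing_inv_mul _ hu, one_mulVec] at h2

/-- a matrix which vanishes outside a hyperplane is zero -/
lemma zero_of_off (hd : J.det ≠ 0) {y : Fin n → ℂ} (hy : y ≠ 0) {z : Matrix (Fin n) (Fin n) ℂ}
    (hz : ∀ w, fm J w y ≠ 0 → z *ᵥ w = 0) : z = 0 := by
  obtain ⟨v, hv⟩ := fm_nondeg hd hy
  have h1 : ∀ w, z *ᵥ w = 0 := by
    intro w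
    by_cases hw : fm J w y = 0
    · have h2 := hz (w + fun i => (v i : ℂ)) (by rwa [fm_add_left, hw, zero_add])
      rw [mulVec_add, hz _ hv, add_zero] at h2
      exact h2
    · exact hz w hw
  ext i j
  have h2 := congrFun (h1 (Pi.single j 1)) i
  rw [mulVec_single_one] at h2
  exact h2

end

section
variable {ι : Type} [Fintype ι] [DecidableEq ι] {J : Matrix (Fin n) (Fin n) ℚ}

/-- the rank one element in the factor `j` -/
def R (J : Matrix (Fin n) (Fin n) ℚ) (j : ι) (v : Fin n → ℂ) : ι → Matrix (Fin n) (Fin n) ℂ :=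
  Pi.single j (vecMulVec v v * cq J)

/-- the rational rank one element in the factor `j` -/
def Rq (J : Matrix (Fin n) (Fin n) ℚ) (j : ι) (v : Fin n → ℚ) : ι → Matrix (Fin n) (Fin n) ℚ :=
  Pi.single j (vecMulVec v v * J)

/-- the complexification of a vector -/
def cv (v : Fin n → ℚ) : Fin n → ℂ := fun i => (v i : ℂ)

omit [Fintype ι] in
lemma cx_Rq (j : ι) (v : Fin n → ℚ) : cx (Rq J j v) = R J j (cv v) := by
  funext i
  unfold cx Rq R
  by_cases h : i = j
  · subst h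
    rw [Pi.single_eq_same, Pi.single_eq_same, cq_mul]
    congr 1
    ext a b
    simp [cq, cv, vecMulVec_apply]
  · rw [Pi.single_eq_of_ne h, Pi.single_eq_of_ne h, cq_zero]

/-- the coefficients -/
def co (π : (ι → Matrix (Fin n) (Fin n) ℚ) →ₗ[ℚ] (ι → Matrix (Fin n) (Fin n) ℚ)) (J : Matrix (Fin n) (Fin n) ℚ) (j j' : ι)
    (i a m l : Fin n) : ℚ := ∑ b, J m b * π (E j a b) j' i l

lemma expand (π : (ι → Matrix (Fin n) (Fin n) ℚ) →ₗ[ℚ] (ι → Matrix (Fin n) (Fin n) ℚ)) (j j' : ι) (v w : Fin n → ℂ) (i : Fin n) :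
    (piC π (R J j v) j' *ᵥ w) i = cub (co π J j j' i) v v w := by
  have h1 : piC π (R J j v) = ∑ a, ∑ b, (∑ m, v a * v m * (J m b : ℂ)) • cx (π (E j a b)) := by
    show ∑ j1, ∑ a, ∑ b, R J j v j1 a b • cx (π (E j1 a b)) = _
    rw [Finset.sum_eq_single j]
    · refine Finset.sum_congr rfl fun a _ => Finset.sum_congr rfl fun b _ => ?_
      congr 1
      rw [R, Pi.single_eq_same, Matrix.mul_apply]
      refine Finset.sum_congr rfl fun m _ => ?_
      rw [vecMulVec_apply]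
      rfl
    · intro j1 _ hj
      refine Finset.sum_eq_zero fun a _ => Finset.sum_eq_zero fun b _ => ?_
      rw [R, Pi.single_eq_of_ne hj, Matrix.zero_apply, zero_smul]
    · intro h
      exact absurd (Finset.mem_univ _) h
  rw [h1]
  unfold cub co
  simp only [Finset.sum_apply, mulVec, dotProduct, Matrix.sum_apply, Pi.smul_apply, Matrix.smul_apply, smul_eq_mul]
  push_cast
  rw [Finset.sum_congr rfl fun l _ => Finset.sum_mul _ _ _, Finset.sum_comm]
  refine Finset.sum_congr rfl fun a _ => ?_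
  simp only [Finset.sum_mul]
  rw [Finset.sum_congr rfl fun l _ => Finset.sum_comm, Finset.sum_comm]
  refine Finset.sum_congr rfl fun m _ => Finset.sum_congr rfl fun l _ => Finset.sum_congr rfl fun b _ => ?_
  simp only [cx, cq, Matrix.map_apply]
  ring

end

end Pool.Agent.Helper85K9.AH
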