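import Pool.Agent.Y118.HP.Real

/-!
# Riemann's relation for real hyperelliptic curves: a criterion for positivity and the counting of zeros
-/

set_option autoImplicit false

open Set MeasureTheory

namespace Pool.Agent.Helper85K9.AH

open Pool.Agent.Y118.HP

section form
variable {g : ℕ}

/-- the form `∑_{i ≤ j} (-1)^(i+j) α_i(p) β_j(q)` -/
def BF (α β : Fin g → (Fin g → ℝ) →ₗ[ℝ] ℝ) (p q : Fin g → ℝ) : ℝ :=
  ∑ i : Fin g, ∑ j : Fin g, if i ≤ j then (-1) ^ ((i : ℕ) + (j : ℕ)) * (α i p * β j q) else 0

lemma BF_add_left (α β : Fin g → (Fin g → ℝ) →ₗ[ℝ] ℝ) (p p' q : Fin g → ℝ) :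
    BF α β (p + p') q = BF α β p q + BF α β p' q := by
  unfold BF
  rw [← Finset.sum_add_distrib]
  refine Finset.sum_congr rfl fun i _ => ?_
  rw [← Finset.sum_add_distrib]
  refine Finset.sum_congr rfl fun j _ => ?_
  split_ifs
  · rw [map_add]
    ring
  · ring

lemma BF_add_right (α β : Fin g → (Fin g → ℝ) →ₗ[ℝ] ℝ) (p q q' : Fin g → ℝ) :
    BF α β p (q + q') = BF α β p q + BF α β p q' := by
  unfold BF
  rw [← Finset.sum_add_distrib]
  refine Finset.sum_congr rfl fun i _ => ?_
  rw [← Finset.sum_add_distrib]
  refine Finset.sum_congr rfl fun j _ => ?_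
  split_ifs
  · rw [map_add]
    ring
  · ring

/-- a criterion for positivity -/
theorem pos_form (α β : Fin g → (Fin g → ℝ) →ₗ[ℝ] ℝ) (hS : ∀ p q, BF α β p q = BF α β q p)
    (hZ : ∀ k : Fin g, ∀ u : Fin g → ℝ, (∀ i, i ≤ k → α i u = 0) → (∀ j, k < j → β j u = 0) → u = 0)
    (hP : ∀ k : Fin g, ∀ u : Fin g → ℝ, u ≠ 0 → (∀ i, i < k → α i u = 0) → (∀ j, k < j → β j u = 0) →
      0 < α k u * β k u) (p : Fin g → ℝ) (hp : p ≠ 0) : 0 < BF α β p p := by
  have key : ∀ d : ℕ, d ≤ g → ∀ p : Fin g → ℝ, (∀ i : Fin g, (i : ℕ) < g - d → α i p = 0) → p ≠ 0 → 0 < BF α β p p := by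
    intro d
    induction d with
    | zero =>
      intro _ p hα hp0
      exfalso
      rcases Nat.eq_zero_or_pos g with h0 | h0
      · subst h0
        exact hp0 (Subsingleton.elim _ _)
      · exact hp0 (hZ ⟨g - 1, by omega⟩ p (fun i _ => hα i (by have := i.2; omega)) (fun j hj => by
          have h1 : g - 1 < (j : ℕ) := hj
          have := j.2
          omega))
    | succ d ih =>
      intro hd p hα hp0
      set k : Fin g := ⟨g - (d + 1), by omega⟩ with hk
      by_cases hk0 : α k p = 0
      · refine ih (by omega) p (fun i hi => ?_) hp0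
        rcases Nat.lt_or_ge (i : ℕ) (g - (d + 1)) with h1 | h1
        · exact hα i h1
        · have h2 : i = k := Fin.ext (by
            show (i : ℕ) = g - (d + 1)
            omega)
          rw [h2]
          exact hk0
      · -- the map to the functionals
        let L : (Fin g → ℝ) →ₗ[ℝ] (Fin g → ℝ) := LinearMap.pi fun i => if i ≤ k then α i else β i
        have hL : ∀ u i, L u i = if i ≤ k then α i u else β i u := by
          intro u i
          show (if i ≤ k then α i else β i) u = _
          split_ifs <;> rfl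
        have hinj : Function.Injective L := by
          rw [← LinearMap.ker_eq_bot, LinearMap.ker_eq_bot']
          intro u hu
          refine hZ k u (fun i hi => ?_) (fun j hj => ?_)
          · have h1 := congrFun hu i
            rw [hL, if_pos hi] at h1
            exact h1
          · have h1 := congrFun hu j
            rw [hL, if_neg (not_le.2 hj)] at h1
            exact h1
        have hsurj : Function.Surjective L := LinearMap.injective_iff_surjective.1 hinj
        obtain ⟨u, hu⟩ := hsurj (Pi.single k (α k p))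
        have hu1 : ∀ i, i < k → α i u = 0 := by
          intro i hi
          have h1 := congrFun hu i
          rwa [hL, if_pos hi.le, Pi.single_eq_of_ne hi.ne] at h1
        have hu2 : α k u = α k p := by
          have h1 := congrFun hu k
          rwa [hL, if_pos le_rfl, Pi.single_eq_same] at h1
        have hu3 : ∀ j, k < j → β j u = 0 := by
          intro j hj
          have h1 := congrFun hu j
          rwa [hL, if_neg (not_le.2 hj), Pi.single_eq_of_ne hj.ne'] at h1
        have hu0 : u ≠ 0 := by
          rintro rfl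
          apply hk0
          rw [← hu2, map_zero]
        set q := p - u with hq
        have hq1 : ∀ i, i ≤ k → α i q = 0 := by
          intro i hi
          rw [hq, map_sub]
          rcases lt_or_eq_of_le hi with h1 | h1
          · rw [hu1 i h1, hα i h1, sub_zero]
          · rw [h1, hu2, sub_self]
        have hqu : BF α β q u = 0 := by
          unfold BF
          refine Finset.sum_eq_zero fun i _ => Finset.sum_eq_zero fun j _ => ?_
          split_ifs with hij
          · rcases le_or_gt i k with h1 | h1
            · rw [hq1 i h1, zero_mul, mul_zero]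
            · rw [hu3 j (lt_of_lt_of_le h1 hij), mul_zero, mul_zero]
          · rfl
        have huu : BF α β u u = α k u * β k u := by
          unfold BF
          rw [Finset.sum_eq_single k, Finset.sum_eq_single k]
          · rw [if_pos le_rfl, ← two_mul, pow_mul]
            simp
          · intro j _ hj
            split_ifs with h1
            · rw [hu3 j (lt_of_le_of_ne h1 (Ne.symm hj)), mul_zero, mul_zero]
            · rfl
          · intro h
            exact absurd (Finset.mem_univ _) h
          · intro i _ hi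
            refine Finset.sum_eq_zero fun j _ => ?_
            split_ifs with hij
            · rcases lt_or_gt_of_ne hi with h1 | h1
              · rw [hu1 i h1, zero_mul, mul_zero]
              · rw [hu3 j (lt_of_lt_of_le h1 hij), mul_zero, mul_zero]
            · rfl
          · intro h
            exact absurd (Finset.mem_univ _) h
        have hdec : p = q + u := by
          rw [hq]
          abel
        have h1 : BF α β p p = BF α β q q + BF α β u u := by
          rw [hdec, BF_add_left, BF_add_right, BF_add_right, hqu, hS u q, hqu]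
          ring
        rw [h1]
        have h2 := hP k u hu0 hu1 hu3
        rw [← huu] at h2
        have h3 : 0 ≤ BF α β q q := by
          by_cases hq0 : q = 0
          · rw [hq0]
            unfold BF
            refine Finset.sum_nonneg fun i _ => Finset.sum_nonneg fun j _ => ?_
            split_ifs <;> simp
          · refine (ih (by omega) q (fun i hi => hq1 i ?_) hq0).le
            show (i : ℕ) ≤ g - (d + 1)
            omega
        linarith
  exact key g le_rfl p (fun i hi => by omega) hp

end form

section zeros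
variable {n : ℕ}

/-- the integral of `p dx / √|F|` over a gap -/
noncomputable def aL (e : Fin (n + 1) → ℝ) (l : Fin n) (p : Polynomial ℝ) : ℝ :=
  ∫ θ in (0 : ℝ)..(Real.pi / 2), 2 * (p.eval (xs e l θ) / √(Wf e l (xs e l θ)))

lemma aL_cont {e : Fin (n + 1) → ℝ} (he : StrictMono e) (l : Fin n) (p : Polynomial ℝ) :
    Continuous fun θ => 2 * (p.eval (xs e l θ) / √(Wf e l (xs e l θ))) := by
  have h1 := continuous_xs e l
  have h2 := (continuous_Wf e l).comp h1
  refine continuous_const.mul ((p.continuous.comp h1).div (Real.continuous_sqrt.comp h2) fun θ => ?_)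
  have hx := xs_mem he l θ
  exact (Real.sqrt_pos.2 (Wf_pos he hx.1 hx.2)).ne'

lemma xs_Ioo {e : Fin (n + 1) → ℝ} (he : StrictMono e) (l : Fin n) {θ : ℝ} (hθ : θ ∈ Ioo 0 (Real.pi / 2)) :
    xs e l θ ∈ Ioo (e l.castSucc) (e l.succ) := by
  rw [← image_xs he l]
  exact ⟨θ, hθ, rfl⟩

lemma aL_pos {e : Fin (n + 1) → ℝ} (he : StrictMono e) (l : Fin n) {p : Polynomial ℝ}
    (hp : ∀ x ∈ Ioo (e l.castSucc) (e l.succ), 0 < p.eval x) : 0 < aL e l p := by
  refine intervalIntegral.intervalIntegral_pos_of_pos_on ((aL_cont he l p).intervalIntegrable _ _) (fun θ hθ => ?_)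
    (by positivity)
  have hx := xs_mem he l θ
  exact mul_pos two_pos (div_pos (hp _ (xs_Ioo he l hθ)) (Real.sqrt_pos.2 (Wf_pos he hx.1 hx.2)))

lemma aL_neg_eq (e : Fin (n + 1) → ℝ) (l : Fin n) (p : Polynomial ℝ) : aL e l (-p) = -aL e l p := by
  unfold aL
  rw [← intervalIntegral.integral_neg]
  refine intervalIntegral.integral_congr fun θ _ => ?_
  simp only [Polynomial.eval_neg]
  ring

lemma aL_neg {e : Fin (n + 1) → ℝ} (he : StrictMono e) (l : Fin n) {p : Polynomial ℝ}
    (hp : ∀ x ∈ Ioo (e l.castSucc) (e l.succ), p.eval x < 0) : aL e l p < 0 := by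
  have h1 := aL_pos he l (p := -p) fun x hx => by
    rw [Polynomial.eval_neg]
    linarith [hp x hx]
  rw [aL_neg_eq] at h1
  linarith

lemma sign_const {p : Polynomial ℝ} {A B : ℝ} (h : ∀ x ∈ Ioo A B, p.eval x ≠ 0) :
    (∀ x ∈ Ioo A B, 0 < p.eval x) ∨ ∀ x ∈ Ioo A B, p.eval x < 0 := by
  by_contra hcon
  rw [not_or] at hcon
  obtain ⟨h1, h2⟩ := hcon
  push Not at h1 h2
  obtain ⟨x, hx, hpx⟩ := h1
  obtain ⟨y, hy, hpy⟩ := h2
  have h3 := isPreconnected_Ioo.intermediate_value hx hy p.continuous.continuousOn
  obtain ⟨z, hz, hz0⟩ := h3 ⟨hpx, hpy⟩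
  exact h z hz hz0

lemma aL_root {e : Fin (n + 1) → ℝ} (he : StrictMono e) (l : Fin n) {p : Polynomial ℝ} (hp : aL e l p = 0) :
    ∃ x ∈ Ioo (e l.castSucc) (e l.succ), p.eval x = 0 := by
  by_contra hcon
  push Not at hcon
  rcases sign_const hcon with h | h
  · exact (aL_pos he l h).ne' hp
  · exact (aL_neg he l h).ne hp

/-- too many zeros -/
lemma roots_zero {e : Fin (n + 1) → ℝ} (he : StrictMono e) {g : ℕ} {p : Polynomial ℝ} (hd : p.natDegree < g)
    (lo hi : Fin g → Fin (n + 1)) (hlo : ∀ i i', i < i' → hi i ≤ lo i')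
    (h : ∀ i, ∃ x ∈ Ioo (e (lo i)) (e (hi i)), p.eval x = 0) : p = 0 := by
  choose x hx hx0 using h
  refine Polynomial.eq_zero_of_natDegree_lt_card_of_eval_eq_zero p (f := x) ?_ hx0 (by rwa [Fintype.card_fin])
  have hm : StrictMono x := fun i i' hii => by
    have h1 := (hx i).2
    have h2 := (hx i').1
    have h3 := he.monotone (hlo i i' hii)
    linarith
  exact hm.injective

end zeros

end Pool.Agent.Helper85K9.AH
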