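import Pool.Agent.Helper85K9.AH.Fib
import Pool.Agent.Y118.HG.Kx

/-!
# Torsors and windows
-/

set_option autoImplicit false

open Matrix

namespace Pool.Agent.Helper85K9.AH

open Pool.Agent.Y113.MT (cq)
open Pool.Agent.Y118.HP Pool.Agent.Y118.HG
open Polynomial (X C)

variable {n N : ℕ}

lemma cq_map (M : Matrix (Fin n) (Fin n) ℚ) : M.map (algebraMap ℚ ℂ) = cq M := by
  ext i j
  simp [cq]

lemma bm_eq' : bm ℚ n = (-2 : ℚ) • jm ℚ n := by
  ext r s
  rw [Matrix.smul_apply, jm_apply]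
  unfold bm
  rw [Matrix.of_apply]
  split_ifs <;> simp

lemma bm_det (hn : Even n) : (bm ℚ n).det ≠ 0 := by
  rw [bm_eq', Matrix.det_smul]
  exact mul_ne_zero (pow_ne_zero _ (by norm_num)) (jm_det hn)

lemma bm_skew : (bm ℚ n)ᵀ = -bm ℚ n := by
  rw [bm_eq', Matrix.transpose_smul, jm_transpose, smul_neg]

/-- the polarisation -/
noncomputable def AA (n : ℕ) : Matrix (Fin n) (Fin n) ℚ := (bm ℚ n)⁻¹

lemma AA_mul (hn : Even n) : AA n * bm ℚ n = 1 := Matrix.nonsing_inv_mul _ (isUnit_iff_ne_zero.2 (bm_det hn))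

lemma mul_AA (hn : Even n) : bm ℚ n * AA n = 1 := Matrix.mul_nonsing_inv _ (isUnit_iff_ne_zero.2 (bm_det hn))

lemma AA_skew (hn : Even n) : (AA n)ᵀ = -AA n := by
  unfold AA
  rw [transpose_nonsing_inv, bm_skew]
  apply inv_eq_right_inv
  rw [neg_mul_neg, Matrix.mul_nonsing_inv _ (isUnit_iff_ne_zero.2 (bm_det hn))]

lemma AA_det (hn : Even n) : (AA n).det ≠ 0 := by
  intro h0
  have h1 := congrArg Matrix.det (AA_mul hn)
  rw [Matrix.det_mul, h0, zero_mul, Matrix.det_one] at h1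
  exact zero_ne_one h1

lemma cq_det' (M : Matrix (Fin n) (Fin n) ℚ) : (cq M).det = ((M.det : ℚ) : ℂ) :=
  (RingHom.map_det (Rat.castHom ℂ) M).symm

/-- one torsor equation -/
def TorEq (F : Polynomial ℚ) (P : Matrix (Fin n) (Fin n) ℂ) (lam : ℂ) : Prop :=
  P * cq (qm n F) * Pᵀ = lam • cq (bm ℚ n)

lemma tor_det (hn : Even n) {F : Polynomial ℚ} {P : Matrix (Fin n) (Fin n) ℂ} {lam : ℂ} (hl : lam ≠ 0)
    (h : TorEq F P lam) : P.det ≠ 0 := by
  intro h0
  have h1 := congrArg Matrix.det (show P * cq (qm n F) * Pᵀ = lam • cq (bm ℚ n) from h)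
  rw [Matrix.det_mul, Matrix.det_mul, h0, zero_mul, zero_mul, Matrix.det_smul, cq_det'] at h1
  have h2 : (((bm ℚ n).det : ℚ) : ℂ) ≠ 0 := by exact_mod_cast bm_det hn
  exact mul_ne_zero (pow_ne_zero _ hl) h2 h1.symm

/-- the holomorphic forms are isotropic -/
lemma tor_iso (hn : Even n) {F : Polynomial ℚ} {P : Matrix (Fin n) (Fin n) ℂ} {lam : ℂ} (hl : lam ≠ 0)
    (h : TorEq F P lam) (hF : F.coeff (n + 1) = 1) (hF' : ∀ k, n + 1 < k → F.coeff k = 0) : Iso P (AA n) := by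
  have hP := tor_det hn hl h
  have hu := isUnit_iff_ne_zero.2 hP
  set M := Pᵀ * cq (AA n) * P with hM
  set Q := cq (qm n F) with hQ
  have hQM : Q * M = lam • 1 := by
    have h1 : P * (Q * M) = P * (lam • 1) := by
      calc P * (Q * M) = (P * Q * Pᵀ) * cq (AA n) * P := by rw [hM]; simp only [Matrix.mul_assoc]
        _ = lam • (cq (bm ℚ n) * cq (AA n)) * P := by
          rw [show P * Q * Pᵀ = lam • cq (bm ℚ n) from h, Matrix.smul_mul]
        _ = P * (lam • 1) := by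
          rw [← cq_mul, mul_AA hn, cq_one, Matrix.mul_smul, Matrix.mul_one, Matrix.smul_mul, Matrix.one_mul]
    have h2 := congrArg (fun X => P⁻¹ * X) h1
    simp only [← Matrix.mul_assoc] at h2
    rw [Matrix.nonsing_inv_mul _ hu, Matrix.one_mul, Matrix.one_mul] at h2
    exact h2
  have key : ∀ k : ℕ, ∀ hk : k < n, 2 * k < n → ∀ j' : Fin n, 2 * (j' : ℕ) < n → M ⟨k, hk⟩ j' = 0 := by
    intro k
    induction k using Nat.strong_induction_on with
    | _ k ih =>
      intro hk hk2 j' hj'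
      have h1 := congrFun (congrFun hQM ⟨n - 1 - k, by omega⟩) j'
      rw [Matrix.mul_apply, Matrix.smul_apply, Matrix.one_apply_ne (by
        intro h2
        have h3 := congrArg Fin.val h2
        simp only at h3
        obtain ⟨g, hg⟩ := hn
        omega), smul_zero, Finset.sum_eq_single (⟨k, hk⟩ : Fin n)] at h1
      · have h2 : Q ⟨n - 1 - k, by omega⟩ ⟨k, hk⟩ ≠ 0 := by
          rw [hQ]
          show (((qm n F ⟨n - 1 - k, by omega⟩ ⟨k, hk⟩ : ℚ)) : ℂ) ≠ 0
          unfold qm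
          rw [Matrix.of_apply]
          simp only
          rw [show n - 1 - k + k + 2 = n + 1 by omega, hF]
          have h3 : (((n - 1 - k : ℕ) : ℚ) - (k : ℚ)) ≠ 0 := by
            rw [sub_ne_zero]
            intro h4
            have h5 : n - 1 - k = k := by exact_mod_cast h4
            obtain ⟨g, hg⟩ := hn
            omega
          have h4 : (((n - 1 - k : ℕ) : ℚ) - (k : ℚ)) / 2 * 1 ≠ 0 := by
            rw [mul_one]
            exact div_ne_zero h3 two_ne_zero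
          exact_mod_cast h4
        exact (mul_eq_zero.1 h1).resolve_left h2
      · intro b _ hb
        rcases Nat.lt_or_ge (b : ℕ) k with hbk | hbk
        · rw [ih b hbk b.2 (by omega) j' hj', mul_zero]
        · have hbk' : k < (b : ℕ) := lt_of_le_of_ne hbk fun h2 => hb (Fin.ext h2.symm)
          have h2 : Q ⟨n - 1 - k, by omega⟩ b = 0 := by
            rw [hQ]
            show (((qm n F ⟨n - 1 - k, by omega⟩ b : ℚ)) : ℂ) = 0
            unfold qm
            rw [Matrix.of_apply]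
            simp only
            rw [hF' (n - 1 - k + (b : ℕ) + 2) (by omega), mul_zero, Rat.cast_zero]
          rw [h2, zero_mul]
      · intro h2
        exact absurd (Finset.mem_univ _) h2
  intro j j' hj hj'
  have h1 := key j j.2 hj j' hj'
  have h2 : M j j' = Pᵀ j ⬝ᵥ (cq (AA n) *ᵥ Pᵀ j') := by
    rw [hM, Matrix.mul_assoc, Matrix.mul_apply]
    simp only [dotProduct, mulVec, Matrix.mul_apply, Matrix.transpose_apply]
  rw [← h2]
  exact h1

/-- the linear forms -/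
noncomputable def lf (A : Matrix (Fin n) (Fin n) ℚ) (i : Fin N) (a b : Fin n) :
    MvPolynomial (Option (Fin N × Fin n × Fin n)) ℚ :=
  ∑ r, MvPolynomial.C (A a r) * MvPolynomial.X (some (i, r, b))

lemma lf_deg (A : Matrix (Fin n) (Fin n) ℚ) (i : Fin N) (a b : Fin n) : (lf A i a b).totalDegree ≤ 1 := by
  unfold lf
  refine MvPolynomial.totalDegree_finsetSum_le fun r _ => ?_
  refine (MvPolynomial.totalDegree_mul _ _).trans ?_
  rw [MvPolynomial.totalDegree_C, zero_add, MvPolynomial.totalDegree_X]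

lemma lf_eval (A : Matrix (Fin n) (Fin n) ℚ) (i : Fin N) (a b : Fin n) (Y : Fin N → Matrix (Fin n) (Fin n) ℂ) (lam : ℂ) :
    ((lf A i a b).map (algebraMap ℚ ℂ)).eval (pt Y lam) = (cq A * Y i) a b := by
  unfold lf
  rw [map_sum, map_sum, Matrix.mul_apply]
  refine Finset.sum_congr rfl fun r _ => ?_
  rw [map_mul, map_mul, MvPolynomial.map_C, MvPolynomial.map_X, MvPolynomial.eval_C, MvPolynomial.eval_X]
  simp only [cq, Matrix.map_apply, pt, Option.elim, eq_ratCast]

/-- the cubic polynomials -/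
noncomputable def cf (A : Matrix (Fin n) (Fin n) ℚ) (c : Fin n → Fin n → Fin n → ℚ) (i i' : Fin N) (b b' b'' : Fin n) :
    MvPolynomial (Option (Fin N × Fin n × Fin n)) ℚ :=
  ∑ a, ∑ m, ∑ l, MvPolynomial.C (c a m l) * (lf A i a b * lf A i m b' * lf A i' l b'')

lemma cf_deg (A : Matrix (Fin n) (Fin n) ℚ) (c : Fin n → Fin n → Fin n → ℚ) (i i' : Fin N) (b b' b'' : Fin n) :
    (cf A c i i' b b' b'').totalDegree ≤ 3 := by
  unfold cf
  refine MvPolynomial.totalDegree_finsetSum_le fun a _ => MvPolynomial.totalDegree_finsetSum_le fun m _ =>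
    MvPolynomial.totalDegree_finsetSum_le fun l _ => ?_
  refine (MvPolynomial.totalDegree_mul _ _).trans ?_
  rw [MvPolynomial.totalDegree_C, zero_add]
  refine (MvPolynomial.totalDegree_mul _ _).trans ?_
  have h1 := MvPolynomial.totalDegree_mul (lf A i a b) (lf A i m b')
  have h2 := lf_deg A i a b
  have h3 := lf_deg A i m b'
  have h4 := lf_deg A i' l b''
  omega

lemma cf_eval (A : Matrix (Fin n) (Fin n) ℚ) (c : Fin n → Fin n → Fin n → ℚ) (i i' : Fin N) (b b' b'' : Fin n)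
    (Y : Fin N → Matrix (Fin n) (Fin n) ℂ) (lam : ℂ) :
    ((cf A c i i' b b' b'').map (algebraMap ℚ ℂ)).eval (pt Y lam) =
      cub c ((cq A * Y i)ᵀ b) ((cq A * Y i)ᵀ b') ((cq A * Y i')ᵀ b'') := by
  unfold cf cub
  rw [map_sum, map_sum]
  refine Finset.sum_congr rfl fun a _ => ?_
  rw [map_sum, map_sum]
  refine Finset.sum_congr rfl fun m _ => ?_
  rw [map_sum, map_sum]
  refine Finset.sum_congr rfl fun l _ => ?_
  rw [map_mul, map_mul, map_mul, map_mul, map_mul, map_mul, lf_eval, lf_eval, lf_eval, MvPolynomial.map_C,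
    MvPolynomial.eval_C, eq_ratCast]
  rfl

lemma tor_act {B A g P Q : Matrix (Fin n) (Fin n) ℂ} {lam : ℂ} (hAB : A * B = 1) (hBA : B * A = 1) (hBs : Bᵀ = -B)
    (hAs : Aᵀ = -A) (hg : gᵀ * B * g = B) (h : P * Q * Pᵀ = lam • B) :
    (B * g * A * P) * Q * (B * g * A * P)ᵀ = lam • B := by
  have h4 : (A * gᵀ * B) * g = 1 := by
    calc (A * gᵀ * B) * g = A * (gᵀ * B * g) := by simp only [Matrix.mul_assoc]
      _ = 1 := by rw [hg, hAB]
  have h5 : g * (A * gᵀ * B) = 1 := mul_eq_one_comm.1 h4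
  have h2 : g * A * gᵀ = A := by
    calc g * A * gᵀ = g * A * gᵀ * (B * A) := by rw [hBA, Matrix.mul_one]
      _ = g * (A * gᵀ * B) * A := by simp only [Matrix.mul_assoc]
      _ = A := by rw [h5, Matrix.one_mul]
  calc (B * g * A * P) * Q * (B * g * A * P)ᵀ = B * g * A * (P * Q * Pᵀ) * Aᵀ * gᵀ * Bᵀ := by
        simp only [Matrix.transpose_mul, Matrix.mul_assoc]
    _ = lam • (B * g * A * B * A * gᵀ * B) := by
        rw [h, hAs, hBs]
        simp only [Matrix.mul_smul, Matrix.smul_mul, Matrix.mul_neg, Matrix.neg_mul, neg_neg]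
    _ = lam • (B * (g * (A * B) * A * gᵀ) * B) := by simp only [Matrix.mul_assoc]
    _ = lam • B := by rw [hAB, Matrix.mul_one, h2, hBA, Matrix.one_mul]

/-- the relations on the torsor -/
lemma rel (hn : Even n) {F : Fin N → Polynomial ℚ} {P : Fin N → Matrix (Fin n) (Fin n) ℂ} {lam : ℂ} (hl : lam ≠ 0)
    (hx : ∀ j, TorEq (F j) (P j) lam) (hD : DG F (pt P lam) 1 3) (i i' : Fin N) (c : Fin n → Fin n → Fin n → ℚ)
    (b b' b'' : Fin n) (h0 : cub c ((cq (AA n) * P i)ᵀ b) ((cq (AA n) * P i)ᵀ b') ((cq (AA n) * P i')ᵀ b'') = 0)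
    (g : Fin N → Matrix (Fin n) (Fin n) ℂ) (hg : ∀ j, SpJ (bm ℚ n) (g j)) :
    cub c (g i *ᵥ (cq (AA n) * P i)ᵀ b) (g i *ᵥ (cq (AA n) * P i)ᵀ b') (g i' *ᵥ (cq (AA n) * P i')ᵀ b'') = 0 := by
  have hAB : cq (AA n) * cq (bm ℚ n) = 1 := by rw [← cq_mul, AA_mul hn, cq_one]
  have hBA : cq (bm ℚ n) * cq (AA n) = 1 := by rw [← cq_mul, mul_AA hn, cq_one]
  have hbs : (cq (bm ℚ n))ᵀ = -cq (bm ℚ n) := by
    rw [← cq_tr, bm_skew]
    ext i j
    simp [cq]
  have has : (cq (AA n))ᵀ = -cq (AA n) := by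
    rw [← cq_tr, AA_skew hn]
    ext i j
    simp [cq]
  have hmem : ((fun j => cq (bm ℚ n) * g j * cq (AA n) * P j), lam) ∈ TorF (n := n) F := by
    refine ⟨hl, fun j => ?_⟩
    rw [cq_map, cq_map]
    exact tor_act hAB hBA hbs has (hg j) (hx j)
  have h1 := hD ℚ (algebraMap ℚ ℂ) (cf (AA n) c i i' b b' b'') (by simp) (cf_deg _ _ _ _ _ _ _) (by rw [cf_eval]; exact h0)
    _ hmem
  rw [cf_eval] at h1
  have h2 : ∀ j, cq (AA n) * (cq (bm ℚ n) * g j * cq (AA n) * P j) = g j * (cq (AA n) * P j) := by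
    intro j
    calc cq (AA n) * (cq (bm ℚ n) * g j * cq (AA n) * P j) = (cq (AA n) * cq (bm ℚ n)) * g j * (cq (AA n) * P j) := by
          simp only [Matrix.mul_assoc]
      _ = _ := by rw [hAB, Matrix.one_mul]
  have h3 : ∀ j b, (cq (AA n) * (cq (bm ℚ n) * g j * cq (AA n) * P j))ᵀ b = g j *ᵥ (cq (AA n) * P j)ᵀ b := by
    intro j b
    rw [h2]
    funext l
    rw [Matrix.transpose_apply, Matrix.mul_apply]
    rfl
  rw [← h3, ← h3, ← h3]
  exact h1

end Pool.Agent.Helper85K9.AH
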