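import Pool.Agent.Helper85K9.AH.Rie
import Pool.Agent.Helper85K9.AH.Win

/-!
# Riemann's relation for real hyperelliptic curves
-/

set_option autoImplicit false

open Matrix

namespace Pool.Agent.Helper85K9.AH

open Pool.Agent.Y113.MT (cq)
open Pool.Agent.Y118.HP

/-- the entries of the inverse of the intersection matrix -/
def fn (l m : ℕ) : ℚ :=
  if l % 2 = 0 ∧ m % 2 = 1 ∧ l < m then -(1 / 2) * (-1) ^ (l / 2 + m / 2)
  else if l % 2 = 1 ∧ m % 2 = 0 ∧ m < l then (1 / 2) * (-1) ^ (l / 2 + m / 2) else 0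

lemma fn_ev_od (a b : ℕ) : fn (2 * a) (2 * b + 1) = if a ≤ b then -(1 / 2) * (-1) ^ (a + b) else 0 := by
  unfold fn
  by_cases h : a ≤ b
  · rw [if_pos ⟨by omega, by omega, by omega⟩, if_pos h, show 2 * a / 2 + (2 * b + 1) / 2 = a + b by omega]
  · rw [if_neg (by omega), if_neg (by omega), if_neg h]

lemma fn_od_ev (a b : ℕ) : fn (2 * a + 1) (2 * b) = if b ≤ a then (1 / 2) * (-1) ^ (a + b) else 0 := by
  unfold fn
  by_cases h : b ≤ a
  · rw [if_neg (by omega), if_pos ⟨by omega, by omega, by omega⟩, if_pos h,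
      show (2 * a + 1) / 2 + 2 * b / 2 = a + b by omega]
  · rw [if_neg (by omega), if_neg (by omega), if_neg h]

lemma fn_ev_ev (a b : ℕ) : fn (2 * a) (2 * b) = 0 := by
  unfold fn
  rw [if_neg (by omega), if_neg (by omega)]

lemma fn_od_od (a b : ℕ) : fn (2 * a + 1) (2 * b + 1) = 0 := by
  unfold fn
  rw [if_neg (by omega), if_neg (by omega)]

/-- the inverse of the intersection matrix -/
def AI (n : ℕ) : Matrix (Fin n) (Fin n) ℚ := Matrix.of fun l m => fn l m

lemma bm_AI {n : ℕ} (hn : Even n) : bm ℚ n * AI n = 1 := by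
  ext r m
  have h1 : (bm ℚ n * AI n) r m = (bm ℚ n *ᵥ fun l => fn l m) r := by
    rw [Matrix.mul_apply]
    rfl
  have hext : ∀ i : ℕ, ext0 (fun l : Fin n => fn (l : ℕ) (m : ℕ)) i = if i < n then fn i m else 0 := by
    intro i
    unfold ext0
    split_ifs <;> rfl
  rw [h1, bm_eq', smul_mulVec, Pi.smul_apply, jm_mulVec, hext, hext, smul_eq_mul]
  obtain ⟨g, hg⟩ := hn
  have hr := r.2
  have hm := m.2
  have hone : (1 : Matrix (Fin n) (Fin n) ℚ) r m = if (r : ℕ) = m then 1 else 0 := by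
    rw [Matrix.one_apply]
    by_cases h : r = m
    · rw [if_pos h, if_pos (congrArg Fin.val h)]
    · rw [if_neg h, if_neg fun h2 => h (Fin.ext h2)]
  rw [hone]
  generalize (r : ℕ) = R at *
  generalize (m : ℕ) = M at *
  rcases Nat.even_or_odd' R with ⟨a, rfl | rfl⟩
  · rcases Nat.even_or_odd' M with ⟨b, rfl | rfl⟩
    · rw [if_pos (show 2 * a + 1 < n by omega), fn_od_ev]
      rcases Nat.eq_zero_or_pos a with ha | ha
      · subst ha
        rw [if_pos (by ring)]
        by_cases hb : b = 0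
        · subst hb
          simp
        · rw [if_neg (by omega), if_neg (by omega)]
          ring
      · obtain ⟨a', rfl⟩ : ∃ a', a = a' + 1 := ⟨a - 1, by omega⟩
        rw [if_neg (by omega), if_pos (by omega), show 2 * (a' + 1) - 1 = 2 * a' + 1 by omega, fn_od_ev]
        rcases lt_trichotomy b (a' + 1) with hb | hb | hb
        · rw [if_pos (by omega), if_pos (by omega), if_neg (by omega)]
          ring
        · subst hb
          rw [if_neg (by omega), if_pos le_rfl, if_pos rfl, ← two_mul, pow_mul]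
          norm_num
        · rw [if_neg (by omega), if_neg (by omega), if_neg (by omega)]
          ring
    · rw [if_pos (show 2 * a + 1 < n by omega), fn_od_od, if_neg (show ¬ 2 * a = 2 * b + 1 by omega)]
      rcases Nat.eq_zero_or_pos a with ha | ha
      · subst ha
        rw [if_pos (by ring)]
        ring
      · obtain ⟨a', rfl⟩ : ∃ a', a = a' + 1 := ⟨a - 1, by omega⟩
        rw [if_neg (by omega), if_pos (by omega), show 2 * (a' + 1) - 1 = 2 * a' + 1 by omega, fn_od_od]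
        ring
  · rw [if_neg (show ¬ 2 * a + 1 = 0 by omega), if_pos (show 2 * a + 1 - 1 < n by omega),
      show 2 * a + 1 - 1 = 2 * a by omega, show 2 * a + 1 + 1 = 2 * (a + 1) by ring]
    rcases Nat.even_or_odd' M with ⟨b, rfl | rfl⟩
    · rw [fn_ev_ev, fn_ev_ev, if_neg (show ¬ 2 * a + 1 = 2 * b by omega)]
      split_ifs <;> ring
    · rw [fn_ev_od, fn_ev_od]
      have hpow : (-(-1 : ℚ) ^ (2 * a + 1)) = 1 := by
        rw [pow_succ, pow_mul]
        norm_num
      rw [hpow]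
      rcases lt_trichotomy a b with hb | hb | hb
      · rw [if_pos hb.le, if_pos (show 2 * (a + 1) < n by omega), if_pos (show a + 1 ≤ b by omega),
          if_neg (show ¬ 2 * a + 1 = 2 * b + 1 by omega)]
        ring
      · subst hb
        rw [if_pos le_rfl, if_neg (show ¬ a + 1 ≤ a by omega), if_pos rfl, ← two_mul, pow_mul]
        split_ifs <;> norm_num
      · rw [if_neg (show ¬ a ≤ b by omega), if_neg (show ¬ a + 1 ≤ b by omega),
          if_neg (show ¬ 2 * a + 1 = 2 * b + 1 by omega)]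
        split_ifs <;> ring

lemma AA_eq {n : ℕ} (hn : Even n) : AA n = AI n := Matrix.inv_eq_right_inv (bm_AI hn)

section
variable {n g : ℕ} (hg : n = 2 * g)

/-- even places -/
def ev (i : Fin g) : Fin n := ⟨2 * (i : ℕ), by have := i.2; omega⟩

/-- odd places -/
def od (i : Fin g) : Fin n := ⟨2 * (i : ℕ) + 1, by have := i.2; omega⟩

/-- the forms -/
def kp (i : Fin g) : Fin n := ⟨i, by have := i.2; omega⟩

/-- pairs of places -/
def e2 : Fin g × Fin 2 ≃ Fin n where
  toFun x := ⟨2 * (x.1 : ℕ) + (x.2 : ℕ), by have := x.1.2; have := x.2.2; omega⟩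
  invFun l := (⟨(l : ℕ) / 2, by have := l.2; omega⟩, ⟨(l : ℕ) % 2, Nat.mod_lt _ two_pos⟩)
  left_inv := by
    rintro ⟨i, ε⟩
    have h1 := i.2
    have h2 := ε.2
    refine Prod.ext (Fin.ext ?_) (Fin.ext ?_)
    · show (2 * (i : ℕ) + (ε : ℕ)) / 2 = i
      omega
    · show (2 * (i : ℕ) + (ε : ℕ)) % 2 = ε
      omega
  right_inv := by
    intro l
    refine Fin.ext ?_
    show 2 * ((l : ℕ) / 2) + (l : ℕ) % 2 = l
    omega

lemma sum_eo {M : Type*} [AddCommMonoid M] (F : Fin n → M) : ∑ l, F l = ∑ i : Fin g, (F (ev hg i) + F (od hg i)) := by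
  rw [← Equiv.sum_comp (e2 hg), Fintype.sum_prod_type]
  refine Finset.sum_congr rfl fun i _ => ?_
  rw [Fin.sum_univ_two]
  rfl

/-- the form in terms of the even and odd places -/
lemma form_eo (x y : Fin n → ℂ) : x ⬝ᵥ (cq (AA n) *ᵥ y) = ∑ i : Fin g, ∑ j : Fin g,
    if i ≤ j then (-1) ^ ((i : ℕ) + (j : ℕ)) * ((1 / 2) * (x (od hg j) * y (ev hg i) - x (ev hg i) * y (od hg j))) else 0 := by
  have hn : Even n := ⟨g, by omega⟩
  rw [AA_eq hn]
  have h1 : x ⬝ᵥ (cq (AI n) *ᵥ y) = ∑ l : Fin n, ∑ m : Fin n, x l * ((fn l m : ℚ) : ℂ) * y m := by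
    simp only [dotProduct, mulVec, Finset.mul_sum, cq, AI, Matrix.map_apply, Matrix.of_apply]
    refine Finset.sum_congr rfl fun l _ => Finset.sum_congr rfl fun m _ => ?_
    ring
  rw [h1, sum_eo hg]
  have h2 : ∀ i : Fin g, (∑ m : Fin n, x (ev hg i) * ((fn (ev hg i : Fin n) m : ℚ) : ℂ) * y m) +
      (∑ m : Fin n, x (od hg i) * ((fn (od hg i : Fin n) m : ℚ) : ℂ) * y m) =
      (∑ j : Fin g, if i ≤ j then (-1) ^ ((i : ℕ) + (j : ℕ)) * (-(1 / 2) * (x (ev hg i) * y (od hg j))) else 0) +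
      ∑ j : Fin g, if j ≤ i then (-1) ^ ((j : ℕ) + (i : ℕ)) * ((1 / 2) * (x (od hg i) * y (ev hg j))) else 0 := by
    intro i
    rw [sum_eo hg, sum_eo hg]
    congr 1
    · refine Finset.sum_congr rfl fun j _ => ?_
      have e1 : fn ((ev hg i : Fin n) : ℕ) ((ev hg j : Fin n) : ℕ) = 0 := fn_ev_ev _ _
      have e2 : fn ((ev hg i : Fin n) : ℕ) ((od hg j : Fin n) : ℕ) =
          if (i : ℕ) ≤ j then -(1 / 2) * (-1) ^ ((i : ℕ) + (j : ℕ)) else 0 := fn_ev_od _ _
      rw [e1, e2]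
      by_cases h : i ≤ j
      · rw [if_pos (Fin.le_def.1 h), if_pos h]
        push_cast
        ring
      · rw [if_neg (fun h2 => h (Fin.le_def.2 h2)), if_neg h]
        push_cast
        ring
    · refine Finset.sum_congr rfl fun j _ => ?_
      have e1 : fn ((od hg i : Fin n) : ℕ) ((od hg j : Fin n) : ℕ) = 0 := fn_od_od _ _
      have e2 : fn ((od hg i : Fin n) : ℕ) ((ev hg j : Fin n) : ℕ) =
          if (j : ℕ) ≤ i then (1 / 2) * (-1) ^ ((i : ℕ) + (j : ℕ)) else 0 := fn_od_ev _ _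
      rw [e1, e2]
      by_cases h : j ≤ i
      · rw [if_pos (Fin.le_def.1 h), if_pos h]
        push_cast
        ring
      · rw [if_neg (fun h2 => h (Fin.le_def.2 h2)), if_neg h]
        push_cast
        ring
  rw [Finset.sum_congr rfl fun i _ => h2 i, Finset.sum_add_distrib]
  have h3 : ∑ i : Fin g, ∑ j : Fin g, (if j ≤ i then (-1) ^ ((j : ℕ) + (i : ℕ)) * ((1 / 2) * (x (od hg i) * y (ev hg j))) else 0) =
      ∑ i : Fin g, ∑ j : Fin g, (if i ≤ j then (-1) ^ ((i : ℕ) + (j : ℕ)) * ((1 / 2) * (x (od hg j) * y (ev hg i))) else (0 : ℂ)) :=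
    Finset.sum_comm
  rw [h3, ← Finset.sum_add_distrib]
  refine Finset.sum_congr rfl fun i _ => ?_
  rw [← Finset.sum_add_distrib]
  refine Finset.sum_congr rfl fun j _ => ?_
  split_ifs
  · ring
  · ring

end

end Pool.Agent.Helper85K9.AH
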