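import Pool.Agent.Helper85K9.AH.Arb
import Pool.Agent.Y130.MT.TN
import Pool.Agent.Y154.MT.Fqc
import Pool.Agent.Y988.MT.Tyc
import Pool.Agent.Y455.MT.Tbc
import Pool.Agent.Y113.MT.HPow

/-!
# From Lie algebras to tensors
-/

set_option autoImplicit false

open Matrix

namespace Pool.Agent.Helper85K9.AH

open Pool.Agent.Y113.MT (cq cact cav TW LL en ctr LL_apply)
open Pool.Agent.Y988.MT (ctrg ctrL ctr_gen ctr_ctr ctr_one)
open Pool.Agent.Y486.MT (cT sum_pair)

variable {n k N r : ℕ}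

/-- the inverse of the form in an adapted basis -/
lemma inv_type {A B : Matrix (Fin n) (Fin n) ℂ} (hA : A.det ≠ 0) (hB : B.det ≠ 0)
    (hK : ∀ l l', ph n l + ph n l' ≠ 1 → (B * A * Bᵀ) l l' = 0) {l l' : Fin n} (h : ph n l + ph n l' ≠ 1) :
    ((B⁻¹)ᵀ * A⁻¹ * B⁻¹) l l' = 0 := by
  set K := B * A * Bᵀ with hKdef
  set D : Matrix (Fin n) (Fin n) ℂ := Matrix.diagonal (fun l => (ph n l : ℂ)) with hD
  have hKd : IsUnit K.det := by
    rw [hKdef, Matrix.det_mul, Matrix.det_mul, Matrix.det_transpose, isUnit_iff_ne_zero]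
    exact mul_ne_zero (mul_ne_zero hB hA) hB
  have hinv : (B⁻¹)ᵀ * A⁻¹ * B⁻¹ = K⁻¹ := by
    rw [hKdef, Matrix.mul_inv_rev, Matrix.mul_inv_rev, Matrix.transpose_nonsing_inv, Matrix.mul_assoc]
  have h1 : D * K + K * D = K := by
    ext a b
    rw [Matrix.add_apply, hD, Matrix.diagonal_mul, Matrix.mul_diagonal]
    by_cases hab : ph n a + ph n b = 1
    · have h4 : (ph n a : ℂ) + (ph n b : ℂ) = 1 := by exact_mod_cast hab
      linear_combination K a b * h4
    · rw [hK a b hab]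
      ring
  have h2 : K⁻¹ * D + D * K⁻¹ = K⁻¹ := by
    have h3 := congrArg (fun M => K⁻¹ * M * K⁻¹) h1
    simp only [Matrix.mul_add, Matrix.add_mul] at h3
    rw [Matrix.nonsing_inv_mul _ hKd, Matrix.one_mul, Matrix.mul_assoc K⁻¹ (D * K), Matrix.mul_assoc D K,
      Matrix.mul_nonsing_inv _ hKd, Matrix.mul_one, ← Matrix.mul_assoc K⁻¹ K D, Matrix.nonsing_inv_mul _ hKd,
      Matrix.one_mul] at h3
    exact h3
  rw [hinv]
  have h3 := congrFun (congrFun h2 l) l'
  rw [Matrix.add_apply, hD, Matrix.mul_diagonal, Matrix.diagonal_mul] at h3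
  have h4 : (((ph n l : ℂ) + (ph n l' : ℂ)) - 1) * K⁻¹ l l' = 0 := by linear_combination h3
  refine (mul_eq_zero.1 h4).resolve_left (sub_ne_zero.2 ?_)
  exact_mod_cast h

/-- coordinates of the tensors of type `p` -/
lemma tb (c : Fin r → Fin k) (B : Fin k → Matrix (Fin n) (Fin n) ℂ) (H : Fin k → ℕ → Submodule ℂ (Fin n → ℂ))
    (U : ℤ → Submodule ℂ (Fin N → ℂ)) (q : ℤ) (T : (Fin r → Fin n) → Fin N → ℂ)
    (hH : ∀ i p, ∀ v ∈ H i p, ∀ l : Fin n, ph n l ≠ p → (v ᵥ* (B i)⁻¹) l = 0)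
    (hT : T ∈ Submodule.span ℂ {f : (Fin r → Fin n) → Fin N → ℂ | ∃ (p0 : ℤ) (z : Fin N → ℂ) (p : Fin r → ℕ)
      (v : Fin r → Fin n → ℂ), z ∈ U p0 ∧ (∀ a, v a ∈ H (c a) (p a)) ∧ p0 + ∑ a, (p a : ℤ) = q ∧
      f = fun J i => (∏ a, v a (J a)) * z i}) :
    ∀ I : Fin r → Fin n, ctr c (fun i => (B i)⁻¹) T I ∈ U (q - ∑ a, (ph n (I a) : ℤ)) := by
  intro I
  refine Submodule.span_induction (p := fun T _ => ctr c (fun i => (B i)⁻¹) T I ∈
    U (q - ∑ a, (ph n (I a) : ℤ))) ?_ ?_ ?_ ?_ hT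
  · rintro f ⟨p0, z, p, v, hz, hv, hP, rfl⟩
    rw [Pool.Agent.Y455.MT.ctr_dec]
    by_cases hI : ∀ a, ph n (I a) = p a
    · have e : q - ∑ a, (ph n (I a) : ℤ) = p0 := by
        simp only [hI]
        linarith
      rw [e]
      exact (U p0).smul_mem _ hz
    · push Not at hI
      obtain ⟨a, ha⟩ := hI
      rw [Finset.prod_eq_zero (Finset.mem_univ a) (hH (c a) (p a) (v a) (hv a) (I a) ha), zero_smul]
      exact Submodule.zero_mem _
  · rw [Pool.Agent.Y455.MT.ctr_zero]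
    exact Submodule.zero_mem _
  · intro x y _ _ hx hy
    rw [Pool.Agent.Y455.MT.ctr_add]
    exact Submodule.add_mem _ hx hy
  · intro x y _ hx
    rw [Pool.Agent.Y455.MT.ctr_smul]
    exact Submodule.smul_mem _ _ hx

/-- types of the coefficients -/
theorem ty (c : Fin r → Fin k) (A : Matrix (Fin n) (Fin n) ℚ) (hA : A.det ≠ 0) (B : Fin k → Matrix (Fin n) (Fin n) ℂ)
    (hB : ∀ i, (B i).det ≠ 0)
    (hK : ∀ i l l', ph n l + ph n l' ≠ 1 → (B i * cq A * (B i)ᵀ) l l' = 0)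
    (U : ℤ → Submodule ℂ (Fin N → ℂ)) (q : ℤ) (T : (Fin r → Fin n) → Fin N → ℚ)
    (hU : ∀ I : Fin r → Fin n, ctrg c (fun i => (B i)⁻¹) (cT T) I ∈ U (q - ∑ a, (ph n (I a) : ℤ)))
    (hT : T ∈ Submodule.span ℚ {f : (Fin r → Fin n) → Fin N → ℚ |
      ∃ (s : ℕ) (e : Fin s × Fin 2 ≃ Fin r) (w : Fin N → ℚ), (∀ l, c (e (l, 0)) = c (e (l, 1))) ∧
      f = fun J i => (∏ l, A⁻¹ (J (e (l, 0))) (J (e (l, 1)))) * w i}) :
    T ∈ Submodule.span ℚ {f : (Fin r → Fin n) → Fin N → ℚ |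
      ∃ (s : ℕ) (e : Fin s × Fin 2 ≃ Fin r) (w : Fin N → ℚ), (∀ l, c (e (l, 0)) = c (e (l, 1))) ∧
      (fun i => ((w i : ℚ) : ℂ)) ∈ U (q - (s : ℤ)) ∧
      f = fun J i => (∏ l, A⁻¹ (J (e (l, 0))) (J (e (l, 1)))) * w i} := by
  have hBu : ∀ i, IsUnit (B i).det := fun i => Ne.isUnit (hB i)
  have hAc : (cq A).det ≠ 0 := by
    rw [cq_det']
    exact_mod_cast hA
  have hmat : ∀ i l l', ph n l + ph n l' ≠ 1 → (((B i)⁻¹)ᵀ * cq A⁻¹ * (B i)⁻¹) l l' = 0 := by
    intro i l l' h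
    rw [Pool.Agent.Y486.MT.cq_inv A hA]
    exact inv_type hAc (hB i) (hK i) h
  -- vanishing of the transform outside the right type
  have hvan : ∀ I : Fin r → Fin n, ∀ T' ∈ Submodule.span ℚ
      {f : (Fin r → Fin n) → Fin N → ℚ | ∃ (s : ℕ) (e : Fin s × Fin 2 ≃ Fin r)
        (w : Fin N → ℚ), (∀ l, c (e (l, 0)) = c (e (l, 1))) ∧
        f = fun J i => (∏ l, A⁻¹ (J (e (l, 0))) (J (e (l, 1)))) * w i},
      2 * ∑ a, (ph n (I a) : ℤ) ≠ (r : ℤ) → ctrL (N := N) c (fun i => (B i)⁻¹) I T' = 0 := by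
    intro I T' hT' hI
    induction hT' using Submodule.span_induction with
    | mem f hf =>
      obtain ⟨s, e, w, he, rfl⟩ := hf
      have h1 : (cT (fun (J : Fin r → Fin n) i =>
          (∏ l, A⁻¹ (J (e (l, 0))) (J (e (l, 1)))) * w i)) =
          fun (J : Fin r → Fin n) i =>
            (∏ l, cq A⁻¹ (J (e (l, 0))) (J (e (l, 1)))) * ((w i : ℚ) : ℂ) := by
        funext J i
        simp [cT, cq]
      have h0 : ∀ T'' : (Fin r → Fin n) → Fin N → ℚ,
          ctrL c (fun i => (B i)⁻¹) I T'' = ctrg c (fun i => (B i)⁻¹) (cT T'') I := fun _ => rfl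
      rw [h0, h1, ctr_gen e c he (fun i => (B i)⁻¹) (fun _ => cq A⁻¹)]
      obtain ⟨l, hl⟩ : ∃ l, ¬ (ph n (I (e (l, 0))) + ph n (I (e (l, 1))) = 1) := by
        by_contra hcon
        push Not at hcon
        apply hI
        have h2 : Fintype.card (Fin s × Fin 2) = Fintype.card (Fin r) := Fintype.card_congr e
        simp only [Fintype.card_prod, Fintype.card_fin] at h2
        rw [sum_pair e]
        have h3 : ∀ l : Fin s, (ph n (I (e (l, 0))) : ℤ) + (ph n (I (e (l, 1))) : ℤ) = 1 := by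
          intro l
          exact_mod_cast hcon l
        rw [Finset.sum_congr rfl (fun l _ => h3 l), Finset.sum_const, Finset.card_univ,
          Fintype.card_fin, nsmul_eq_mul, ← h2]
        push_cast
        ring
      rw [Finset.prod_eq_zero (Finset.mem_univ l), zero_smul]
      exact hmat _ _ _ hl
    | zero => exact map_zero _
    | add x y _ _ hx hy => rw [map_add, hx, hy, add_zero]
    | smul a x _ hx => rw [map_smul, hx, smul_zero]
  -- parity
  rcases Nat.even_or_odd r with hr | hr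
  swap
  · have hempty : {f : (Fin r → Fin n) → Fin N → ℚ | ∃ (s : ℕ) (e : Fin s × Fin 2 ≃ Fin r)
        (w : Fin N → ℚ), (∀ l, c (e (l, 0)) = c (e (l, 1))) ∧
        f = fun J i => (∏ l, A⁻¹ (J (e (l, 0))) (J (e (l, 1)))) * w i} = ∅ := by
      rw [Set.eq_empty_iff_forall_notMem]
      rintro f ⟨s, e, w, _⟩
      have h2 : Fintype.card (Fin s × Fin 2) = Fintype.card (Fin r) := Fintype.card_congr e
      simp only [Fintype.card_prod, Fintype.card_fin] at h2
      obtain ⟨q, hq⟩ := hr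
      omega
    rw [hempty, Submodule.span_empty, Submodule.mem_bot] at hT
    rw [hT]
    exact Submodule.zero_mem _
  · obtain ⟨s0, hs0⟩ := hr
    have hval : ∀ J : Fin r → Fin n, cT T J ∈ U (q - (s0 : ℤ)) := by
      have h1 : ∀ I : Fin r → Fin n, ctrg c (fun i => (B i)⁻¹) (cT T) I ∈ U (q - (s0 : ℤ)) := by
        intro I
        by_cases hI : 2 * ∑ a, (ph n (I a) : ℤ) = (r : ℤ)
        · have h2 : ∑ a, (ph n (I a) : ℤ) = (s0 : ℤ) := by
            have h3 : (r : ℤ) = s0 + s0 := by exact_mod_cast hs0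
            omega
          have h5 := hU I
          rw [h2] at h5
          exact h5
        · have h2 := hvan I T hT hI
          have h3 : ctrg c (fun i => (B i)⁻¹) (cT T) I = 0 := h2
          rw [h3]
          exact Submodule.zero_mem _
      intro J
      have h2 : ctrg c B (ctrg c (fun i => (B i)⁻¹) (cT T)) J = cT T J := by
        rw [ctr_ctr]
        have h3 : (fun i => (B i)⁻¹ * B i) = fun _ => (1 : Matrix (Fin n) (Fin n) ℂ) := by
          funext i
          exact Matrix.nonsing_inv_mul _ (hBu i)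
        rw [h3, ctr_one]
      rw [← h2]
      simp only [ctrg]
      apply Submodule.sum_mem
      intro I _
      exact Submodule.smul_mem _ _ (h1 I)
    -- the rational vectors of the right type
    set V : Submodule ℂ (Fin N → ℂ) := U (q - (s0 : ℤ)) with hVdef
    let W : Submodule ℚ (Fin N → ℚ) :=
      { carrier := {w | (fun i => ((w i : ℚ) : ℂ)) ∈ V}
        zero_mem' := by
          have : (fun i : Fin N => (((0 : Fin N → ℚ) i : ℚ) : ℂ)) = 0 := by funext i; simp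
          change (fun i : Fin N => (((0 : Fin N → ℚ) i : ℚ) : ℂ)) ∈ V
          rw [this]
          exact Submodule.zero_mem _
        add_mem' := by
          intro w w' hw hw'
          have : (fun i : Fin N => (((w + w') i : ℚ) : ℂ)) =
            (fun i => ((w i : ℚ) : ℂ)) + (fun i => ((w' i : ℚ) : ℂ)) := by funext i; simp
          change (fun i : Fin N => (((w + w') i : ℚ) : ℂ)) ∈ V
          rw [this]
          exact Submodule.add_mem _ hw hw'
        smul_mem' := by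
          intro q w hw
          have : (fun i : Fin N => (((q • w) i : ℚ) : ℂ)) =
            (q : ℂ) • (fun i => ((w i : ℚ) : ℂ)) := by funext i; simp
          change (fun i : Fin N => (((q • w) i : ℚ) : ℂ)) ∈ V
          rw [this]
          exact Submodule.smul_mem _ _ hw }
    obtain ⟨g, hg⟩ := LinearMap.exists_leftInverse_of_injective W.subtype (by simp)
    have hTW : ∀ J, (g (T J) : Fin N → ℚ) = T J := by
      intro J
      have h1 : T J ∈ W := hval J
      have h2 := LinearMap.congr_fun hg ⟨T J, h1⟩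
      simp only [LinearMap.comp_apply, Submodule.subtype_apply, LinearMap.id_apply] at h2
      rw [h2]
    have hTe : T = fun J => (g (T J) : Fin N → ℚ) := funext (fun J => (hTW J).symm)
    rw [hTe]
    have key : ∀ T' ∈ Submodule.span ℚ
        {f : (Fin r → Fin n) → Fin N → ℚ | ∃ (s : ℕ) (e : Fin s × Fin 2 ≃ Fin r)
          (w : Fin N → ℚ), (∀ l, c (e (l, 0)) = c (e (l, 1))) ∧
          f = fun J i => (∏ l, A⁻¹ (J (e (l, 0))) (J (e (l, 1)))) * w i},
        (fun J => (g (T' J) : Fin N → ℚ)) ∈ Submodule.span ℚ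
          {f : (Fin r → Fin n) → Fin N → ℚ | ∃ (s : ℕ) (e : Fin s × Fin 2 ≃ Fin r)
            (w : Fin N → ℚ), (∀ l, c (e (l, 0)) = c (e (l, 1))) ∧
            (fun i => ((w i : ℚ) : ℂ)) ∈ U (q - (s : ℤ)) ∧
            f = fun J i => (∏ l, A⁻¹ (J (e (l, 0))) (J (e (l, 1)))) * w i} := by
      intro T' hT'
      induction hT' using Submodule.span_induction with
      | mem f hf =>
        obtain ⟨s, e, w, he, rfl⟩ := hf
        have h2 : Fintype.card (Fin s × Fin 2) = Fintype.card (Fin r) := Fintype.card_congr e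
        simp only [Fintype.card_prod, Fintype.card_fin] at h2
        have hs : s = s0 := by omega
        apply Submodule.subset_span
        refine ⟨s, e, (g w : Fin N → ℚ), he, ?_, ?_⟩
        · rw [hs]
          exact (g w).2
        · funext J
          change (g ((∏ l, A⁻¹ (J (e (l, 0))) (J (e (l, 1)))) • w) : Fin N → ℚ) = _
          rw [map_smul]
          rfl
      | zero =>
        have : (fun J : Fin r → Fin n => (g ((0 : (Fin r → Fin n) → Fin N → ℚ) J) :
            Fin N → ℚ)) = 0 := by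
          funext J
          simp
        rw [this]
        exact Submodule.zero_mem _
      | add x y _ _ hx hy =>
        have : (fun J => (g ((x + y) J) : Fin N → ℚ)) =
            (fun J => (g (x J) : Fin N → ℚ)) + fun J => (g (y J) : Fin N → ℚ) := by
          funext J
          simp
        rw [this]
        exact Submodule.add_mem _ hx hy
      | smul a x _ hx =>
        have : (fun J => (g ((a • x) J) : Fin N → ℚ)) =
            a • (fun J => (g (x J) : Fin N → ℚ)) := by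
          funext J
          simp
        rw [this]
        exact Submodule.smul_mem _ _ hx
    exact key T hT

/-- all the rational tensors of a type are products -/
def TProp (A : Matrix (Fin n) (Fin n) ℚ) (Hh : Fin k → ℕ → Submodule ℂ (Fin n → ℂ))
    (U : ℤ → Submodule ℂ (Fin N → ℂ)) : Prop :=
  ∀ (r j : ℕ) (c : Fin r → Fin k) (q : ℤ) (T : (Fin r → Fin n) → (Fin j → Fin N) → ℚ),
  (fun J K => ((T J K : ℚ) : ℂ)) ∈ Submodule.span ℂ {f : (Fin r → Fin n) → (Fin j → Fin N) → ℂ |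
    ∃ (p : Fin r → ℕ) (v : Fin r → Fin n → ℂ) (o : Fin j → ℤ) (w : Fin j → Fin N → ℂ),
    (∀ a, p a < n ∧ v a ∈ Hh (c a) (p a)) ∧ (∀ b, w b ∈ U (o b)) ∧ ∑ a, (p a : ℤ) + ∑ b, o b = q ∧
    f = fun J K => (∏ a, v a (J a)) * ∏ b, w b (K b)} →
  T ∈ Submodule.span ℚ {f : (Fin r → Fin n) → (Fin j → Fin N) → ℚ |
    ∃ (s : ℕ) (e : Fin s × Fin 2 ≃ Fin r) (z : (Fin j → Fin N) → ℚ), (∀ l, c (e (l, 0)) = c (e (l, 1))) ∧
    (fun K => ((z K : ℚ) : ℂ)) ∈ TW U j (q - (s : ℤ)) ∧
    f = fun J K => (∏ l, A⁻¹ (J (e (l, 0))) (J (e (l, 1)))) * z K}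

/-- from Lie algebras to tensors -/
theorem tens (hn : Even n) {P : Fin k → Matrix (Fin n) (Fin n) ℂ} {A : Matrix (Fin n) (Fin n) ℚ} (hAt : Aᵀ = -A)
    (hAd : A.det ≠ 0) {Hh : Fin k → ℕ → Submodule ℂ (Fin n → ℂ)}
    (hH : ∀ i, IsFib (P i) A (Hh i)) (hi : ∀ i, Iso (P i) A) (hP : ∀ i, (P i).det ≠ 0)
    {U : ℤ → Submodule ℂ (Fin N → ℂ)} (hU : DirectSum.IsInternal U)
    (hlie : ∀ ΦW : Matrix (Fin N) (Fin N) ℂ, (∀ p, ∀ z ∈ U p, z ᵥ* ΦW = (p : ℂ) • z) →
      LieW A (fun i => PhiB (P i)) ΦW) : TProp A Hh U := by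
  intro r j c q T hT
  have hB := fun i => BB_det hn (hH i) (hi i) (hP i)
  obtain ⟨ΦW, hΦW⟩ := Pool.Agent.Y658.MT.op N U hU
  have hinv := Pool.Agent.Y130.MT.tn k n N r j c (fun _ => A) (fun _ => hAt) (fun _ => hAd) Hh U
    (fun i => PhiB (P i)) ΦW (fun i p _ v hv => Phi_op hn (hH i) (hB i) p hv) hΦW
    (fun 𝔪 hbr hmem X hX => hlie ΦW hΦW 𝔪 hbr hmem X hX) q T hT
  -- the reindexed tensor
  set T' : (Fin r → Fin n) → Fin (Fintype.card (Fin j → Fin N)) → ℚ := fun J i => T J ((en N j).symm i) with hT'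
  have hcav : ∀ X : Fin k → Matrix (Fin n) (Fin n) ℚ, (∀ i, X i * A + A * (X i)ᵀ = 0) → cav c X T' = 0 := by
    intro X hX
    funext J i
    have h3 := congrFun (congrFun (hinv X hX) J) ((en N j).symm i)
    unfold cact at h3
    unfold cav
    rw [Finset.sum_apply]
    simp only [Matrix.zero_apply, zero_mul, Finset.sum_const_zero, add_zero, Pi.zero_apply] at h3
    rw [Pi.zero_apply, Pi.zero_apply, ← h3]
    refine Finset.sum_congr rfl fun a _ => ?_
    rw [Finset.sum_apply]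
    refine Finset.sum_congr rfl fun l _ => ?_
    rw [Pi.smul_apply, smul_eq_mul]
  let RC : ((Fin r → Fin n) → (Fin j → Fin N) → ℂ) →ₗ[ℂ] ((Fin r → Fin n) → Fin (Fintype.card (Fin j → Fin N)) → ℂ) :=
    { toFun := fun f J i => f J ((en N j).symm i)
      map_add' := fun _ _ => rfl
      map_smul' := fun _ _ => rfl }
  have h1 : (fun J i => ((T' J i : ℚ) : ℂ)) ∈ Submodule.span ℂ {f : (Fin r → Fin n) → Fin (Fintype.card (Fin j → Fin N)) → ℂ |
      ∃ (p0 : ℤ) (z : Fin (Fintype.card (Fin j → Fin N)) → ℂ) (p : Fin r → ℕ)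
      (v : Fin r → Fin n → ℂ), z ∈ (TW U j p0).map (LL ℂ N j).toLinearMap ∧ (∀ a, v a ∈ Hh (c a) (p a)) ∧
      p0 + ∑ a, (p a : ℤ) = q ∧ f = fun J i => (∏ a, v a (J a)) * z i} := by
    have h2 := Submodule.mem_map_of_mem (f := RC) hT
    rw [Submodule.map_span] at h2
    refine Submodule.span_mono ?_ h2
    rintro _ ⟨_, ⟨p, v, o, w, hp, hw, hsum, rfl⟩, rfl⟩
    refine ⟨∑ b, o b, LL ℂ N j fun K => ∏ b, w b (K b), p, v, ⟨_, Submodule.subset_span ⟨o, w, hw, rfl, rfl⟩, rfl⟩,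
      fun a => (hp a).2, ?_, rfl⟩
    rw [add_comm]
    exact hsum
  have htype := tb c (fun i => BB (P i)) Hh (fun p => (TW U j p).map (LL ℂ N j).toLinearMap) q _
    (fun i p v hv l hl => coord hn (hH i) (hB i) p hv l hl) h1
  have h3 := ty c A hAd (fun i => BB (P i)) hB (fun i l l' hl => by rw [BAB]; exact K_zero hn (hH i) (hi i) hl)
    (fun p => (TW U j p).map (LL ℂ N j).toLinearMap) q T' htype
    (Pool.Agent.Y154.MT.fqc k n _ r c (fun _ => A) (fun _ => hAd) (fun _ => hAt) T' hcav)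
  -- back
  let RQ : ((Fin r → Fin n) → Fin (Fintype.card (Fin j → Fin N)) → ℚ) →ₗ[ℚ] ((Fin r → Fin n) → (Fin j → Fin N) → ℚ) :=
    { toFun := fun f J K => f J (en N j K)
      map_add' := fun _ _ => rfl
      map_smul' := fun _ _ => rfl }
  have h6 : RQ T' = T := by
    funext J K
    show T J ((en N j).symm (en N j K)) = T J K
    rw [Equiv.symm_apply_apply]
  have h7 := Submodule.mem_map_of_mem (f := RQ) h3
  rw [h6, Submodule.map_span] at h7
  refine Submodule.span_mono ?_ h7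
  rintro _ ⟨_, ⟨s, e, w, he, hw, rfl⟩, rfl⟩
  refine ⟨s, e, fun K => w (en N j K), he, ?_, rfl⟩
  obtain ⟨z, hz, hzw⟩ := hw
  have h8 : (fun K => ((w (en N j K) : ℚ) : ℂ)) = z := by
    funext K
    have h9 := congrFun hzw (en N j K)
    have h10 : LL ℂ N j z (en N j K) = z K := by
      rw [LL_apply, Equiv.symm_apply_apply]
    rw [← h10]
    exact h9.symm
  rw [h8]
  exact hz

end Pool.Agent.Helper85K9.AH
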