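import Pool.Agent.Helper85K9.AH.Win

/-!
# The Lie algebras of the products of fibres of a window
-/

set_option autoImplicit false

open Matrix

namespace Pool.Agent.Helper85K9.AH

open Pool.Agent.Y113.MT (cq)
open Pool.Agent.Y118.HP Pool.Agent.Y118.HG
open Polynomial (X C)

variable {n : ℕ}

/-- each rational space of tuples of matrices which is closed under brackets and contains `Φ` over `ℂ` contains the
symplectic Lie algebra -/
def Lie (A : Matrix (Fin n) (Fin n) ℚ) {ι : Type} (Φ : ι → Matrix (Fin n) (Fin n) ℂ) : Prop :=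
  ∀ 𝔪 : Submodule ℚ (ι → Matrix (Fin n) (Fin n) ℚ), (∀ X ∈ 𝔪, ∀ Y ∈ 𝔪, br X Y ∈ 𝔪) → Φ ∈ cxm 𝔪 →
    ∀ X : ι → Matrix (Fin n) (Fin n) ℚ, (∀ i, X i * A + A * (X i)ᵀ = 0) → X ∈ 𝔪

lemma deg_F {a : Fin n → ℝ} {f : Polynomial ℚ} (hf : f.map (algebraMap ℚ ℝ) = ∏ i, (X - C (a i))) (z : ℚ) :
    (f * (X - C z)).coeff (n + 1) = 1 ∧ ∀ k, n + 1 < k → (f * (X - C z)).coeff k = 0 := by
  have h1 : (f * (X - C z)).map (algebraMap ℚ ℝ) = (∏ i, (X - C (a i))) * (X - C (z : ℝ)) := by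
    rw [Polynomial.map_mul, hf, Polynomial.map_sub, Polynomial.map_X, Polynomial.map_C, eq_ratCast]
  have hm : (∏ i, (X - C (a i))).Monic := Polynomial.monic_prod_of_monic _ _ fun i _ => Polynomial.monic_X_sub_C _
  have hm2 : ((∏ i, (X - C (a i))) * (X - C (z : ℝ))).Monic := hm.mul (Polynomial.monic_X_sub_C _)
  have hd : ((∏ i, (X - C (a i))) * (X - C (z : ℝ))).natDegree = n + 1 := by
    rw [hm.natDegree_mul (Polynomial.monic_X_sub_C _), Polynomial.natDegree_X_sub_C]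
    congr 1
    rw [Polynomial.natDegree_prod_of_monic _ _ fun i _ => Polynomial.monic_X_sub_C _]
    simp
  have h2 : ∀ k, (((f * (X - C z)).coeff k : ℚ) : ℝ) = ((∏ i, (X - C (a i))) * (X - C (z : ℝ))).coeff k := by
    intro k
    rw [← h1, Polynomial.coeff_map]
    exact (eq_ratCast (algebraMap ℚ ℝ) _).symm
  constructor
  · have h3 := h2 (n + 1)
    have h4 := hm2.coeff_natDegree
    rw [hd] at h4
    rw [h4] at h3
    exact_mod_cast h3
  · intro k hk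
    have h3 := h2 k
    rw [Polynomial.coeff_eq_zero_of_natDegree_lt (p := (∏ i, (X - C (a i))) * (X - C (z : ℝ))) (by omega)] at h3
    exact_mod_cast h3

lemma lie_of (hn : Even n) (hn0 : 0 < n) {k : ℕ} {F : Fin k → Polynomial ℚ} {P : Fin k → Matrix (Fin n) (Fin n) ℂ} {lam : ℂ}
    (hl : lam ≠ 0) (hx : ∀ j, TorEq (F j) (P j) lam) (hF : ∀ j, (F j).coeff (n + 1) = 1)
    (hF' : ∀ j, ∀ l, n + 1 < l → (F j).coeff l = 0) {Hh : Fin k → ℕ → Submodule ℂ (Fin n → ℂ)}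
    (hH : ∀ j, IsFib (P j) (AA n) (Hh j)) (hD : ∀ j, RelD (bm ℚ n) (cq (AA n) * P j))
    (hO : ∀ i j, i ≠ j → RelO (bm ℚ n) (cq (AA n) * P i) (cq (AA n) * P j)) :
    Lie (AA n) (fun i => PhiB (P i)) := by
  intro 𝔪 hbr hmem X hX
  have hP := fun j => tor_det hn hl (hx j)
  have hi := fun j => tor_iso hn hl (hx j) (hF j) (hF' j)
  have s : Setup (AA n) (bm ℚ n) (fun i => cq (AA n) * P i) (fun i => PhiB (P i)) := by
    refine ⟨hn0, AA_skew hn, AA_mul hn, fun i => ?_, fun i => PhiB_hod hn (AA_skew hn) (hH i) (hi i) (hP i), fun i c hc => ?_,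
      hD, hO⟩
    · rw [Matrix.det_mul, cq_det']
      have h1 : (((AA n).det : ℚ) : ℂ) ≠ 0 := by exact_mod_cast AA_det hn
      exact mul_ne_zero h1 (hP i)
    · exact PhiB_hol hn (hH i) (hi i) (BB_det hn (hH i) (hi i) (hP i)) c hc
  exact core s hbr hmem X hX

/-- the period matrix at `1 / t` -/
noncomputable def PT (a : Fin n → ℝ) (m : Fin (n + 1)) (t : ℕ) : Matrix (Fin n) (Fin n) ℂ :=
  Matrix.of (cper (er a m (1 / (t : ℝ))))

lemma two_pi_ne : (2 * Real.pi * Complex.I : ℂ) ≠ 0 := Complex.two_pi_I_ne_zero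

/-- the torsor equation in the gap -/
lemma PT_tor (hn : Even n) {a : Fin n → ℝ} {f : Polynomial ℚ} (hf : f.map (algebraMap ℚ ℝ) = ∏ i, (X - C (a i)))
    {m : Fin (n + 1)} {t : ℕ} (ht : StrictMono (er a m (1 / (t : ℝ)))) :
    TorEq (f * (X - C (1 / (t : ℚ)))) (PT a m t) (2 * Real.pi * Complex.I) := by
  have hcast : (((1 / (t : ℚ) : ℚ)) : ℝ) = 1 / (t : ℝ) := by push_cast; rfl
  have hg : InGap a m (((1 / (t : ℚ) : ℚ)) : ℝ) := by
    rw [hcast]
    exact (inGap_of_er ht).2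
  have h1 := CM_mem hn (inGap_of_er ht).1 hf hg
  have h2 : ((fun _ : Fin 1 => CM a m (((1 / (t : ℚ) : ℚ)) : ℝ)), (2 * Real.pi * Complex.I : ℂ)) ∈
      TorF (n := n) (fun _ : Fin 1 => f * (X - C (1 / (t : ℚ)))) := by
    rw [TorF_eq (fun _ : Fin 1 => f) (fun _ : Fin 1 => 1 / (t : ℚ))]
    exact ⟨two_pi_ne, fun _ => h1⟩
  have h3 := h2.2 0
  rw [cq_map, cq_map] at h3
  unfold TorEq PT
  have h4 : CM a m (((1 / (t : ℚ) : ℚ)) : ℝ) = Matrix.of (cper (er a m (1 / (t : ℝ)))) := by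
    rw [hcast]
    rfl
  rw [← h4]
  exact h3

lemma pow_aux (H c E : ℕ) : (H + c + 2) ^ E ≤ (H + 2) ^ (E * (c + 1)) := by
  have h1 : H + c + 2 ≤ (H + 2) ^ (c + 1) := by
    induction c with
    | zero => simp
    | succ c ih =>
      calc H + (c + 1) + 2 ≤ (H + c + 2) * 2 := by omega
        _ ≤ (H + 2) ^ (c + 1) * (H + 2) := Nat.mul_le_mul ih (by omega)
        _ = (H + 2) ^ (c + 1 + 1) := (pow_succ _ _).symm
  calc (H + c + 2) ^ E ≤ ((H + 2) ^ (c + 1)) ^ E := Nat.pow_le_pow_left h1 E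
    _ = (H + 2) ^ (E * (c + 1)) := by rw [← pow_mul, mul_comm]

/-- **products of the fibres of a window, Lie form** -/
theorem tup (hn : Even n) (hn0 : 0 < n) (a : Fin n → ℝ) (f : Polynomial ℚ)
    (hf : f.map (algebraMap ℚ ℝ) = ∏ i, (X - C (a i))) (m : Fin (n + 1)) (h0 : StrictMono (er a m 0)) :
    ∃ G0 : ℕ, ∀ G : ℕ, G0 ≤ G → ∃ E : ℕ, ∀ H t : ℕ, (H + 2) ^ E ≤ t →
      (∀ u : ℕ, u ≤ H → G * u < t ∧ StrictMono (er a m (1 / ((t - G * u : ℕ) : ℝ)))) ∧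
      ∃ S : Finset ℕ,
        (S.card : Cardinal) ≤ Algebra.trdeg ℚ (IntermediateField.adjoin ℚ (Set.range
          (pt (fun _ : Fin 1 => Matrix.of (cper (er a m 0))) (2 * Real.pi * Complex.I)))) ∧
        2 * S.card ≤ n * (n + 1) + 2 ∧
        ∀ (k : ℕ) (u : Fin k → ℕ), Function.Injective u → (∀ j, 1 ≤ u j ∧ u j ≤ H ∧ u j ∉ S) →
          ∀ Hh : Fin k → ℕ → Submodule ℂ (Fin n → ℂ), (∀ i, IsFib (PT a m (t - G * u i)) (AA n) (Hh i)) →
          Lie (AA n) (fun i => PhiB (PT a m (t - G * u i))) := by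
  obtain ⟨G0, hG0⟩ := wfinK hn a f hf m h0
  refine ⟨G0, fun G hG => ?_⟩
  obtain ⟨E, hE⟩ := hG0 G hG 2 1 3
  set c := n * (n + 1) + 3 with hc
  refine ⟨E * (c + 1), fun H t ht => ?_⟩
  obtain ⟨h1, S, hS1, hS2, hS3⟩ := hE (H + c) t ((pow_aux H c E).trans ht)
  have hcastR : ∀ u : ℕ, u ≤ H + c → (((t - G * u : ℕ)) : ℝ) = (t : ℝ) - G * u := by
    intro u hu
    rw [Nat.cast_sub (h1 u hu).1.le]
    push_cast
    rfl
  have hcastQ : ∀ u : ℕ, u ≤ H + c → (((t - G * u : ℕ)) : ℚ) = (t : ℚ) - G * u := by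
    intro u hu
    rw [Nat.cast_sub (h1 u hu).1.le]
    push_cast
    rfl
  have hgap : ∀ u : ℕ, u ≤ H + c → StrictMono (er a m (1 / ((t - G * u : ℕ) : ℝ))) := by
    intro u hu
    rw [hcastR u hu]
    exact (h1 u hu).2
  refine ⟨fun u hu => ⟨(h1 u (by omega)).1, hgap u (by omega)⟩, S, hS1, hS2, fun k u hu huS Hh hHh => ?_⟩
  -- pairs
  have pair : ∀ v w : ℕ, v ≠ w → (1 ≤ v ∧ v ≤ H + c ∧ v ∉ S) → (1 ≤ w ∧ w ≤ H + c ∧ w ∉ S) →
      DG (fun j : Fin 2 => f * (X - C (1 / ((t - G * (![v, w] j) : ℕ) : ℚ))))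
        (pt (fun j : Fin 2 => PT a m (t - G * (![v, w] j))) (2 * Real.pi * Complex.I)) 1 3 := by
    intro v w hvw hv hw
    have h2 : ∀ j : Fin 2, 1 ≤ (![v, w] : Fin 2 → ℕ) j ∧ (![v, w] : Fin 2 → ℕ) j ≤ H + c ∧ (![v, w] : Fin 2 → ℕ) j ∉ S := by
      intro j
      fin_cases j
      · exact hv
      · exact hw
    have h3 := (hS3 ![v, w] (by
      intro x y hxy
      fin_cases x <;> fin_cases y <;> simp_all) h2).2.1
    have e1 : (fun j : Fin 2 => f * (X - C (1 / ((t - G * (![v, w] j) : ℕ) : ℚ)))) =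
        fun j : Fin 2 => f * (X - C (1 / ((t : ℚ) - G * (![v, w] j : ℕ)))) := by
      funext j
      rw [hcastQ _ (h2 j).2.1]
    have e2 : (fun j : Fin 2 => PT a m (t - G * (![v, w] j))) =
        fun j : Fin 2 => Matrix.of (cper (er a m (1 / ((t : ℝ) - G * (![v, w] j : ℕ))))) := by
      funext j
      unfold PT
      rw [hcastR _ (h2 j).2.1]
    rw [e1, e2]
    exact h3
  -- relations
  have relp : ∀ v w : ℕ, v ≠ w → (1 ≤ v ∧ v ≤ H + c ∧ v ∉ S) → (1 ≤ w ∧ w ≤ H + c ∧ w ∉ S) →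
      RelD (bm ℚ n) (cq (AA n) * PT a m (t - G * v)) ∧
      RelO (bm ℚ n) (cq (AA n) * PT a m (t - G * v)) (cq (AA n) * PT a m (t - G * w)) := by
    intro v w hvw hv hw
    have h2 : ∀ j : Fin 2, (![v, w] : Fin 2 → ℕ) j ≤ H + c := by
      intro j
      fin_cases j
      · exact hv.2.1
      · exact hw.2.1
    have h3 := rel hn two_pi_ne (fun j : Fin 2 => PT_tor hn hf (hgap _ (h2 j))) (pair v w hvw hv hw)
    constructor
    · intro c b b' b'' h4 g hg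
      exact h3 0 0 c b b' b'' h4 (fun _ => g) fun _ => hg
    · intro c b b' b'' h4 g g' hg hg'
      exact h3 0 1 c b b' b'' h4 ![g, g'] fun j => by
        fin_cases j
        · exact hg
        · exact hg'
  -- an auxiliary fibre
  obtain ⟨w, hw1, hw2, hw3⟩ : ∃ w, H < w ∧ w ≤ H + c ∧ w ∉ S := by
    by_contra hcon
    push Not at hcon
    have h2 : Finset.Ioc H (H + c) ⊆ S := by
      intro w hw
      rw [Finset.mem_Ioc] at hw
      exact hcon w hw.1 hw.2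
    have h3 := Finset.card_le_card h2
    rw [Nat.card_Ioc] at h3
    omega
  refine lie_of hn hn0 two_pi_ne (fun j => PT_tor hn hf (hgap (u j) (by have := (huS j).2.1; omega)))
    (fun j => (deg_F hf _).1) (fun j => (deg_F hf _).2) hHh (fun j => ?_) (fun i j hij => ?_)
  · have h2 := huS j
    exact (relp (u j) w (by omega) ⟨h2.1, by omega, h2.2.2⟩ ⟨by omega, hw2, hw3⟩).1
  · have h2 := huS i
    have h3 := huS j
    exact (relp (u i) (u j) (fun h => hij (hu h)) ⟨h2.1, by omega, h2.2.2⟩ ⟨h3.1, by omega, h3.2.2⟩).2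

end Pool.Agent.Helper85K9.AH
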